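import Mathlib
import Pool.Agent.N877.P21.Defs
import Pool.Agent.N969.P17G.Defs2
import Pool.Agent.N973.P15.Defs4

/-!
# Project P15G: the classes `(+;-1,-1)` and `(+;-1,0)` of the twists of `X_0(15)`

`(χ₃(A), χ₅(A)) = (-1,-1)` or `(-1,0)` for the positive fundamental discriminant `A`.
Lattice: the ternary lattice of the quaternion algebra ramified at `3` (`N877.P21.vec`), and its
sublattice `V` attached to the Eichler order of level `5` (the vectors orthogonal to the base line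
`(1,1,1)` modulo `5`).  The numbers are `n = A m`, `-n < 0` a fundamental discriminant with `15 ∣ n`:
either `A` prime to `15` and `15 ∣ m`, or `5 ∣ A` and `3 ∣ m`.

Everything covers odd and even discriminants at the same time. All statements are verified
numerically.
-/

set_option autoImplicit false

namespace Pool.Agent.N973.P15G

open Finset
open Pool.Agent.Z700 (hh fac)
open Pool.Agent.N969.P15 (V3 tw tb ep2 un psp psp2 c2 Ev Qc Qe)
open Pool.Agent.N877.P21 (ip vec rr cp loc locE loc3 loc3E)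
open Pool.Agent.N969.P17G (sgn sgnE gen gnE psl psl2 chP chM bdE)

noncomputable section

/-! ### discriminants and classes -/

/-- `A > 1` is a positive fundamental discriminant -/
def Ps (A : ℕ) : Prop := (Squarefree A ∧ A % 4 = 1 ∧ 1 < A) ∨
  ∃ M : ℕ, A = 4 * M ∧ Squarefree M ∧ (M % 4 = 2 ∨ M % 4 = 3)

/-- `-n` is a negative fundamental discriminant -/
def Ng (n : ℕ) : Prop := (Squarefree n ∧ n % 4 = 3) ∨ Ev n

/-- `3` and `5` inert -/
def Aii (A : ℕ) : Prop := Ps A ∧ A % 3 = 2 ∧ (A % 5 = 2 ∨ A % 5 = 3)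

/-- `3` inert, `5` ramified -/
def Aio (A : ℕ) : Prop := Ps A ∧ A % 3 = 2 ∧ 5 ∣ A

/-- `15 ∣ n` -/
def N15 (n : ℕ) : Prop := Ng n ∧ 15 ∣ n

/-- `3 ∣ m`, `5` inert -/
def N3 (m : ℕ) : Prop := Ng m ∧ 3 ∣ m ∧ (m % 5 = 2 ∨ m % 5 = 3)

/-- a unitary divisor of `n` -/
def Ud (n A : ℕ) : Prop := A ∣ n ∧ Nat.Coprime A (n / A)

/-! ### the definite side -/

/-- the vectors of norm `n` of the lattice of the Eichler order of level `5` -/
def V (n : ℤ) : Finset V3 := (vec n).filter fun v => (5 : ℤ) ∣ v 0 + 2 * v 1 + 2 * v 2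

/-- the genus sign of two vectors of norm `n` with inner product `2 T - n`, at the primes dividing
the unitary divisor `A` of `n` (`3 ∤ A`) -/
def sg (A n : ℕ) (T : ℤ) : ℤ := if 2 ∣ n then sgnE 1 A n T else sgn 1 A n T

/-- the signed number of pairs of vectors in `V` -/
def P (A n : ℕ) : ℤ := ∑ v ∈ V n, ∑ w ∈ V n, sg A n ((n + ip v w) / 2)

/-- the signed number of pairs of vectors in the large lattice -/
def RR (A n : ℕ) : ℤ := ∑ v ∈ vec n, ∑ w ∈ vec n, sg A n ((n + ip v w) / 2)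

/-- the number of pairs of vectors of `V` with inner product `b` -/
def cpV (n1 b n2 : ℤ) : ℕ := ((V n1 ×ˢ V n2).filter fun q => ip q.1 q.2 = b).card

/-- the local densities for two vectors of norm `n` with inner product `2 T - n`, `3 ∣ n` -/
def l3 (n T : ℕ) : ℤ := if 2 ∣ n then loc3E n ((T : ℤ) - ((n - T : ℕ) : ℤ)) (4 * (n - T) * T)
  else loc3 n (4 * (n - T) * T)

/-- PCV: the number of pairs in `V` with given inner product, `15 ∣ n` (from `PC3`, `PC3E`: `S₃` and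
the rotation of norm `3` permute the six isotropic lines modulo `5` transitively) -/
def S_PCV : Prop := ∀ n : ℕ, N15 n → ∀ b : ℤ,
  (¬ (5 : ℤ) ∣ b → cpV n b n = 0) ∧ ((5 : ℤ) ∣ b → 6 * (cpV n b n : ℤ) = cp n b n)

/-- ORT: the signs are characters, and the unit `(x, y, z) ↦ (-x, -z, -y)` acts freely on the vectors
of `V` with given signs (`x 1` counts the vectors) -/
def S_ORT : Prop := ∀ n D : ℕ, N15 n → Ud n D → ¬ 3 ∣ D → ∃ x : ℕ → ℤ,
  (∀ A : ℕ, Ud n A → A ∣ D → P A n = x A ^ 2) ∧ x 1 = (V n).card ∧ 6 * x 1 = rr n ∧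
  (2 : ℤ) ^ (D.primeFactors.card + 1) ∣
    ∑ A ∈ D.divisors.filter (fun A => Nat.Coprime A (n / A)), x A

/-- VAN: the trivial vanishing: `v ↦ -v` if `A` belongs to a negative discriminant; if
`(A / 15) = -1`, or `5 ∣ A` and `5` splits in `ℚ(√(-n/A))`, the rotation by `π` about the vector
`(1,1,1)` of norm `15`: `(x, y, z) ↦ (-3x+4y+4z, 2x-y+4z, 2x+4y-z) / 5` preserves `V` and multiplies
the sign of `A` by `-1` -/
def S_VAN : Prop := ∀ n A : ℕ, N15 n → Ud n A → ¬ 3 ∣ A →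
  (¬ Ng (n / A) ∨ (¬ 5 ∣ A ∧ jacobiSym A 15 = -1) ∨
    (5 ∣ A ∧ ((n / A) % 5 = 1 ∨ (n / A) % 5 = 4))) → A ≠ 1 → P A n = 0

/-- VANR: the rotation of norm `3` of the large lattice, `(x, y, z) ↦ (x, -y, -z)`, multiplies the
sign of `A` by `χ₃(A)`: `R_A = 0` if `χ₃(A) = -1`; it identifies `R_A` with `6 x_A` if
`χ₃(A) = 1` (it exchanges the two orbits of three isotropic lines modulo `5`) -/
def S_VANR : Prop := ∀ n A : ℕ, N15 n → Ud n A → ¬ 3 ∣ A → Ng (n / A) →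
  (A % 3 = 2 → RR A n = 0) ∧ (A % 3 = 1 → RR A n = 36 * P A n)

/-- EIS: the Eisenstein part vanishes (from `LOW`, `C1L`, `C2L`, `CNF`, `PC3`) -/
def S_EIS : Prop := ∀ n A : ℕ, N15 n → Ud n A → Ps A → Ng (n / A) → A % 3 = 1 → RR A n = 0

/-- CNF: the class number formula for the boundary terms -/
def S_CNF : Prop := ∀ A m : ℕ, Ps A → Ng m → Nat.Coprime A m → ¬ 3 ∣ A → 15 ∣ A * m →
  3 * ∑ u ∈ un m, chM m u * bdE A u m = rr (A * m : ℕ)

/-! ### the symbols of a positive discriminant -/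

/-- the weight of a form `(a, b, c)` of discriminant `A²`: level `3`, orientation at `3` -/
def w3 (A : ℕ) (q : ℤ × ℤ × ℤ) : ℤ :=
  if (3 : ℤ) ∣ q.1 then (if (3 : ℤ) ∣ q.2.1 - A then 1 else -1) else 0

/-- first coefficient divisible by `3` and prime to `5` -/
def w03 (A : ℕ) (q : ℤ × ℤ × ℤ) : ℤ := if (5 : ℤ) ∣ q.1 then 0 else w3 A q

/-- level `15`, `b = ± A` modulo `15` -/
def w0 (A : ℕ) (q : ℤ × ℤ × ℤ) : ℤ :=
  if (5 : ℤ) ∣ q.1 ∧ ((15 : ℤ) ∣ q.2.1 - A ∨ (15 : ℤ) ∣ q.2.1 + A) then w3 A q else 0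

/-- level `15`, mixed orientation -/
def w2 (A : ℕ) (q : ℤ × ℤ × ℤ) : ℤ :=
  if (5 : ℤ) ∣ q.1 ∧ ¬ ((15 : ℤ) ∣ q.2.1 - A ∨ (15 : ℤ) ∣ q.2.1 + A) then w3 A q else 0

open Classical in
/-- the number of forms changing sign between `∞` and `x / M`, weighted with `w` and the genus
character of `A` -/
def Fx (w : ℕ → ℤ × ℤ × ℤ → ℤ) (A : ℕ) (x M : ℤ) : ℤ := ∑ᶠ q : ℤ × ℤ × ℤ,
  if q.2.1 ^ 2 - 4 * q.1 * q.2.2 = (A : ℤ) ^ 2 ∧ 0 < q.1 ∧
    q.1 * x ^ 2 + q.2.1 * x * M + q.2.2 * M ^ 2 < 0 then w A q * gnE A q else 0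

/-- SYMii: one constant for the mixed orientation at the cusps of the class of `0` (compared with
the symbol `Fp` of discriminant `4`) and for `w03` at the cusps of the class of `∞` (compared with
`FA`) -/
def S_SYMii : Prop := ∀ A : ℕ, Aii A → ∃ κ : ℤ,
  (∀ x M : ℤ, 0 < M → IsCoprime x M → IsCoprime M 15 →
    Fx w2 A x M = κ * Pool.Agent.N969.P15.Fp x M) ∧
  (∀ x M : ℤ, 0 < M → IsCoprime x M → 15 ∣ M →
    Fx w03 A x M = κ * Pool.Agent.N973.P15.FA x M)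

/-- SYMio: the symbol for `5 ∣ A` at the cusps of the class of `1 / 3` -/
def S_SYMio : Prop := ∀ A : ℕ, Aio A → ∃ κ : ℤ,
  ∀ x M : ℤ, 0 < M → IsCoprime x M → 3 ∣ M → ¬ 5 ∣ M →
    2 * Fx w0 A x M - bdE A x M = - κ * Pool.Agent.N973.P15.FA x M

/-- LOW: there is no symbol of level `3` (cusps with denominator divisible by `3`) -/
def S_LOW : Prop := ∀ A : ℕ, Ps A → ¬ 3 ∣ A → ∀ x y M : ℤ, 0 < M → 3 ∣ M → M ∣ x * y - 1 →
  2 * Fx w3 A x M = bdE A x M + bdE A y M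

/-! ### the divisor sums -/

/-- the kernel symbols: left at the primes dividing `A`, right at the primes dividing `m` -/
def kr (A m a a' Y X : ℕ) : ℤ :=
  (∏ p ∈ A.primeFactors, if p = 2 then psl2 (A * m) a a' Y X else psl p a a' Y X) *
    ∏ p ∈ m.primeFactors, if p = 2 then psp2 (A * m) a a' Y X else psp p a a' Y X

/-- the divisor sum for `w0`; `n = A m = S + T`, form `(a x - X y) (a' x + Y y)` -/
def W0 (A m S T : ℕ) : ℤ := ∑ a ∈ S.divisors, ∑ a' ∈ T.divisors.filter (15 ∣ ·),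
  kr A m a a' (S / a) (T / a')

/-- the divisor sum for `w03` -/
def W03 (A m S T : ℕ) : ℤ := ∑ a ∈ S.divisors.filter (fun a => ¬ 5 ∣ a),
  ∑ a' ∈ T.divisors.filter (fun a' => 3 ∣ a' ∧ ¬ 5 ∣ a'), kr A m a a' (S / a) (T / a')

/-- the divisor sum for `w3` -/
def W3 (A m S T : ℕ) : ℤ := ∑ a ∈ S.divisors, ∑ a' ∈ T.divisors.filter (3 ∣ ·),
  kr A m a a' (S / a) (T / a')

/-- C1: the character sums of the crossing numbers (`n = A m`, `15 ∣ n`) -/
def S_C1 : Prop := ∀ A m : ℕ, Ps A → Ng m → Nat.Coprime A m → ¬ 3 ∣ A → 15 ∣ A * m →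
  (∑ u ∈ un m, chM m u * Fx w0 A u m =
    2 * ∑ T ∈ (range (A * m)).filter (fun T => 15 ∣ T), W0 A m (A * m - T) T) ∧
  (∑ u ∈ un m, chM m u * Fx w03 A u m =
    2 * ∑ T ∈ (range (A * m)).filter (fun T => 3 ∣ T), W03 A m (A * m - T) T) ∧
  (∑ u ∈ un m, chM m u * Fx w3 A u m =
    2 * ∑ T ∈ (range (A * m)).filter (fun T => 3 ∣ T), W3 A m (A * m - T) T)

/-- C2: evaluation of the divisor sums -/
def S_C2ii : Prop := ∀ A m : ℕ, Aii A → N15 m → Nat.Coprime A m → ∀ T : ℕ, 0 < T → T < A * m →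
  3 ∣ T → (5 ∣ T → W03 A m (A * m - T) T = 0) ∧
    (¬ 5 ∣ T → 2 * W03 A m (A * m - T) T = - (sg A (A * m) T * l3 (A * m) T))

def S_C2io : Prop := ∀ A m : ℕ, Aio A → N3 m → Nat.Coprime A m → ∀ T : ℕ, 0 < T → T < A * m →
  15 ∣ T → 2 * (W0 A m (A * m - T) T + W0 A m T (A * m - T)) =
    - (sg A (A * m) T * l3 (A * m) T)

def S_C2L : Prop := ∀ A m : ℕ, Ps A → Ng m → Nat.Coprime A m → ¬ 3 ∣ A → 15 ∣ A * m →
  ∀ T : ℕ, 0 < T → T < A * m → 3 ∣ T → W3 A m (A * m - T) T + W3 A m T (A * m - T) =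
    - (sg A (A * m) T * l3 (A * m) T)

/-! ### results -/

/-- KAPii (from SYMii, C1, C2ii, VANR, PC3, PCV, `S_DIAG15`, `S_DIAG15E`) -/
def S_KAPii : Prop := ∀ A : ℕ, Aii A → ∃ κ : ℤ,
  (∀ x M : ℤ, 0 < M → IsCoprime x M → IsCoprime M 15 →
    Fx w2 A x M = κ * Pool.Agent.N969.P15.Fp x M) ∧
  ∀ m : ℕ, N15 m → Nat.Coprime A m → 9 * P A (A * m) = - κ * Pool.Agent.N969.P15.cc m ^ 2

/-- KAPio (from SYMio, C1, C2io, CNF, PC3, PCV, `S_DIAG3`, `S_DIAG3E`) -/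
def S_KAPio : Prop := ∀ A : ℕ, Aio A → ∃ κ : ℤ,
  ∀ m : ℕ, N3 m → Nat.Coprime A m → 18 * P A (A * m) = - κ * Pool.Agent.N969.P15.cc m ^ 2

open Classical in
/-- PAR: integrality of the normalized square roots (from ORT, VAN, VANR, EIS, KAPii, KAPio, the
parity laws `S_PARA3`, `S_PARA5` of the negative discriminants and their even versions, by induction
on the number of primes), together with the relation which determines their parities -/
def S_PARn : Prop := ∃ y : ℕ → ℤ,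
  (∀ A : ℕ, Aii A → P A (15 * A) = (2 ^ (A.primeFactors.card + 1) * y A) ^ 2) ∧
  (∀ A : ℕ, Aio A → P A (3 * A) = (2 ^ A.primeFactors.card * y A) ^ 2) ∧
  ∀ n : ℕ, N15 n → ((Qc n ∧ ¬ 2 ∣ n) ∨ (Qe n ∧ 2 ∣ n) ↔
    Odd ((n.divisors.filter fun A => Nat.Coprime A (n / A) ∧
      ((Aii A ∧ N15 (n / A)) ∨ (Aio A ∧ N3 (n / A))) ∧ Odd (y A) ∧ ((Qc (n / A) ∧ ¬ 2 ∣ n / A) ∨ (Qe (n / A) ∧ 2 ∣ n / A))).card))

/-! ### the dual sums for the central value, `5 ∣ A` -/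

open Classical in
/-- the forms of discriminant `9`, first coefficient divisible by `9` and prime to `5` -/
def Fd (x M : ℤ) : ℤ := ∑ᶠ q : ℤ × ℤ × ℤ,
  if q.2.1 ^ 2 - 4 * q.1 * q.2.2 = 9 ∧ (9 : ℤ) ∣ q.1 ∧ ¬ (5 : ℤ) ∣ q.1 ∧ 0 < q.1 ∧
    q.1 * x ^ 2 + q.2.1 * x * M + q.2.2 * M ^ 2 < 0 then jacobiSym q.2.2 3 else 0

/-- the divisor sum -/
def WD (A S T : ℕ) : ℤ := ∑ a ∈ S.divisors.filter (fun a => 3 ∣ a ∧ ¬ 5 ∣ a),
  ∑ a' ∈ T.divisors.filter (fun a' => 3 ∣ a' ∧ ¬ 5 ∣ a'), kr 3 A a a' (S / a) (T / a')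

/-- C1D (each form corresponds to two factorizations) -/
def S_C1D : Prop := ∀ A : ℕ, Ps A → ¬ 3 ∣ A →
  ∑ u ∈ un A, chP A u * Fd u A =
    ∑ T ∈ (range (3 * A)).filter (fun T => 3 ∣ T), WD A (3 * A - T) T

/-- C2D, `5 ∣ A` -/
def S_C2D : Prop := ∀ A : ℕ, Aio A → ∀ T : ℕ, 0 < T → T < 3 * A → 3 ∣ T →
  (5 ∣ T → WD A (3 * A - T) T = 0) ∧
    (¬ 5 ∣ T → 2 * WD A (3 * A - T) T = - (sg A (3 * A) T * l3 (3 * A) T))

/-- DUAL: the dual sum is `P` (from C1D, C2D, PC3, PCV, VANR) -/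
def S_DUAL : Prop := ∀ A : ℕ, Aio A → 2 * ∑ u ∈ un A, chP A u * Fd u A = P A (3 * A)

end

end Pool.Agent.N973.P15G
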