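import Mathlib
import Pool.Agent.N973.P15G.Defs
import Pool.Agent.N969.RQ.Defs3

/-!
# Project P15G, second part

* the central value for the class `(+;-1,-1)`: an auxiliary prime `l` of the class `(-;1,-1)`; no
  lattice is needed, the two divisor sums are equal;
* the class `(-;-1,1)` of negative discriminants (`3` inert, `5` split): the vectors of `V` with
  orientations at `3` and `5`; `A` in `(+;-1,-1)` and `(+;1,1)`.

Odd and even discriminants at the same time; all statements are verified numerically.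
-/

set_option autoImplicit false

namespace Pool.Agent.N973.P15G

open Finset
open Pool.Agent.Z700 (hh fac)
open Pool.Agent.N969.P15 (V3 tw tb ep2 un psp psp2 c2 Ev Qc Qe WW WWe Fp)
open Pool.Agent.N877.P21 (ip vec rr cp loc locE)
open Pool.Agent.N969.P17G (sgn sgnE gen gnE psl psl2 chP chM bdE)

noncomputable section

/-! ### classes -/

/-- `-m < 0`, `3` split and `5` inert -/
def Nsi (m : ℕ) : Prop := Ng m ∧ m % 3 = 2 ∧ (m % 5 = 2 ∨ m % 5 = 3)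

/-- `-n < 0`, `3` inert and `5` split -/
def Nis (n : ℕ) : Prop := Ng n ∧ n % 3 = 1 ∧ (n % 5 = 1 ∨ n % 5 = 4)

/-- `A > 1`, `3` and `5` split -/
def Ass (A : ℕ) : Prop := Ps A ∧ A % 3 = 1 ∧ (A % 5 = 1 ∨ A % 5 = 4)

/-- the class number criterion -/
def QQ (n : ℕ) : Prop := (Qc n ∧ ¬ 2 ∣ n) ∨ (Qe n ∧ 2 ∣ n)

/-- the sign at `2` -/
def e2 (n : ℕ) : ℤ := if 2 ∣ n then 0 else ep2 n

open Classical in
/-- the unitary divisors `A` of `n` with `A = 1` or `A > 0`, `- n / A < 0` discriminants -/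
def pA (n : ℕ) : Finset ℕ :=
  n.divisors.filter fun A => Nat.Coprime A (n / A) ∧ (A = 1 ∨ Ps A) ∧ Ng (n / A)

/-! ### local densities (ramified at `3`) -/

/-- the local densities; `b` is the inner product (used for even `n`) -/
def l1 (n : ℕ) (b : ℤ) (D : ℕ) : ℤ := if Odd (D.factorization 3) then
  (if 2 ∣ n then tb b else tw n D) * ∏ l ∈ (D.primeFactors.erase 2).erase 3, fac n D l else 0

/-- with the number of common lines modulo `5` -/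
def l5 (n : ℕ) (b : ℤ) (D : ℕ) : ℤ := if Odd (D.factorization 3) then
  (D.factorization 5 : ℤ) * ((if 2 ∣ n then tb b else tw n D) *
    ∏ l ∈ ((D.primeFactors.erase 2).erase 3).erase 5, fac n D l) else 0

/-- PCV5: the number of pairs of vectors of `V` with given inner product, `3` inert and `5` split -/
def S_PCV5 : Prop := ∀ (n1 n2 : ℕ) (b : ℤ) (D : ℕ), Nis n1 → (2 ∣ n1 → 4 ∣ n2) →
  (n2 % 5 = 1 ∨ n2 % 5 = 4) → 0 < D → 5 ∣ D → (D : ℤ) = n1 * n2 - b ^ 2 →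
  (cpV n1 b n2 : ℤ) = 4 * l5 n1 b D

/-! ### `3` and `5` inert: two divisor sums -/

/-- the divisor sum for `w2` -/
def W2 (A m S T : ℕ) : ℤ := ∑ a ∈ S.divisors.filter (5 ∣ ·),
  ∑ a' ∈ T.divisors.filter (3 ∣ ·), kr A m a a' (S / a) (T / a')

/-- C1M: the character sums of the crossing numbers with mixed orientation -/
def S_C1M : Prop := ∀ A m : ℕ, Ps A → Ng m → Nat.Coprime A m → Nat.Coprime (A * m) 15 →
  ∑ u ∈ un m, chM m u * Fx w2 A u m =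
    2 * ∑ T ∈ (range (A * m)).filter (fun T => 3 ∣ T ∧ 5 ∣ A * m - T), W2 A m (A * m - T) T

/-- C2M: evaluation of the divisor sums -/
def S_C2M : Prop := ∀ A m : ℕ, ((Aii A ∧ Nsi m) ∨ (Ass A ∧ Nis m)) → Nat.Coprime A m →
  ∀ T : ℕ, 0 < T → T < A * m → 3 ∣ T → 5 ∣ A * m - T →
  W2 A m (A * m - T) T =
    - (sg A (A * m) T * l5 (A * m) (2 * T - (A * m : ℕ)) (4 * (A * m - T) * T))

/-- C2MD: the dual divisor sum for `Aii` (`RQ.WD` is the sum of `RQ.S_C1D`, proved as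
`N974.RQ.t_C1D`) -/
def S_C2MD : Prop := ∀ A l : ℕ, Aii A → Nat.Prime l → N969.P15.Cls0 l → ¬ l ∣ A →
  ∀ T : ℕ, 0 < T → T < A * l → 3 ∣ T → 5 ∣ A * l - T →
  N969.RQ.WD 5 3 A l (A * l - T) T = W2 A l (A * l - T) T

/-- C2MS: the dual divisor sum for `Ass` -/
def S_C2MS : Prop := ∀ A l : ℕ, Ass A → Nat.Prime l → N969.P15.Cls0 l → ¬ l ∣ A →
  ∀ T : ℕ, 0 < T → T < A * l → 3 ∣ T → 5 ∣ A * l - T →
  N969.RQ.WD 3 5 A l T (A * l - T) = - W2 A l (A * l - T) T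

/-- SYM for `Ass` (for `Aii` see `S_SYMii`) -/
def S_SYMss : Prop := ∀ A : ℕ, Ass A → ∃ κ : ℤ, ∀ x M : ℤ, 0 < M → IsCoprime x M →
  IsCoprime M 15 → Fx w2 A x M = κ * Fp x M

/-- NVii: from the signed number of pairs to the sum over the cusps `u / A` (from KAPii, C1M, C2MD,
`t_C1D`, `S_DIAG`, `S_PAR`) -/
def S_NVii : Prop := ∀ A : ℕ, Aii A → P A (15 * A) ≠ 0 → ∃ l : ℕ, Nat.Prime l ∧
  N969.P15.Cls0 l ∧ ¬ l ∣ A ∧ ∑ u ∈ un A, chP A u * N969.RQ.Fl 5 3 l u A ≠ 0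

/-- RQs (from the chain of `RQ`: `R A = 0`, `Z A = - 4 J cc`): the constant of `Ass` -/
def S_RQs : Prop := ∀ A : ℕ, Ass A → ∃ l : ℕ, Nat.Prime l ∧ N969.P15.Cls0 l ∧ ¬ l ∣ A ∧
  9 * ∑ u ∈ un A, chP A u * N969.RQ.Fl 3 5 l u A =
    - (2 * (N969.RQ.J 15 N969.RQ.o5 A 1 1 3 ^ 2 * N969.P15.cc l ^ 2))

/-- KAPss (from SYMss, C1M, C2MS, `t_C1D`, `S_DIAG`, `S_PAR`, RQs): the constant is `4 J²` -/
def S_KAPss : Prop := ∀ A : ℕ, Ass A → ∀ x M : ℤ, 0 < M → IsCoprime x M →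
  IsCoprime M 15 → Fx w2 A x M = 4 * N969.RQ.J 15 N969.RQ.o5 A 1 1 3 ^ 2 * Fp x M

/-! ### `3` inert and `5` split: the Gross sum -/

/-- the orientation: `1`, `2` against `4`, `7` modulo `15` -/
def s15 (t : ℤ) : ℤ := if t % 15 = 1 ∨ t % 15 = 2 ∨ t % 15 = 13 ∨ t % 15 = 14 then 1
  else if t % 15 = 4 ∨ t % 15 = 7 ∨ t % 15 = 8 ∨ t % 15 = 11 then -1 else 0

/-- the Gross sum -/
def ce (n : ℤ) : ℤ := ∑ v ∈ V n, s15 (v 1 - v 2)

/-- the oriented signed number of pairs -/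
def Q (A n : ℕ) : ℤ := ∑ v ∈ V n, ∑ w ∈ V n,
  s15 (v 1 - v 2) * s15 (w 1 - w 2) * sg A n ((n + ip v w) / 2)

/-- VR: `S₃` and the rotation of norm `3` permute the six isotropic lines transitively, every vector
has two eigenlines -/
def S_VR : Prop := ∀ n : ℕ, Nis n → 3 * ((V n).card : ℤ) = rr n

/-- HE4: the Hecke operator at `2` -/
def S_HE4 : Prop := ∀ n : ℕ, Nis n → ((V (4 * n)).card : ℤ) = (3 - e2 n) * (V n).card ∧
  (if n % 15 = 1 then 1 else -1) * ce (4 * n) = -(1 + e2 n) * ce n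

/-- BIL4 (inner products of two vectors of `V` are the products of `v 1 - v 2` and `w 1 - w 2`
modulo `15`; PCV5), determinant `n` -/
def S_BIL4 : Prop := ∀ n : ℕ, Nis n →
  16 * ∑ T ∈ (range n).filter (fun T => 5 ∣ T ∧ 3 ∣ n - T), l5 n (2 * T - (n : ℕ)) (4 * (n - T) * T)
    = ((V n).card : ℤ) ^ 2 - ce n ^ 2

/-- BIL4, determinant `2 n` -/
def S_BIL42 : Prop := ∀ n : ℕ, Nis n →
  16 * ∑ T ∈ (range (2 * n)).filter (fun T => 5 ∣ T ∧ 3 ∣ 2 * n - T),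
    l5 n (2 * T - (2 * n : ℕ)) (4 * (2 * n - T) * T) =
  ((V (4 * n)).card : ℤ) * (V n).card - (if n % 15 = 1 then 1 else -1) * ce (4 * n) * ce n

/-- BIL4G: with the signs of `A` -/
def S_BIL4G : Prop := ∀ n A : ℕ, Nis n → A ∈ pA n →
  16 * ∑ T ∈ (range n).filter (fun T => 3 ∣ T ∧ 5 ∣ n - T),
    sg A n T * l5 n (2 * T - (n : ℕ)) (4 * (n - T) * T) = P A n - Q A n

/-- the divisor sums of `N969.P15`, odd or even -/
def W4 (n N : ℕ) : ℤ := ∑ T ∈ (range N).filter (fun T => 5 ∣ T ∧ 3 ∣ N - T),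
  if 2 ∣ n then WWe n (N - T) T else WW n (N - T) T

/-- C1A4 (as `N969.P15.S_C1A`, `S_C1AE` with `S_C1B`, `S_C1BE`; any residue class prime to `15`) -/
def S_C1A4 : Prop := ∀ n : ℕ, Ng n → Nat.Coprime n 15 →
  ∑ u ∈ un n, chM n u * Fp u n = 2 * (W4 n (2 * n) - 3 * W4 n n)

/-- C2W4: evaluation, determinant `n` and `2 n` -/
def S_C2W4 : Prop := ∀ n : ℕ, Nis n → ∀ k : ℕ, (k = 1 ∨ k = 2) → ∀ T : ℕ, 0 < T → T < k * n →
  5 ∣ T → 3 ∣ k * n - T →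
  (if 2 ∣ n then WWe n (k * n - T) T else WW n (k * n - T) T) =
    l5 n (2 * T - (k * n : ℕ)) (4 * (k * n - T) * T) +
      if k = 2 ∧ 2 ∣ T ∧ ¬ 2 ∣ n then ep2 n * l5 n 0 ((k * n - T) * T) else 0

/-- DIAG4 (from C1A4, C2W4, BIL4, BIL42, HE4) -/
def S_DIAG4 : Prop := ∀ n : ℕ, Nis n → 2 * ∑ u ∈ un n, chM n u * Fp u n = ce n ^ 2

/-! ### orthogonality and vanishing -/

/-- ORT4 (the characters on the vectors with `v 1 - v 2` congruent to `1` or `2`, resp. to `4` or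
`7`; the unit `(x, y, z) ↦ (-x, -z, -y)` acts freely) -/
def S_ORT4 : Prop := ∀ n : ℕ, Nis n → 4 < n → ∃ x z : ℕ → ℤ,
  (∀ A ∈ pA n, P A n = x A ^ 2 ∧ Q A n = z A ^ 2) ∧ x 1 = (V n).card ∧ z 1 = ce n ∧
  (2 : ℤ) ^ (n.primeFactors.card + 2) ∣ ∑ A ∈ pA n, (x A + z A)

/-- VAN4: the rotation about `(1,1,1)` of norm `15` (see `S_VAN`); the sums `Q` vanish if
`χ₃(A) = -1` (the two eigenlines of a vector have opposite orientations at `5`); the comparison with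
the large lattice -/
def S_VAN4 : Prop := ∀ n A : ℕ, Nis n → A ∈ pA n → A ≠ 1 →
  (jacobiSym A 15 = -1 → P A n = 0 ∧ Q A n = 0) ∧
  (A % 3 = 2 → Q A n = 0) ∧
  (A % 3 = 1 → RR A n = 9 * P A n)

/-- VANX: a strengthening of `S_VAN` (`A` or `n / A` has the wrong sign) -/
def S_VANX : Prop := ∀ n A : ℕ, N15 n → Ud n A → ¬ 3 ∣ A → A ≠ 1 → (¬ Ps A ∨ ¬ Ng (n / A)) →
  P A n = 0

/-! ### the Eisenstein part -/

/-- LOW0: there is no symbol of level `3` (cusps with denominator prime to `3`) -/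
def S_LOW0 : Prop := ∀ A : ℕ, Ps A → ¬ 3 ∣ A → ∀ x c M : ℤ, 0 < M → M ∣ 3 * x * c + 1 →
  2 * Fx w3 A x M = bdE A x M + jacobiSym A 3 * bdE A c M

/-- C1L4 -/
def S_C1L4 : Prop := ∀ A m : ℕ, Ps A → Ng m → Nat.Coprime A m → Nat.Coprime (A * m) 3 →
  ∑ u ∈ un m, chM m u * Fx w3 A u m =
    2 * ∑ T ∈ (range (A * m)).filter (fun T => 3 ∣ T), W3 A m (A * m - T) T

/-- C2L4 -/
def S_C2L4 : Prop := ∀ A m : ℕ, Ass A → Nis m → Nat.Coprime A m → ∀ T : ℕ, 0 < T → T < A * m →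
  3 ∣ T → W3 A m (A * m - T) T =
    - (sg A (A * m) T * l1 (A * m) (2 * T - (A * m : ℕ)) (4 * (A * m - T) * T))

/-- CNF4 -/
def S_CNF4 : Prop := ∀ A m : ℕ, Ass A → Nis m → Nat.Coprime A m →
  6 * ∑ u ∈ un m, chM m u * bdE A u m = rr (A * m : ℕ)

/-- EIS4 (from LOW0, C1L4, C2L4, CNF4, `N877.P21.S_PC`, `S_PCE`) -/
def S_EIS4 : Prop := ∀ A m : ℕ, Ass A → Nis m → Nat.Coprime A m → RR A (A * m) = 0

/-! ### results for `(-;-1,1)` -/

/-- K4: the values of the signed numbers of pairs (from C1M, C2M, BIL4G, VAN4, EIS4, KAPii, KAPss,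
`S_DIAG`, `S_DIAGE`, DIAG4) -/
def S_K4 : Prop :=
  (∀ A : ℕ, Aii A → ∃ κ : ℤ, (∀ m : ℕ, N15 m → Nat.Coprime A m →
      9 * P A (A * m) = - κ * N969.P15.cc m ^ 2) ∧
    ∀ m : ℕ, Nsi m → Nat.Coprime A m → 9 * P A (A * m) = - (4 * κ * N969.P15.cc m ^ 2)) ∧
  ∀ A m : ℕ, Ass A → Nis m → Nat.Coprime A m →
    Q A (A * m) = (4 * N969.RQ.J 15 N969.RQ.o5 A 1 1 3 * ce m) ^ 2

open Classical in
/-- PAR4: the parity of the Gross sum; `y` as in `S_PARn`, `z` the normalized crossing numbers of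
`RQ` -/
def S_PAR4 : Prop := ∀ y z : ℕ → ℤ,
  (∀ A : ℕ, Aii A → P A (15 * A) = (2 ^ (A.primeFactors.card + 1) * y A) ^ 2) →
  (∀ A : ℕ, Ass A → 2 * N969.RQ.J 15 N969.RQ.o5 A 1 1 3 = 2 ^ A.primeFactors.card * z A) →
  ∀ n : ℕ, Nis n → 4 < n → ∃ c : ℤ, ce n = 2 ^ (n.primeFactors.card + 1) * c ∧
    (Odd c ↔ Odd ((if QQ n then 1 else 0) +
      (n.divisors.filter fun A => Nat.Coprime A (n / A) ∧ Aii A ∧ Nsi (n / A) ∧
        Odd (y A) ∧ QQ (n / A)).card +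
      if n % 8 = 4 ∧ Ass (n / 4) ∧ Odd (z (n / 4)) then 1 else 0))

end

end Pool.Agent.N973.P15G
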