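import Pool.Agent.N973.P15G.Lines
import Pool.Agent.N975.PG.Gn

/-!
# P15G: the values of the signed numbers of pairs
-/

set_option autoImplicit false

namespace Pool.Agent.N973.P15G

open Finset
open Pool.Agent.N969.P15 (V3 Ev tw tb un c2 chE)
open Pool.Agent.N877.P21 (ip vec rr cp loc locE loc3 loc3E)
open Pool.Agent.N218.P21 (mem_vec cs)
open Pool.Agent.N969.P17G (sgn sgnE sgp sg2 t2 gen gnE chP chM bdE)

/-! ### grouping by the inner product -/

theorem ip_par {n : ℕ} {v w : V3} (hv : ip v v = n) (hw : ip w w = n) : 2 ∣ (n : ℤ) + ip v w := by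
  have h1 : ip v v = 3 * (v 0 * v 0) + 2 * (2 * (v 1 * v 1) + 2 * (v 2 * v 2) + 2 * (v 1 * v 2)) := by
    unfold ip; ring
  have h2 : ip w w = 3 * (w 0 * w 0) + 2 * (2 * (w 1 * w 1) + 2 * (w 2 * w 2) + 2 * (w 1 * w 2)) := by
    unfold ip; ring
  have h3 : ip v w = 3 * (v 0 * w 0) + 2 * (2 * (v 1 * w 1) + 2 * (v 2 * w 2) +
      (v 1 * w 2 + v 2 * w 1)) := by
    unfold ip; ring
  rw [h1] at hv
  rw [h2] at hw
  rw [h3]
  generalize (2 * (v 1 * v 1) + 2 * (v 2 * v 2) + 2 * (v 1 * v 2)) = a at hv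
  generalize (2 * (w 1 * w 1) + 2 * (w 2 * w 2) + 2 * (w 1 * w 2)) = b at hw
  generalize (2 * (v 1 * w 1) + 2 * (v 2 * w 2) + (v 1 * w 2 + v 2 * w 1)) = c
  rcases Int.even_or_odd' (v 0) with ⟨x, hx | hx⟩
  · rcases Int.even_or_odd' (w 0) with ⟨y, hy | hy⟩
    · rw [hx] at hv ⊢
      refine ⟨6 * (x * x) + a + 3 * (x * w 0) + c, ?_⟩
      rw [← hv]; ring
    · rw [hx] at hv ⊢
      refine ⟨3 * (2 * (x * x)) + a + 3 * (x * w 0) + c, ?_⟩
      rw [← hv]; ring
  · rcases Int.even_or_odd' (w 0) with ⟨y, hy | hy⟩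
    · rw [hy] at hw ⊢
      refine ⟨3 * (2 * (y * y)) + b + 3 * (v 0 * y) + c, ?_⟩
      rw [← hw]; ring
    · rw [hx] at hv ⊢
      rw [hy]
      refine ⟨3 * (2 * (x * x) + 2 * x) + a + 3 * (2 * (x * y) + x + y) + c + 3, ?_⟩
      rw [← hv]; ring

theorem ip_bd {n : ℕ} {v w : V3} (hv : ip v v = n) (hw : ip w w = n) :
    -(n : ℤ) ≤ ip v w ∧ ip v w ≤ n := by
  have h := cs v w
  rw [hv, hw] at h
  have h2 : ip v w ^ 2 ≤ (n : ℤ) ^ 2 := by rw [pow_two (n : ℤ)]; exact h
  exact abs_le.1 (abs_le_of_sq_le_sq h2 (by positivity))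

theorem grp (n : ℕ) (S : Finset V3) (hS : ∀ v ∈ S, ip v v = n) (f : ℤ → ℤ) :
    ∑ v ∈ S, ∑ w ∈ S, f ((n + ip v w) / 2) = ∑ T ∈ range (n + 1),
      f T * (((S ×ˢ S).filter fun q => ip q.1 q.2 = 2 * T - n).card : ℤ) := by
  have h1 : ∀ v ∈ S, ∀ w ∈ S, f ((n + ip v w) / 2) = ∑ T ∈ range (n + 1),
      if ip v w = 2 * (T : ℤ) - n then f T else 0 := by
    intro v hv w hw
    obtain ⟨k, hk⟩ := ip_par (hS v hv) (hS w hw)
    obtain ⟨b1, b2⟩ := ip_bd (hS v hv) (hS w hw)
    obtain ⟨t, rfl⟩ := Int.eq_ofNat_of_zero_le (show 0 ≤ k by omega)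
    rw [Finset.sum_eq_single t]
    · rw [if_pos (by omega)]
      congr 1
      omega
    · intro T _ hT
      rw [if_neg]
      intro h
      apply hT
      omega
    · intro h
      exfalso
      apply h
      rw [Finset.mem_range]
      omega
  rw [Finset.sum_congr rfl fun v hv => Finset.sum_congr rfl fun w hw => h1 v hv w hw]
  have h2 : ∀ v ∈ S, ∑ w ∈ S, ∑ T ∈ range (n + 1), (if ip v w = 2 * (T : ℤ) - n then f T else 0) =
      ∑ T ∈ range (n + 1), ∑ w ∈ S, (if ip v w = 2 * (T : ℤ) - n then f T else 0) := by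
    intro v _
    exact Finset.sum_comm
  rw [Finset.sum_congr rfl h2, Finset.sum_comm]
  refine Finset.sum_congr rfl fun T _ => ?_
  rw [Finset.card_eq_sum_ones, Finset.sum_filter, Finset.sum_product]
  push_cast
  rw [Finset.mul_sum]
  refine Finset.sum_congr rfl fun v _ => ?_
  rw [Finset.mul_sum]
  refine Finset.sum_congr rfl fun w _ => ?_
  split_ifs <;> simp

theorem P_grp (A n : ℕ) : P A n = ∑ T ∈ range (n + 1), sg A n T * (cpV n (2 * T - n) n : ℤ) := by
  unfold P cpV
  exact grp n (V n) (fun v hv => mem_vec.1 (Finset.mem_filter.1 hv).1) (fun T => sg A n T)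

theorem RR_grp (A n : ℕ) : RR A n = ∑ T ∈ range (n + 1), sg A n T * (cp n (2 * T - n) n : ℤ) := by
  unfold RR cp
  exact grp n (vec n) (fun v hv => mem_vec.1 hv) (fun T => sg A n T)

/-! ### the pairs with inner product `± n` -/

theorem ip_pos_def {v : V3} (h : ip v v = 0) : v = 0 := by
  have h1 := fun i => Pool.Agent.N218.P21.sq_le_ip v i
  rw [h] at h1
  funext i
  have := h1 i
  have h2 : v i ^ 2 = 0 := le_antisymm this (sq_nonneg _)
  simpa using h2

theorem cp_top (n : ℕ) : (cp n (2 * (n : ℤ) - n) n : ℤ) = rr n := by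
  unfold cp rr
  congr 1
  refine Finset.card_nbij' (fun q => q.1) (fun v => (v, v)) ?_ ?_ ?_ ?_
  · rintro ⟨v, w⟩ h
    simp only [Finset.coe_filter, Set.mem_ofPred_eq, Finset.mem_product] at h
    exact h.1.1
  · intro v h
    simp only [Finset.coe_filter, Set.mem_ofPred_eq, Finset.mem_product]
    refine ⟨⟨h, h⟩, ?_⟩
    rw [mem_vec.1 h]
    ring
  · rintro ⟨v, w⟩ h
    simp only [Finset.coe_filter, Set.mem_ofPred_eq, Finset.mem_product] at h
    obtain ⟨⟨h1, h2⟩, h3⟩ := h
    rw [mem_vec] at h1 h2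
    have h4 : ip (v - w) (v - w) = 0 := by
      have : ip (v - w) (v - w) = ip v v + ip w w - 2 * ip v w := by
        unfold ip; simp only [Pi.sub_apply]; ring
      rw [this, h1, h2, h3]
      ring
    have h5 := ip_pos_def h4
    rw [sub_eq_zero] at h5
    show (v, v) = (v, w)
    rw [← h5]
  · intro v _
    rfl

theorem cp_bot (n : ℕ) : (cp n (2 * (0 : ℤ) - n) n : ℤ) = rr n := by
  unfold cp rr
  congr 1
  refine Finset.card_nbij' (fun q => q.1) (fun v => (v, -v)) ?_ ?_ ?_ ?_
  · rintro ⟨v, w⟩ h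
    simp only [Finset.coe_filter, Set.mem_ofPred_eq, Finset.mem_product] at h
    exact h.1.1
  · intro v h
    simp only [Finset.coe_filter, Set.mem_ofPred_eq, Finset.mem_product]
    have h1 := mem_vec.1 h
    refine ⟨⟨h, ?_⟩, ?_⟩
    · rw [mem_vec, ← h1]
      unfold ip; simp only [Pi.neg_apply]; ring
    · have : ip v (-v) = - ip v v := by
        unfold ip; simp only [Pi.neg_apply]; ring
      rw [this, h1]
      ring
  · rintro ⟨v, w⟩ h
    simp only [Finset.coe_filter, Set.mem_ofPred_eq, Finset.mem_product] at h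
    obtain ⟨⟨h1, h2⟩, h3⟩ := h
    rw [mem_vec] at h1 h2
    have h4 : ip (v + w) (v + w) = 0 := by
      have : ip (v + w) (v + w) = ip v v + ip w w + 2 * ip v w := by
        unfold ip; simp only [Pi.add_apply]; ring
      rw [this, h1, h2, h3]
      ring
    have h5 := ip_pos_def h4
    have h6 : -v = w := by rw [eq_comm]; exact eq_neg_of_add_eq_zero_right h5
    show (v, -v) = (v, w)
    rw [h6]
  · intro v _
    rfl

/-! ### discriminants -/

theorem Ng_pos {n : ℕ} (h : Ng n) : 0 < n := by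
  rcases h with ⟨h, -⟩ | ⟨m, rfl, h, -⟩
  · exact Nat.pos_of_ne_zero h.ne_zero
  · exact Nat.mul_pos (by norm_num) (Nat.pos_of_ne_zero h.ne_zero)

theorem Ng_mul {A m : ℕ} (hA : Ps A) (hm : Ng m) (hc : Nat.Coprime A m) : Ng (A * m) := by
  rcases hA with ⟨hs, h4, -⟩ | ⟨M, rfl, hs, h4⟩
  · rcases hm with ⟨hs', h4'⟩ | ⟨m', rfl, hs', h4'⟩
    · left
      refine ⟨(Nat.squarefree_mul hc).2 ⟨hs, hs'⟩, ?_⟩
      rw [Nat.mul_mod, h4, h4']
    · right
      refine ⟨A * m', by ring, (Nat.squarefree_mul (Nat.Coprime.coprime_mul_left_right hc)).2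
        ⟨hs, hs'⟩, ?_⟩
      rcases h4' with h | h
      · left; rw [Nat.mul_mod, h4, h]
      · right; rw [Nat.mul_mod, h4, h]
  · rcases hm with ⟨hs', h4'⟩ | ⟨m', rfl, hs', h4'⟩
    · right
      refine ⟨M * m, by ring, (Nat.squarefree_mul (Nat.Coprime.coprime_mul_left hc)).2
        ⟨hs, hs'⟩, ?_⟩
      rcases h4 with h | h
      · right; rw [Nat.mul_mod, h, h4']
      · left; rw [Nat.mul_mod, h, h4']
    · exfalso
      have := Nat.dvd_gcd (dvd_mul_right 4 M) (dvd_mul_right 4 m')
      rw [hc] at this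
      omega

/-- the sign for `T = n` -/
theorem sg_top {A n : ℕ} (hn : Ng n) (hA : A ∣ n) : sg A n n = 1 := by
  have hp : ∀ p ∈ A.primeFactors, p ≠ 2 → sgp 1 n p n = 1 := by
    intro p hp h2
    have hpp := Nat.prime_of_mem_primeFactors hp
    have hpn : p ∣ n := dvd_trans (Nat.dvd_of_mem_primeFactors hp) hA
    have hpn2 : ¬ p ∣ n / p := by
      intro h
      have h3 : p * p ∣ n := (Nat.dvd_div_iff_mul_dvd hpn).1 h
      rcases hn with ⟨hs, -⟩ | ⟨m, rfl, hs, -⟩
      · exact hpp.one_lt.ne' (Nat.isUnit_iff.1 (hs p h3))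
      · have h5 : Nat.Coprime (p * p) 4 := by
          have : Nat.Coprime p 2 := (Nat.coprime_primes hpp Nat.prime_two).2 h2
          have h6 : Nat.Coprime p 4 := by
            have := Nat.Coprime.pow_right 2 this
            norm_num at this
            exact this
          exact Nat.Coprime.mul_left h6 h6
        exact hpp.one_lt.ne' (Nat.isUnit_iff.1 (hs p (h5.dvd_of_dvd_mul_left h3)))
    unfold sgp
    have e : (n : ℤ) / p = ((n / p : ℕ) : ℤ) := by push_cast; rfl
    rw [if_pos (by exact_mod_cast hpn), e, if_neg (by exact_mod_cast hpn2), ← pow_two]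
    apply jacobiSym.sq_one'
    rw [Int.gcd_comm]
    have := (Nat.Prime.coprime_iff_not_dvd hpp).2 hpn2
    exact_mod_cast this
  unfold sg
  rcases hn with ⟨hs, h4⟩ | ⟨m, rfl, hs, h4⟩
  · rw [if_neg (by omega)]
    unfold sgn
    refine Finset.prod_eq_one fun p hp' => hp p hp' ?_
    rintro rfl
    have := dvd_trans (Nat.dvd_of_mem_primeFactors hp') hA
    omega
  · rw [if_pos (by omega)]
    unfold sgnE
    refine Finset.prod_eq_one fun p hp' => ?_
    by_cases h2 : p = 2
    · rw [if_pos h2]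
      have hm0 : (4 * m : ℕ) ≠ 0 := by omega
      unfold sg2
      rw [if_neg (by exact_mod_cast hm0)]
      rcases h4 with h4 | h4
      · have e1 : padicValInt 2 ((4 * m : ℕ) : ℤ) = 2 := by
          unfold padicValInt
          rw [Int.natAbs_natCast, padicValNat.mul (by norm_num) (by omega)]
          have h5 : padicValNat 2 4 = 2 := by
            have : (4 : ℕ) = 2 ^ 2 := by norm_num
            rw [this, padicValNat.prime_pow]
          have h6 : padicValNat 2 m = 0 := padicValNat.eq_zero_of_not_dvd (by omega)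
          rw [h5, h6]
        rw [e1]
        have e2 : ((4 * m : ℕ) : ℤ) / 2 ^ 2 = m := by
          push_cast
          norm_num
        rw [e2]
        unfold c2 t2
        rw [if_neg (by omega), if_pos (by omega), if_pos (by omega), if_pos (by omega)]
        split_ifs <;> norm_num
      · obtain ⟨k, rfl⟩ : 2 ∣ m := by omega
        have e1 : padicValInt 2 ((4 * (2 * k) : ℕ) : ℤ) = 3 := by
          unfold padicValInt
          rw [Int.natAbs_natCast, show 4 * (2 * k) = 8 * k by ring,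
            padicValNat.mul (by norm_num) (by omega)]
          have h5 : padicValNat 2 8 = 3 := by
            have : (8 : ℕ) = 2 ^ 3 := by norm_num
            rw [this, padicValNat.prime_pow]
          have h6 : padicValNat 2 k = 0 := padicValNat.eq_zero_of_not_dvd (by omega)
          rw [h5, h6]
        rw [e1]
        have e2 : ((4 * (2 * k) : ℕ) : ℤ) / 2 ^ 3 = k := by
          push_cast
          omega
        have e3 : 4 * (2 * k) / 8 = k := by omega
        rw [e2]
        have f1 : ¬ (k : ℤ) % 2 = 0 := by omega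
        have f2 : ¬ (4 * (2 * k)) % 16 = 4 := by omega
        have f3 : ¬ (4 * (2 * k)) % 8 = 4 := by omega
        unfold c2 t2
        rw [if_neg f1, if_neg f2, if_neg f3, e3]
        have hk : k % 8 = 1 ∨ k % 8 = 3 ∨ k % 8 = 5 ∨ k % 8 = 7 := by omega
        have c1 : (4 * (2 * k)) % 32 = 8 ↔ k % 4 = 1 := by omega
        simp only [c1]
        rcases hk with h | h | h | h
        · rw [if_pos (by omega), if_pos (by omega), if_pos (by omega)]; norm_num
        · rw [if_neg (by omega), if_neg (by omega), if_neg (by omega)]; norm_num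
        · rw [if_pos (by omega), if_neg (by omega), if_neg (by omega)]; norm_num
        · rw [if_neg (by omega), if_pos (by omega), if_pos (by omega)]; norm_num
    · rw [if_neg h2]
      exact hp p hp' h2

/-- the sign for `T = 0` -/
theorem sg_zero {A m : ℕ} (hA : Ps A) (hm : Ng m) (hc : Nat.Coprime A m) : sg A (A * m) 0 = 1 := by
  have hp : ∀ p ∈ A.primeFactors, sgp 1 (A * m) p 0 = jacobiSym (-1) p := by
    intro p hp
    unfold sgp
    simp
  have hjp : ∀ B : ℕ, Squarefree B → ∏ p ∈ B.primeFactors, jacobiSym (-1) p = jacobiSym (-1) B :=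
    fun B hB => Pool.Agent.N975.PG.jac_prod (-1) hB
  unfold sg
  rcases hA with ⟨hs, h4, -⟩ | ⟨M, rfl, hs, h4⟩
  · have key : ∏ p ∈ A.primeFactors, sgp 1 (A * m) p 0 = 1 := by
      rw [Finset.prod_congr rfl hp, hjp A hs, jacobiSym.at_neg_one (Nat.odd_iff.2 (by omega)),
        ZMod.χ₄_nat_one_mod_four h4]
    split_ifs with h2
    · unfold sgnE
      rw [← key]
      refine Finset.prod_congr rfl fun p hp' => ?_
      rw [if_neg]
      rintro rfl
      have := Nat.dvd_of_mem_primeFactors hp'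
      omega
    · exact key
  · have hm4 : m % 4 = 3 := by
      rcases hm with ⟨-, h⟩ | ⟨m', rfl, -⟩
      · exact h
      · exfalso
        have := Nat.dvd_gcd (dvd_mul_right 4 M) (dvd_mul_right 4 m')
        rw [hc] at this
        omega
    rw [if_pos (dvd_mul_of_dvd_left (dvd_mul_of_dvd_left (by norm_num) M) m)]
    unfold sgnE
    have h2m : 2 ∈ (4 * M).primeFactors := by
      rw [Nat.mem_primeFactors]
      exact ⟨Nat.prime_two, by omega, by omega⟩
    rw [← Finset.mul_prod_erase _ _ h2m, if_pos rfl]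
    have e1 : ∀ p ∈ (4 * M).primeFactors.erase 2, (if p = 2 then sg2 1 (4 * M * m) 0
        else sgp 1 (4 * M * m) p 0) = jacobiSym (-1) p := by
      intro p hp'
      rw [Finset.mem_erase] at hp'
      rw [if_neg hp'.1, hp p hp'.2]
    rw [Finset.prod_congr rfl e1]
    have e2 : sg2 1 (4 * M * m) 0 = c2 (4 * M * m) (-1) := by
      unfold sg2
      rw [if_pos rfl]
      simp
    rw [e2]
    rcases h4 with h4 | h4
    · obtain ⟨k, rfl⟩ : 2 ∣ M := by omega
      have hk2 : k % 2 = 1 := by omega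
      have hsk : Squarefree k := hs.squarefree_of_dvd (dvd_mul_left k 2)
      have e3 : (4 * (2 * k)).primeFactors.erase 2 = k.primeFactors := by
        ext q
        simp only [Finset.mem_erase, Nat.mem_primeFactors]
        constructor
        · rintro ⟨h1, h2, h3, -⟩
          refine ⟨h2, ?_, by omega⟩
          have : Nat.Coprime q 8 := by
            have h5 : Nat.Coprime q 2 := (Nat.coprime_primes h2 Nat.prime_two).2 h1
            have := Nat.Coprime.pow_right 3 h5
            norm_num at this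
            exact this
          apply this.dvd_of_dvd_mul_left
          rw [show 8 * k = 4 * (2 * k) by ring]
          exact h3
        · rintro ⟨h1, h2, h3⟩
          refine ⟨?_, h1, dvd_trans h2 ⟨8, by ring⟩, by omega⟩
          rintro rfl
          omega
      rw [e3, hjp k hsk, jacobiSym.at_neg_one (Nat.odd_iff.2 hk2)]
      have e5 : 4 * (2 * k) * m = 8 * (k * m) := by ring
      rw [e5]
      rcases (show k % 4 = 1 ∨ k % 4 = 3 by omega) with h | h
      · rw [ZMod.χ₄_nat_one_mod_four h]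
        have : (k * m) % 4 = 3 := by rw [Nat.mul_mod, h, hm4]
        unfold c2
        rw [if_neg (by norm_num), if_neg (by omega), if_neg (by omega), if_pos (by norm_num)]
        norm_num
      · rw [ZMod.χ₄_nat_three_mod_four h]
        have : (k * m) % 4 = 1 := by rw [Nat.mul_mod, h, hm4]
        unfold c2
        rw [if_neg (by norm_num), if_neg (by omega), if_pos (by omega), if_neg (by norm_num)]
        norm_num
    · have hk2 : M % 2 = 1 := by omega
      have e3 : (4 * M).primeFactors.erase 2 = M.primeFactors := by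
        ext q
        simp only [Finset.mem_erase, Nat.mem_primeFactors]
        constructor
        · rintro ⟨h1, h2, h3, -⟩
          refine ⟨h2, ?_, by omega⟩
          have : Nat.Coprime q 4 := by
            have h5 : Nat.Coprime q 2 := (Nat.coprime_primes h2 Nat.prime_two).2 h1
            have := Nat.Coprime.pow_right 2 h5
            norm_num at this
            exact this
          exact this.dvd_of_dvd_mul_left h3
        · rintro ⟨h1, h2, h3⟩
          refine ⟨?_, h1, dvd_trans h2 ⟨4, by ring⟩, by omega⟩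
          rintro rfl
          omega
      rw [e3, hjp M hs, jacobiSym.at_neg_one (Nat.odd_iff.2 hk2), ZMod.χ₄_nat_three_mod_four h4]
      have e5 : 4 * M * m = 4 * (M * m) := by ring
      rw [e5]
      have : (M * m) % 4 = 1 := by rw [Nat.mul_mod, h4, hm4]
      unfold c2
      rw [if_neg (by norm_num), if_pos (by omega), if_neg (by norm_num)]
      norm_num

/-! ### the sums over `T` -/

/-- the sum over the `T` divisible by `15` -/
def S15 (A n : ℕ) : ℤ := ∑ T ∈ (range n).filter (fun T => 0 < T ∧ 15 ∣ T), sg A n T * l3 n T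

/-- the sum over the `T` divisible by `3`, not by `5` -/
def S3 (A n : ℕ) : ℤ := ∑ T ∈ (range n).filter (fun T => 0 < T ∧ 3 ∣ T ∧ ¬ 5 ∣ T),
  sg A n T * l3 n T

theorem cp_l3 {n : ℕ} (hn : Ng n) (h3 : 3 ∣ n) {T : ℕ} (h0 : 0 < T) (hT : T < n) :
    (cp n (2 * (T : ℤ) - n) n : ℤ) = 6 * l3 n T := by
  have hD : 0 < 4 * (n - T) * T := Nat.mul_pos (Nat.mul_pos (by norm_num) (by omega)) h0
  have e : ((4 * (n - T) * T : ℕ) : ℤ) = (n : ℤ) * n - (2 * (T : ℤ) - n) ^ 2 := by
    push_cast [Nat.cast_sub hT.le]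
    ring
  unfold l3
  rcases hn with ⟨hs, h4⟩ | hE
  · rw [if_neg (by omega)]
    exact N878.PC21.t_PC3 n n _ _ hs h4 h3 hD e
  · have h4 : 4 ∣ n := by
      obtain ⟨m, rfl, -⟩ := hE
      exact dvd_mul_right 4 m
    rw [if_pos (by omega), N878.PC21.t_PC3E n n _ _ hE h3 h4 hD e]
    congr 2
    omega

theorem l3_zero {n : ℕ} (h3 : 3 ∣ n) {T : ℕ} (hT : T < n) (h : ¬ 3 ∣ T) : l3 n T = 0 := by
  have hD : ¬ 3 ∣ 4 * (n - T) * T := by
    intro h1
    rcases (Nat.prime_three.dvd_mul).1 h1 with h2 | h2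
    · rcases (Nat.prime_three.dvd_mul).1 h2 with h4 | h4
      · omega
      · omega
    · exact h h2
  unfold l3 loc3 loc3E
  simp [hD]

theorem split_range (n : ℕ) (hn : 0 < n) (F : ℕ → ℤ) : ∑ T ∈ range (n + 1), F T =
    F 0 + F n + ∑ T ∈ (range n).filter (fun T => 0 < T), F T := by
  rw [Finset.sum_range_succ]
  have h1 : range n = insert 0 ((range n).filter fun T => 0 < T) := by
    ext T
    simp only [Finset.mem_range, Finset.mem_insert, Finset.mem_filter]
    omega
  have h2 : ∑ T ∈ range n, F T = F 0 + ∑ T ∈ (range n).filter (fun T => 0 < T), F T := by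
    conv_lhs => rw [h1]
    rw [Finset.sum_insert (by simp)]
  rw [h2]
  ring

theorem RR_sum {n : ℕ} (hn : N15 n) (A : ℕ) :
    RR A n = rr n * (sg A n 0 + sg A n n) + 6 * (S15 A n + S3 A n) := by
  have h3 : 3 ∣ n := dvd_trans (by norm_num) hn.2
  have h5 : 5 ∣ n := dvd_trans (by norm_num) hn.2
  rw [RR_grp, split_range n (Ng_pos hn.1)]
  push_cast
  have cb := cp_bot n
  rw [mul_zero] at cb
  rw [cp_top, cb]
  have e : ∑ T ∈ (range n).filter (fun T => 0 < T), sg A n T * (cp n (2 * (T : ℤ) - n) n : ℤ) =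
      6 * (S15 A n + S3 A n) := by
    have e1 : ∀ T ∈ (range n).filter (fun T => 0 < T),
        sg A n T * (cp n (2 * (T : ℤ) - n) n : ℤ) =
        6 * ((if 15 ∣ T then sg A n T * l3 n T else 0) +
          (if 3 ∣ T ∧ ¬ 5 ∣ T then sg A n T * l3 n T else 0)) := by
      intro T hT
      rw [Finset.mem_filter, Finset.mem_range] at hT
      rw [cp_l3 hn.1 h3 hT.2 hT.1]
      by_cases h : 3 ∣ T
      · by_cases h' : 5 ∣ T
        · rw [if_pos (by omega), if_neg (by tauto)]
          ring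
        · rw [if_neg (by omega), if_pos ⟨h, h'⟩]
          ring
      · rw [l3_zero h3 hT.1 h]
        simp
    rw [Finset.sum_congr rfl e1, ← Finset.mul_sum, Finset.sum_add_distrib]
    congr 2
    · unfold S15
      rw [← Finset.sum_filter, Finset.filter_filter]
    · unfold S3
      rw [← Finset.sum_filter, Finset.filter_filter]
  rw [e]
  ring

theorem P_sum {n : ℕ} (hn : N15 n) (A : ℕ) :
    6 * P A n = rr n * (sg A n 0 + sg A n n) + 6 * S15 A n := by
  have h3 : 3 ∣ n := dvd_trans (by norm_num) hn.2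
  have h5 : 5 ∣ n := dvd_trans (by norm_num) hn.2
  have hk : ∀ T : ℕ, 6 * (cpV n (2 * (T : ℤ) - n) n : ℤ) =
      if 5 ∣ T then (cp n (2 * (T : ℤ) - n) n : ℤ) else 0 := by
    intro T
    obtain ⟨k1, k2⟩ := t_PCV n hn (2 * (T : ℤ) - n)
    split_ifs with h
    · exact k2 (by omega)
    · rw [k1 (by omega)]
      simp
  rw [P_grp, Finset.mul_sum]
  have e0 : ∀ T ∈ range (n + 1), 6 * (sg A n T * (cpV n (2 * (T : ℤ) - n) n : ℤ)) =
      sg A n T * (if 5 ∣ T then (cp n (2 * (T : ℤ) - n) n : ℤ) else 0) := by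
    intro T _
    rw [← hk T]
    ring
  rw [Finset.sum_congr rfl e0, split_range n (Ng_pos hn.1)]
  rw [if_pos (dvd_zero 5), if_pos h5]
  push_cast
  have cb := cp_bot n
  rw [mul_zero] at cb
  rw [cp_top, cb]
  have e : ∑ T ∈ (range n).filter (fun T => 0 < T),
      sg A n T * (if 5 ∣ T then (cp n (2 * (T : ℤ) - n) n : ℤ) else 0) = 6 * S15 A n := by
    have e1 : ∀ T ∈ (range n).filter (fun T => 0 < T),
        sg A n T * (if 5 ∣ T then (cp n (2 * (T : ℤ) - n) n : ℤ) else 0) =
        6 * (if 15 ∣ T then sg A n T * l3 n T else 0) := by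
      intro T hT
      rw [Finset.mem_filter, Finset.mem_range] at hT
      rw [cp_l3 hn.1 h3 hT.2 hT.1]
      by_cases h' : 5 ∣ T
      · by_cases h : 3 ∣ T
        · rw [if_pos h', if_pos (by omega)]
          ring
        · rw [l3_zero h3 hT.1 h]
          simp
      · rw [if_neg h', if_neg (by omega)]
        ring
    rw [Finset.sum_congr rfl e1, ← Finset.mul_sum]
    congr 1
    unfold S15
    rw [← Finset.sum_filter, Finset.filter_filter]
  rw [e]
  ring

/-- if the signed number of pairs in the large lattice vanishes -/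
theorem P_S3 {n : ℕ} (hn : N15 n) {A : ℕ} (h : RR A n = 0) : P A n = - S3 A n := by
  have h1 := RR_sum hn A
  have h2 := P_sum hn A
  rw [h] at h1
  linarith

/-! ### the characters -/

theorem chM_odd {m : ℕ} (hs : Squarefree m) (h4 : m % 4 = 3) (u : ℤ) : chM m u = jacobiSym u m := by
  have h2 : ¬ 2 ∣ m := by omega
  unfold chM
  rw [if_neg h2, one_mul, Finset.erase_eq_of_notMem (fun h => h2 (Nat.dvd_of_mem_primeFactors h)),
    Pool.Agent.N975.PG.jac_prod u hs]

theorem chM_even {m : ℕ} (hm : Ev m) (u : ℤ) : chM m u = chE m u := by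
  have h2 : 2 ∣ m := by
    obtain ⟨k, rfl, -⟩ := hm
    omega
  unfold chM chE
  rw [if_pos h2]

open Pool.Agent.N973.P15 (FA S_DIAG3 S_DIAG3E S_DIAG15 S_DIAG15E Cl3 Cl3e Cl15 Cl15e)

theorem diag15 (h1 : S_DIAG15) (h2 : S_DIAG15E) {m : ℕ} (hm : N15 m) :
    9 * ∑ u ∈ un m, chM m u * FA u m = - N969.P15.cc m ^ 2 := by
  obtain ⟨h | h, h15⟩ := hm
  · rw [← h1 m ⟨h.1, h.2, by omega, by omega⟩]
    congr 1
    exact Finset.sum_congr rfl fun u _ => by rw [chM_odd h.1 h.2]
  · rw [← h2 m ⟨h, by omega, by omega⟩]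
    congr 1
    exact Finset.sum_congr rfl fun u _ => by rw [chM_even h]

theorem diag3 (h1 : S_DIAG3) (h2 : S_DIAG3E) {m : ℕ} (hm : N3 m) :
    18 * ∑ u ∈ un m, chM m u * FA u m = - N969.P15.cc m ^ 2 := by
  obtain ⟨h | h, h3, h5⟩ := hm
  · rw [← h1 m ⟨h.1, h.2, h3, h5⟩]
    congr 1
    exact Finset.sum_congr rfl fun u _ => by rw [chM_odd h.1 h.2]
  · rw [← h2 m ⟨h, h3, h5⟩]
    congr 1
    exact Finset.sum_congr rfl fun u _ => by rw [chM_even h]

theorem mem_un {m u : ℕ} (h : u ∈ un m) : IsCoprime (u : ℤ) (m : ℤ) := by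
  unfold un at h
  exact Nat.isCoprime_iff_coprime.2 (Finset.mem_filter.1 h).2

theorem div_self_mul {A m : ℕ} (hA : 0 < A) : A * m / A = m := Nat.mul_div_cancel_left m hA

theorem Ps_pos {A : ℕ} (hA : Ps A) : 0 < A := by
  rcases hA with ⟨hs, -⟩ | ⟨M, rfl, hs, -⟩
  · exact Nat.pos_of_ne_zero hs.ne_zero
  · exact Nat.mul_pos (by norm_num) (Nat.pos_of_ne_zero hs.ne_zero)

theorem Ud_mul {A m : ℕ} (hA : 0 < A) (hc : Nat.Coprime A m) : Ud (A * m) A :=
  ⟨dvd_mul_right A m, by rw [div_self_mul hA]; exact hc⟩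

/-- **KAPii** -/
theorem t_KAPii (hS : S_SYMii) (hC1 : S_C1) (hC2 : S_C2ii) (hV : S_VANR) (hD : S_DIAG15)
    (hDE : S_DIAG15E) : S_KAPii := by
  intro A hA
  obtain ⟨κ, k1, k2⟩ := hS A hA
  refine ⟨κ, k1, ?_⟩
  intro m hm hc
  have hPs := hA.1
  have hA0 := Ps_pos hPs
  have h3A : ¬ 3 ∣ A := by have := hA.2.1; omega
  have h15 : 15 ∣ A * m := dvd_mul_of_dvd_right hm.2 A
  have hn : N15 (A * m) := ⟨Ng_mul hPs hm.1 hc, h15⟩
  have hR : RR A (A * m) = 0 :=
    (hV (A * m) A hn (Ud_mul hA0 hc) h3A (by rw [div_self_mul hA0]; exact hm.1)).1 hA.2.1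
  have c1 := (hC1 A m hPs hm.1 hc h3A h15).2.1
  have s1 : 2 * ∑ T ∈ (range (A * m)).filter (fun T => 3 ∣ T), W03 A m (A * m - T) T =
      - S3 A (A * m) := by
    unfold S3
    rw [Finset.mul_sum, ← Finset.sum_neg_distrib]
    have e : ∀ T ∈ (range (A * m)).filter (fun T => 3 ∣ T), 2 * W03 A m (A * m - T) T =
        if 0 < T ∧ ¬ 5 ∣ T then -(sg A (A * m) T * l3 (A * m) T) else 0 := by
      intro T hT
      rw [Finset.mem_filter, Finset.mem_range] at hT
      rcases Nat.eq_zero_or_pos T with h0 | h0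
      · subst h0
        rw [if_neg (by omega)]
        unfold W03
        simp
      · obtain ⟨a1, a2⟩ := hC2 A m hA hm hc T h0 hT.1 hT.2
        by_cases h5 : 5 ∣ T
        · rw [a1 h5, if_neg (by tauto)]
          ring
        · rw [if_pos ⟨h0, h5⟩, a2 h5]
    rw [Finset.sum_congr rfl e, ← Finset.sum_filter, Finset.filter_filter]
    refine Finset.sum_congr ?_ fun T _ => rfl
    ext T
    simp only [Finset.mem_filter]
    tauto
  have s2 : ∑ u ∈ un m, chM m u * Fx w03 A u m = P A (A * m) := by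
    rw [c1, s1, P_S3 hn hR]
  have s3 : ∑ u ∈ un m, chM m u * Fx w03 A u m = κ * ∑ u ∈ un m, chM m u * FA u m := by
    rw [Finset.mul_sum]
    refine Finset.sum_congr rfl fun u hu => ?_
    rw [k2 u m (by exact_mod_cast Ng_pos hm.1) (mem_un hu) (by exact_mod_cast hm.2)]
    ring
  have s4 := diag15 hD hDE hm
  rw [← s2, s3]
  linear_combination κ * s4

/-- **KAPio** -/
theorem t_KAPio (hS : S_SYMio) (hC1 : S_C1) (hC2 : S_C2io) (hC : S_CNF) (hD : S_DIAG3)
    (hDE : S_DIAG3E) : S_KAPio := by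
  intro A hA
  obtain ⟨κ, k1⟩ := hS A hA
  refine ⟨κ, ?_⟩
  intro m hm hc
  have hPs := hA.1
  have hA0 := Ps_pos hPs
  have h3A : ¬ 3 ∣ A := by have := hA.2.1; omega
  have h15 : 15 ∣ A * m := by
    have h1 : 3 ∣ A * m := dvd_mul_of_dvd_right hm.2.1 A
    have h2 : 5 ∣ A * m := dvd_mul_of_dvd_left hA.2.2 m
    omega
  have hn : N15 (A * m) := ⟨Ng_mul hPs hm.1 hc, h15⟩
  have hn0 := Ng_pos hn.1
  have c1 := (hC1 A m hPs hm.1 hc h3A h15).1
  have s1 : 4 * ∑ T ∈ (range (A * m)).filter (fun T => 15 ∣ T), W0 A m (A * m - T) T =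
      - S15 A (A * m) := by
    have e0 : ∑ T ∈ (range (A * m)).filter (fun T => 15 ∣ T), W0 A m (A * m - T) T =
        ∑ T ∈ (range (A * m)).filter (fun T => 0 < T ∧ 15 ∣ T), W0 A m (A * m - T) T := by
      rw [← Finset.sum_filter_add_sum_filter_not ((range (A * m)).filter (fun T => 15 ∣ T))
        (fun T => 0 < T)]
      rw [Finset.filter_filter, Finset.filter_filter]
      have z : ∑ T ∈ (range (A * m)).filter (fun T => 15 ∣ T ∧ ¬ 0 < T), W0 A m (A * m - T) T =
          0 := by
        refine Finset.sum_eq_zero fun T hT => ?_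
        rw [Finset.mem_filter] at hT
        have : T = 0 := by omega
        subst this
        unfold W0
        simp
      rw [z, add_zero]
      refine Finset.sum_congr ?_ fun T _ => rfl
      ext T
      simp only [Finset.mem_filter]
      tauto
    have e1 : ∑ T ∈ (range (A * m)).filter (fun T => 0 < T ∧ 15 ∣ T), W0 A m (A * m - T) T =
        ∑ T ∈ (range (A * m)).filter (fun T => 0 < T ∧ 15 ∣ T), W0 A m T (A * m - T) := by
      refine Finset.sum_nbij' (fun T => A * m - T) (fun T => A * m - T) ?_ ?_ ?_ ?_ ?_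
      · intro T hT
        simp only [Finset.mem_filter, Finset.mem_range] at hT ⊢
        refine ⟨by omega, by omega, ?_⟩
        exact Nat.dvd_sub h15 hT.2.2
      · intro T hT
        simp only [Finset.mem_filter, Finset.mem_range] at hT ⊢
        refine ⟨by omega, by omega, ?_⟩
        exact Nat.dvd_sub h15 hT.2.2
      · intro T hT
        simp only [Finset.mem_filter, Finset.mem_range] at hT
        show A * m - (A * m - T) = T
        omega
      · intro T hT
        simp only [Finset.mem_filter, Finset.mem_range] at hT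
        show A * m - (A * m - T) = T
        omega
      · intro T hT
        simp only [Finset.mem_filter, Finset.mem_range] at hT
        rw [Nat.sub_sub_self hT.1.le]
    have e2 : 2 * (∑ T ∈ (range (A * m)).filter (fun T => 0 < T ∧ 15 ∣ T), W0 A m (A * m - T) T +
        ∑ T ∈ (range (A * m)).filter (fun T => 0 < T ∧ 15 ∣ T), W0 A m T (A * m - T)) =
        - S15 A (A * m) := by
      unfold S15
      rw [← Finset.sum_add_distrib, Finset.mul_sum, ← Finset.sum_neg_distrib]
      refine Finset.sum_congr rfl fun T hT => ?_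
      simp only [Finset.mem_filter, Finset.mem_range] at hT
      exact hC2 A m hA hm hc T hT.2.1 hT.1 hT.2.2
    rw [e0]
    rw [← e1] at e2
    linarith
  have s2 := P_sum hn A
  have z0 := sg_zero hPs hm.1 hc
  have z1 := sg_top hn.1 (dvd_mul_right A m)
  rw [z0, z1] at s2
  have s3 := hC A m hPs hm.1 hc h3A h15
  have s4 := diag3 hD hDE hm
  have h5m : ¬ (5 : ℤ) ∣ m := by have := hm.2.2; omega
  have s5 : 2 * (∑ u ∈ un m, chM m u * Fx w0 A u m) - ∑ u ∈ un m, chM m u * bdE A u m =
      - κ * ∑ u ∈ un m, chM m u * FA u m := by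
    rw [Finset.mul_sum, Finset.mul_sum, ← Finset.sum_sub_distrib]
    refine Finset.sum_congr rfl fun u hu => ?_
    have := k1 u m (by exact_mod_cast Ng_pos hm.1) (mem_un hu) (by exact_mod_cast hm.2.1) h5m
    linear_combination chM m u * this
  rw [c1] at s5
  linear_combination 3 * s2 + 18 * s1 - 18 * s5 - 6 * s3 + κ * s4

/-- **DUAL** -/
theorem t_DUAL (hC1 : S_C1D) (hC2 : S_C2D) (hV : S_VANR) : S_DUAL := by
  intro A hA
  have hPs := hA.1
  have hA0 := Ps_pos hPs
  have h3A : ¬ 3 ∣ A := by have := hA.2.1; omega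
  have hN3 : Ng 3 := Or.inl ⟨Nat.squarefree_iff_prime_squarefree.2 (by
    intro p hp h
    have h1 := Nat.le_of_dvd (by norm_num) h
    have h2 := hp.two_le
    have : p = 2 ∨ 3 ≤ p := by omega
    rcases this with rfl | h3
    · omega
    · nlinarith), rfl⟩
  have hc : Nat.Coprime A 3 := by
    rw [Nat.coprime_comm]
    exact (Nat.Prime.coprime_iff_not_dvd Nat.prime_three).2 h3A
  have h15 : 15 ∣ 3 * A := by
    have h2 : 5 ∣ A := hA.2.2
    omega
  have hn : N15 (3 * A) := ⟨by rw [mul_comm]; exact Ng_mul hPs hN3 hc, h15⟩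
  have hdiv : 3 * A / A = 3 := Nat.mul_div_cancel 3 hA0
  have hR : RR A (3 * A) = 0 :=
    (hV (3 * A) A hn ⟨dvd_mul_left A 3, by rw [hdiv]; exact hc⟩ h3A (by rw [hdiv]; exact hN3)).1
      hA.2.1
  have c1 := hC1 A hPs h3A
  rw [c1, P_S3 hn hR, Finset.mul_sum]
  unfold S3
  rw [← Finset.sum_neg_distrib]
  have e : ∀ T ∈ (range (3 * A)).filter (fun T => 3 ∣ T), 2 * WD A (3 * A - T) T =
      if 0 < T ∧ ¬ 5 ∣ T then -(sg A (3 * A) T * l3 (3 * A) T) else 0 := by
    intro T hT
    rw [Finset.mem_filter, Finset.mem_range] at hT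
    rcases Nat.eq_zero_or_pos T with h0 | h0
    · subst h0
      rw [if_neg (by omega)]
      unfold WD
      simp
    · obtain ⟨a1, a2⟩ := hC2 A hA T h0 hT.1 hT.2
      by_cases h5 : 5 ∣ T
      · rw [a1 h5, if_neg (by tauto)]
        ring
      · rw [if_pos ⟨h0, h5⟩, a2 h5]
  rw [Finset.sum_congr rfl e, ← Finset.sum_filter, Finset.filter_filter]
  refine Finset.sum_congr ?_ fun T _ => rfl
  ext T
  simp only [Finset.mem_filter]
  tauto

end Pool.Agent.N973.P15G
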