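import Pool.Agent.N974.MF.LfinG
import Pool.Agent.N974.MF.Symb
import Pool.Agent.N975.Lat15
import Pool.Agent.N974.GN.DualE

/-!
# The curve `X_0(15)` itself
-/

set_option autoImplicit false

namespace Pool.Agent.N973.P15G.One

open Complex
open Pool.Agent.N974.MF
open Pool.Agent.Y687 (cnt RankBSD rankBSD)
open Pool.Agent.W97.MT (ap)
open Pool.Agent.N974.GN (Fin15)

theorem II_zero_ne : II 0 ≠ 0 := by
  intro h
  obtain ⟨L, Op, Om, hOp, hOm, g2, g3, hL⟩ := N975.Lat15.s_lat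
  have h3 := (integrals L g2 g3).2.1 0 (by simp) (by simp)
  apply h3.1
  rw [h]
  exact zero_mem _

/-- **the rank form of the conjecture for `X_0(15)`** -/
theorem rank_one (hfin : Fin15 1) :
    RankBSD (-12987 * (1 : ℤ) ^ 2) (-263466 * (1 : ℤ) ^ 3) := by
  have hlat := N975.Lat15.s_lat
  obtain ⟨f, g1, k1, k2, k3, k4⟩ := exists_fG hlat 1 (q := 1) (1 : DirichletCharacter ℂ 1)
    DirichletCharacter.isPrimitive_one_level_one (fun _ => 1)
    (fun p _ => by
      rw [Subsingleton.elim (p : ZMod 1) 1, MulChar.map_one]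
      simp)
    (fun p _ => Or.inr (Or.inl rfl))
    (fun p hp _ _ _ h => absurd (Nat.dvd_one.1 h) hp.ne_one)
    (fun p hp q2 q3 _ _ => by
      refine ⟨by norm_num, ?_⟩
      have h5 := cnt_E15 p hp q2 q3
      norm_num
      exact h5)
  refine rankBSD k1 k2 (k3 ?_) hfin
  rintro rfl
  rw [mul_zero] at k4
  have h1 : ∑ u : (ZMod 1)ˣ, (1 : DirichletCharacter ℂ 1)⁻¹ (u : ZMod 1) *
      II (((u : ZMod 1).val : ℚ) / (1 : ℕ)) = II 0 := by
    rw [Fintype.sum_subsingleton _ (1 : (ZMod 1)ˣ)]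
    have e : (((1 : (ZMod 1)ˣ) : ZMod 1).val : ℚ) / ((1 : ℕ) : ℚ) = 0 := by
      have h2 : ((1 : (ZMod 1)ˣ) : ZMod 1).val = 0 := rfl
      rw [h2]
      simp
    rw [e, inv_one, Units.val_one, MulChar.map_one, one_mul]
  rw [h1] at k4
  exact II_zero_ne k4.symm

end Pool.Agent.N973.P15G.One
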