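import Pool.Agent.N973.P15G.Fin
import Pool.Agent.N973.P15G.One
import Pool.Agent.N875.D15.Crit
import Pool.Agent.N875.D15.Split
import Pool.Agent.N875.X15.Conv3
import Pool.Agent.N975.AllPC

/-!
# Level `15`: all quadratic twists

For every squarefree `m`: if the twist of `X_0(15)` by `m` has finitely many rational points and
trivial `Ш[2]`, then the rank form of the conjecture holds for it.
-/

set_option autoImplicit false

open Finset

namespace Pool.Agent.N973.P15G.F

open Pool.Agent.N973.P15G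
open Pool.Agent.N972.GC (CY CM)
open Pool.Agent.N974.GN (Fin15)
open Pool.Agent.N974.RQ (mA)
open Pool.Agent.Y687 (RankBSD)
open Pool.Agent.N218.P15G.Lneg (mN)
open Pool.Agent.N875.X15 (WS Fin2 crit_ao_S crit_ae_S)
open Pool.Agent.N809.PQ (Sg15)
open Pool.Agent.N875.D15 (split15 fin15_of fin2S_iff_sg15 mQ)
open Pool.Agent.N969.RQ (R15 R15r)
open Pool.Agent.N975.All (mD Cl)
open Pool.Agent.N916.TE (FD Go)

/-! ### the four old classes -/

theorem go_of {n : ℕ} (h : Cl n) (hF : Fin2 (WS (mD n))) : Go n := by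
  obtain ⟨h1, h3, h5⟩ := h
  rcases h1 with ⟨hsq, h4⟩ | hE
  · have ho : n % 2 = 1 := by omega
    have em : mD n = -(n : ℤ) := if_pos ho
    have h6 := crit_ao_S (n := n) ⟨hsq, h4, h3, h5⟩
    rw [em, h6] at hF
    exact ⟨fun _ => hF, fun h2 => by omega⟩
  · have ho : n % 2 = 0 := by
      obtain ⟨k, rfl, -⟩ := hE
      omega
    have em : mD n = -((n / 4 : ℕ) : ℤ) := if_neg (by omega)
    have h6 := crit_ae_S (n := n) ⟨hE, h3, h5⟩
    rw [em, h6] at hF
    exact ⟨fun h2 => by omega, fun _ => hF⟩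

theorem rank_Cl {n : ℕ} (h : Cl n) (hF : Fin2 (WS (mD n))) :
    RankBSD (-12987 * mD n ^ 2) (-263466 * mD n ^ 3) :=
  Pool.Agent.N975.All.bsd_all u_PCE u_PC5E h (go_of h hF)

/-! ### all twists -/

theorem CM_four : CM (-3) 5 4 := by
  intro x _ p hp q hq
  have e : (4 : ℕ).primeFactors = {2} := by
    rw [show (4 : ℕ) = 2 ^ 2 by norm_num, Nat.primeFactors_prime_pow (by norm_num) Nat.prime_two]
  rw [e, mem_singleton] at hp hq
  rw [hp, hq]

theorem Nis_four : Nis 4 := ⟨Ng_four, by norm_num, by norm_num⟩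

theorem mD_mQ (n : ℕ) : mD n = -(mQ n : ℤ) := by
  unfold mD mQ
  split_ifs <;> first | rfl | omega

/-- **all twists of `X_0(15)`: finitely many points and `Ш[2] = 0` imply the rank form of the
conjecture, with `L(1) ≠ 0`** -/
theorem rank15 {m : ℤ} (hs : Squarefree m) (hF : Fin2 (WS m)) :
    RankBSD (-12987 * m ^ 2) (-263466 * m ^ 3) := by
  have hfin : Fin15 m := fin15_of hs.ne_zero hF
  by_cases h1 : m = 1
  · subst h1
    exact Pool.Agent.N973.P15G.One.rank_one hfin
  by_cases h2 : m = -1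
  · subst h2
    have e : (-(mN 4 : ℤ)) = -1 := by
      unfold mN
      norm_num
    have := rank_Nis Nis_four CM_four (by rw [e]; exact hfin)
    rw [e] at this
    exact this
  have hS : Sg15 m := by
    rcases (fin2S_iff_sg15 hs).1 hF with h | h | h
    · exact h
    · exact absurd h h1
    · exact absurd h h2
  rcases split15 hs h1 h2 hS with ⟨A, rfl, ⟨hA, hY⟩ | ⟨hA, hY⟩⟩ | ⟨n, rfl, ⟨hn, hY⟩ | ⟨hn, h3, h5, -⟩⟩
  · rcases hA with hA | hA
    · exact rank_Aii hA hY hfin
    · exact rank_Aio hA hY hfin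
  · exact rank_R15 hA hY hfin
  · exact rank_Nis hn hY hfin
  · have := rank_Cl (n := n) ⟨hn, h3, h5⟩ (by rw [mD_mQ]; exact hF)
    rw [mD_mQ] at this
    exact this

end Pool.Agent.N973.P15G.F
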