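import Pool.Agent.N973.P15G.CP5
import Pool.Agent.N878.PC21.PE
import Pool.Agent.N878.PC21.PC3
import Pool.Agent.N878.PC21.XC

/-!
# P15G: the six isotropic lines modulo `5`; the number of pairs of vectors of `V`
-/

set_option autoImplicit false

namespace Pool.Agent.N973.P15G

open Finset
open Pool.Agent.N969.P15 (V3 Ev tw tb)
open Pool.Agent.N877.P21 hiding Cls0 Cls0e cc AA WW WWe Fp S_HE7 rr0 cp0 cp7
open Pool.Agent.N218.P21 (mem_vec cs)
open Pool.Agent.Z700 (hh fac)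
open Pool.Agent.N969.RQ (cp5 lcr)

/-- the rotation of order six -/
def om (v : V3) : V3 := ![v 0, -v 2, v 1 + v 2]

/-- its inverse -/
def om' (v : V3) : V3 := ![v 0, v 1 + v 2, -v 1]

theorem om_om' (v : V3) : om (om' v) = v := by
  ext i
  fin_cases i <;> simp [om, om']

theorem om'_om (v : V3) : om' (om v) = v := by
  ext i
  fin_cases i <;> simp [om, om']

theorem ip_om (v w : V3) : ip (om v) (om w) = ip v w := by
  simp only [ip, om, Matrix.cons_val_zero, Matrix.cons_val_one, Matrix.cons_val]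
  ring

/-- the six linear forms whose kernels are orthogonal to the isotropic lines modulo `5` -/
def L6 {R : Type*} [CommRing R] (i : Fin 6) (a b c : R) : R :=
  ![a + 2 * b + 2 * c, a + 2 * b, a - 2 * c, a - 2 * b - 2 * c, a - 2 * b, a + 2 * c] i

/-- orthogonality to an isotropic line -/
def O6 (i : Fin 6) (v : V3) : Prop := (5 : ℤ) ∣ L6 i (v 0) (v 1) (v 2)

instance (i : Fin 6) (v : V3) : Decidable (O6 i v) := by
  unfold O6; infer_instance

theorem O6_om (i : Fin 6) (v : V3) : O6 i (om v) ↔ O6 (i + 1) v := by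
  unfold O6
  have : L6 i (om v 0) (om v 1) (om v 2) = L6 (i + 1) (v 0) (v 1) (v 2) := by
    fin_cases i
    · change v 0 + 2 * (-v 2) + 2 * (v 1 + v 2) = v 0 + 2 * v 1
      ring
    · change v 0 + 2 * (-v 2) = v 0 - 2 * v 2
      ring
    · change v 0 - 2 * (v 1 + v 2) = v 0 - 2 * v 1 - 2 * v 2
      ring
    · change v 0 - 2 * (-v 2) - 2 * (v 1 + v 2) = v 0 - 2 * v 1
      ring
    · change v 0 - 2 * (-v 2) = v 0 + 2 * v 2
      ring
    · change v 0 + 2 * (v 1 + v 2) = v 0 + 2 * v 1 + 2 * v 2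
      ring
  rw [this]

theorem dvd5_iff (x : ℤ) : (5 : ℤ) ∣ x ↔ (x : ZMod 5) = 0 :=
  (ZMod.intCast_zmod_eq_zero_iff_dvd x 5).symm

/-- the inner product over a ring -/
def ipR {R : Type*} [CommRing R] (a b c x y z : R) : R :=
  3 * (a * x) + 4 * (b * y) + 4 * (c * z) + 2 * (b * z + c * y)

theorem ip_cast (v w : V3) : ((ip v w : ℤ) : ZMod 5) =
    ipR (v 0 : ZMod 5) (v 1 : ZMod 5) (v 2 : ZMod 5) (w 0 : ZMod 5) (w 1 : ZMod 5)
      (w 2 : ZMod 5) := by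
  unfold ip ipR
  push_cast
  ring

theorem L6_cast (i : Fin 6) (v : V3) : ((L6 i (v 0) (v 1) (v 2) : ℤ) : ZMod 5) =
    L6 i (v 0 : ZMod 5) (v 1 : ZMod 5) (v 2 : ZMod 5) := by
  fin_cases i <;> simp [L6]

theorem O6_iff (i : Fin 6) (v : V3) :
    O6 i v ↔ L6 i (v 0 : ZMod 5) (v 1 : ZMod 5) (v 2 : ZMod 5) = 0 := by
  unfold O6
  rw [dvd5_iff, L6_cast]

theorem L6_lin (i : Fin 6) (t s a b c x y z : ZMod 5) :
    L6 i (t * a - s * x) (t * b - s * y) (t * c - s * z) = t * L6 i a b c - s * L6 i x y z := by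
  fin_cases i <;> simp [L6] <;> ring

/-- representatives of the isotropic lines -/
def M6 (i : Fin 6) : ZMod 5 × ZMod 5 × ZMod 5 :=
  ![(1, 1, 1), (1, 2, 4), (1, 1, 3), (1, 4, 4), (1, 3, 1), (1, 4, 2)] i

theorem M6_L : ∀ (i : Fin 6) (x y z : ZMod 5), ipR (M6 i).1 (M6 i).2.1 (M6 i).2.2 x y z = 0 ↔
    L6 i x y z = 0 := by
  decide

theorem iso6 : ∀ a b c : ZMod 5, (a ≠ 0 ∨ b ≠ 0 ∨ c ≠ 0) → ipR a b c a b c = 0 →
    ∃ i : Fin 6, ∃ t : ZMod 5, t ≠ 0 ∧ a = t * (M6 i).1 ∧ b = t * (M6 i).2.1 ∧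
      c = t * (M6 i).2.2 := by
  decide

theorem M6_self : ∀ i j : Fin 6, L6 j (M6 i).1 (M6 i).2.1 (M6 i).2.2 = 0 ↔ j = i := by
  decide

theorem L6_smul (j : Fin 6) (t a b c : ZMod 5) : L6 j (t * a) (t * b) (t * c) = t * L6 j a b c := by
  fin_cases j <;> simp [L6] <;> ring

theorem ipR_smul (t a b c x y z : ZMod 5) : ipR (t * a) (t * b) (t * c) x y z =
    t * ipR a b c x y z := by
  unfold ipR; ring

instance f5 : Fact (Nat.Prime 5) := ⟨by norm_num⟩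

theorem ind6 (a b c x y z : ZMod 5) (h : a ≠ 0 ∨ b ≠ 0 ∨ c ≠ 0) (h0 : ipR a b c a b c = 0) :
    (if ipR a b c x y z = 0 then (1 : ℤ) else 0) =
      ∑ i : Fin 6, (if L6 i a b c = 0 then (1 : ℤ) else 0) * (if L6 i x y z = 0 then 1 else 0) := by
  obtain ⟨i, t, ht, rfl, rfl, rfl⟩ := iso6 a b c h h0
  rw [Finset.sum_eq_single i]
  · have h1 : L6 i (t * (M6 i).1) (t * (M6 i).2.1) (t * (M6 i).2.2) = 0 := by
      rw [L6_smul, (M6_self i i).2 rfl, mul_zero]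
    rw [if_pos h1, one_mul, ipR_smul]
    simp only [mul_eq_zero, ht, false_or, M6_L]
  · intro j _ hj
    rw [if_neg, zero_mul]
    rw [L6_smul, mul_eq_zero, M6_self]
    simp [ht, hj]
  · intro h; exact absurd (Finset.mem_univ i) h

theorem two6 : ∀ x y z : ZMod 5, (ipR x y z x y z = 1 ∨ ipR x y z x y z = 4) →
    ∑ i : Fin 6, (if L6 i x y z = 0 then (1 : ℤ) else 0) = 2 := by
  decide

theorem sp5_cast {n : ℕ} (h : Sp5 n) : (n : ZMod 5) = 1 ∨ (n : ZMod 5) = 4 := by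
  have key : (n : ZMod 5) = ((n % 5 : ℕ) : ZMod 5) := (ZMod.natCast_mod n 5).symm
  rcases h with h | h
  · left; rw [key, h]; rfl
  · right; rw [key, h]; rfl

theorem sp5_ne {n : ℕ} (h : Sp5 n) : (n : ZMod 5) ≠ 0 := by
  rcases sp5_cast h with h | h <;> rw [h] <;> decide

/-- the number of common lines, `5` split -/
theorem ind_pair {n1 n2 : ℕ} (h2 : Sp5 n2) {v w : V3} (hv : ip v v = n1) (hw : ip w w = n2)
    (h7 : (5 : ℤ) ∣ ip v w ^ 2 - n1 * n2) :
    ∑ i : Fin 6, (if O6 i v then (1 : ℤ) else 0) * (if O6 i w then 1 else 0) =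
      1 + (if ∀ i, (5 : ℤ) ∣ n2 * v i - ip v w * w i then 1 else 0) := by
  have hn2 := sp5_ne h2
  have eB := ip_cast v w
  have e1 := ip_cast v v
  have e2 := ip_cast w w
  rw [hv] at e1
  rw [hw] at e2
  rw [dvd5_iff] at h7
  push_cast at h7 e1 e2
  have hall : (∀ i, (5 : ℤ) ∣ n2 * v i - ip v w * w i) ↔
      ((n2 : ZMod 5) * (v 0) - (ip v w : ℤ) * (w 0) = 0 ∧
        (n2 : ZMod 5) * (v 1) - (ip v w : ℤ) * (w 1) = 0 ∧
        (n2 : ZMod 5) * (v 2) - (ip v w : ℤ) * (w 2) = 0) := by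
    simp only [dvd5_iff, Fin.forall_fin_succ, IsEmpty.forall_iff, and_true]
    push_cast
    rfl
  have hsum : ∑ i : Fin 6, (if O6 i v then (1 : ℤ) else 0) * (if O6 i w then 1 else 0) =
      ∑ i : Fin 6, (if L6 i ((n2 : ZMod 5) * (v 0) - (ip v w : ℤ) * (w 0))
        ((n2 : ZMod 5) * (v 1) - (ip v w : ℤ) * (w 1))
        ((n2 : ZMod 5) * (v 2) - (ip v w : ℤ) * (w 2)) = 0 then (1 : ℤ) else 0) *
        (if L6 i (w 0 : ZMod 5) (w 1) (w 2) = 0 then 1 else 0) := by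
    refine Finset.sum_congr rfl fun i _ => ?_
    simp only [O6_iff, L6_lin]
    by_cases hz : L6 i (w 0 : ZMod 5) (w 1) (w 2) = 0
    · rw [hz, mul_zero, sub_zero]
      have e : ((n2 : ZMod 5) * L6 i (v 0 : ZMod 5) (v 1) (v 2) = 0) ↔
          L6 i (v 0 : ZMod 5) (v 1) (v 2) = 0 := by
        rw [mul_eq_zero]
        tauto
      simp only [e]
    · rw [if_neg hz, mul_zero, mul_zero]
  rw [hsum]
  by_cases h0 : ((n2 : ZMod 5) * (v 0) - (ip v w : ℤ) * (w 0) = 0 ∧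
        (n2 : ZMod 5) * (v 1) - (ip v w : ℤ) * (w 1) = 0 ∧
        (n2 : ZMod 5) * (v 2) - (ip v w : ℤ) * (w 2) = 0)
  · rw [if_pos (hall.2 h0), h0.1, h0.2.1, h0.2.2]
    have hL0 : ∀ i : Fin 6, L6 i (0 : ZMod 5) 0 0 = 0 := by
      intro i
      have := L6_smul i 0 0 0 0
      rwa [zero_mul, zero_mul] at this
    have h3 := two6 (w 0 : ZMod 5) (w 1) (w 2) (by
      rw [← e2]
      exact sp5_cast h2)
    have : ∑ i : Fin 6, (if L6 i (0 : ZMod 5) 0 0 = 0 then (1 : ℤ) else 0) *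
        (if L6 i (w 0 : ZMod 5) (w 1) (w 2) = 0 then 1 else 0) =
        ∑ i : Fin 6, (if L6 i (w 0 : ZMod 5) (w 1) (w 2) = 0 then (1 : ℤ) else 0) := by
      refine Finset.sum_congr rfl fun i _ => ?_
      rw [if_pos (hL0 i), one_mul]
    rw [this, h3]
    norm_num
  · rw [if_neg (fun h => h0 (hall.1 h)), add_zero]
    have h3 := ind6 ((n2 : ZMod 5) * (v 0) - (ip v w : ℤ) * (w 0))
      ((n2 : ZMod 5) * (v 1) - (ip v w : ℤ) * (w 1))
      ((n2 : ZMod 5) * (v 2) - (ip v w : ℤ) * (w 2)) (w 0) (w 1) (w 2) (by tauto) (by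
        have e : ipR ((n2 : ZMod 5) * (v 0) - (ip v w : ℤ) * (w 0))
          ((n2 : ZMod 5) * (v 1) - (ip v w : ℤ) * (w 1))
          ((n2 : ZMod 5) * (v 2) - (ip v w : ℤ) * (w 2))
          ((n2 : ZMod 5) * (v 0) - (ip v w : ℤ) * (w 0))
          ((n2 : ZMod 5) * (v 1) - (ip v w : ℤ) * (w 1))
          ((n2 : ZMod 5) * (v 2) - (ip v w : ℤ) * (w 2)) =
          (n2 : ZMod 5) ^ 2 * ipR (v 0 : ZMod 5) (v 1) (v 2) (v 0) (v 1) (v 2) -
          2 * (n2 * ((ip v w : ℤ) : ZMod 5)) * ipR (v 0 : ZMod 5) (v 1) (v 2) (w 0) (w 1) (w 2) +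
          ((ip v w : ℤ) : ZMod 5) ^ 2 * ipR (w 0 : ZMod 5) (w 1) (w 2) (w 0) (w 1) (w 2) := by
            unfold ipR; ring
        rw [e, ← e1, ← e2, ← eB]
        linear_combination (-(n2 : ZMod 5)) * h7)
    rw [← h3, if_pos]
    have e : ipR ((n2 : ZMod 5) * (v 0) - (ip v w : ℤ) * (w 0))
          ((n2 : ZMod 5) * (v 1) - (ip v w : ℤ) * (w 1))
          ((n2 : ZMod 5) * (v 2) - (ip v w : ℤ) * (w 2)) (w 0) (w 1) (w 2) =
          (n2 : ZMod 5) * ipR (v 0 : ZMod 5) (v 1) (v 2) (w 0) (w 1) (w 2) -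
          ((ip v w : ℤ) : ZMod 5) * ipR (w 0 : ZMod 5) (w 1) (w 2) (w 0) (w 1) (w 2) := by
            unfold ipR; ring
    rw [e, ← e2, ← eB]
    ring

/-- the number of common lines of two vectors of norm divisible by `5` -/
theorem ind_ram {n : ℕ} (h5 : 5 ∣ n) (h25 : ¬ 25 ∣ n) {v w : V3} (hv : ip v v = n) :
    ∑ i : Fin 6, (if O6 i v then (1 : ℤ) else 0) * (if O6 i w then 1 else 0) =
      if (5 : ℤ) ∣ ip v w then 1 else 0 := by
  have hne : (v 0 : ZMod 5) ≠ 0 ∨ (v 1 : ZMod 5) ≠ 0 ∨ (v 2 : ZMod 5) ≠ 0 := by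
    by_contra hcon
    push Not at hcon
    obtain ⟨h0, h1, h2⟩ := hcon
    rw [← dvd5_iff] at h0 h1 h2
    obtain ⟨a, ha⟩ := h0
    obtain ⟨b, hb⟩ := h1
    obtain ⟨c, hc⟩ := h2
    apply h25
    have : (25 : ℤ) ∣ (n : ℤ) := by
      rw [← hv]
      unfold ip
      rw [ha, hb, hc]
      exact ⟨3 * (a * a) + 4 * (b * b) + 4 * (c * c) + 2 * (b * c + c * b), by ring⟩
    exact_mod_cast this
  have h0 : ipR (v 0 : ZMod 5) (v 1) (v 2) (v 0) (v 1) (v 2) = 0 := by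
    rw [← ip_cast, hv, ← dvd5_iff]
    exact_mod_cast h5
  have h := ind6 (v 0 : ZMod 5) (v 1) (v 2) (w 0) (w 1) (w 2) hne h0
  simp only [O6_iff]
  rw [← h, ← ip_cast]
  simp only [dvd5_iff]

/-! ### the pair counts -/

/-- the number of pairs with given inner product, orthogonal to the line `i` -/
noncomputable def c6 (i : Fin 6) (n1 b n2 : ℤ) : ℤ := ∑ v ∈ vec n1, ∑ w ∈ vec n2,
  if ip v w = b then (if O6 i v then (1 : ℤ) else 0) * (if O6 i w then 1 else 0) else 0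

theorem sum_om (n : ℤ) (f : V3 → ℤ) : ∑ v ∈ vec n, f (om v) = ∑ v ∈ vec n, f v := by
  refine Finset.sum_nbij' om om' ?_ ?_ ?_ ?_ ?_
  · intro v hv
    rw [mem_vec] at hv ⊢
    rw [ip_om, hv]
  · intro v hv
    rw [mem_vec] at hv ⊢
    rw [← ip_om, om_om', hv]
  · intro v _
    exact om'_om v
  · intro v _
    exact om_om' v
  · intro v _
    rfl

theorem c6_succ (i : Fin 6) (n1 b n2 : ℤ) : c6 (i + 1) n1 b n2 = c6 i n1 b n2 := by
  unfold c6
  rw [← sum_om n1 (fun v => ∑ w ∈ vec n2, if ip v w = b then (if O6 i v then (1 : ℤ) else 0) *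
    (if O6 i w then 1 else 0) else 0)]
  refine Finset.sum_congr rfl fun v _ => ?_
  rw [← sum_om n2 (fun w => if ip (om v) w = b then (if O6 i (om v) then (1 : ℤ) else 0) *
    (if O6 i w then 1 else 0) else 0)]
  refine Finset.sum_congr rfl fun w _ => ?_
  simp only [ip_om, O6_om]

theorem c6_all (i : Fin 6) (n1 b n2 : ℤ) : c6 i n1 b n2 = c6 0 n1 b n2 := by
  have h1 := c6_succ 0 n1 b n2
  have h2 := c6_succ 1 n1 b n2
  have h3 := c6_succ 2 n1 b n2
  have h4 := c6_succ 3 n1 b n2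
  have h5 := c6_succ 4 n1 b n2
  fin_cases i
  · rfl
  · exact h1
  · exact h2.trans h1
  · exact h3.trans (h2.trans h1)
  · exact h4.trans (h3.trans (h2.trans h1))
  · exact h5.trans (h4.trans (h3.trans (h2.trans h1)))

theorem O6_zero (v : V3) : O6 0 v ↔ (5 : ℤ) ∣ v 0 + 2 * v 1 + 2 * v 2 := Iff.rfl

theorem cpV_eq (n1 b n2 : ℤ) : (cpV n1 b n2 : ℤ) = c6 0 n1 b n2 := by
  unfold cpV c6 V
  rw [Finset.card_eq_sum_ones, Finset.sum_filter, Finset.sum_product]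
  push_cast
  rw [Finset.sum_filter]
  refine Finset.sum_congr rfl fun v _ => ?_
  by_cases hv : (5 : ℤ) ∣ v 0 + 2 * v 1 + 2 * v 2
  · rw [if_pos hv, Finset.sum_filter]
    refine Finset.sum_congr rfl fun w _ => ?_
    by_cases hw : (5 : ℤ) ∣ w 0 + 2 * w 1 + 2 * w 2
    · rw [if_pos hw, if_pos ((O6_zero v).2 hv), if_pos ((O6_zero w).2 hw), mul_one]
    · rw [if_neg hw, if_neg (fun h => hw ((O6_zero w).1 h)), mul_zero, ite_self]
  · rw [if_neg hv]
    symm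
    refine Finset.sum_eq_zero fun w _ => ?_
    rw [if_neg (fun h => hv ((O6_zero v).1 h)), zero_mul, ite_self]

theorem six_cpV (n1 b n2 : ℤ) : 6 * (cpV n1 b n2 : ℤ) = ∑ v ∈ vec n1, ∑ w ∈ vec n2,
    if ip v w = b then ∑ i : Fin 6, (if O6 i v then (1 : ℤ) else 0) * (if O6 i w then 1 else 0)
      else 0 := by
  have h1 : ∑ i : Fin 6, c6 i n1 b n2 = 6 * (cpV n1 b n2 : ℤ) := by
    rw [Finset.sum_congr rfl fun i _ => c6_all i n1 b n2, cpV_eq]
    simp
  rw [← h1]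
  unfold c6
  rw [Finset.sum_comm]
  refine Finset.sum_congr rfl fun v _ => ?_
  rw [Finset.sum_comm]
  refine Finset.sum_congr rfl fun w _ => ?_
  split_ifs
  · rfl
  · exact Finset.sum_const_zero

theorem card_eq_sum (n1 n2 : ℤ) (C : V3 × V3 → Prop) [DecidablePred C] :
    ((((vec n1 ×ˢ vec n2).filter C).card : ℕ) : ℤ) = ∑ v ∈ vec n1, ∑ w ∈ vec n2,
      if C (v, w) then (1 : ℤ) else 0 := by
  rw [Finset.card_eq_sum_ones, Finset.sum_filter, Finset.sum_product]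
  push_cast
  rfl

/-- **PCV** -/
theorem t_PCV : S_PCV := by
  intro n hn b
  have h5 : 5 ∣ n := dvd_trans (by norm_num) hn.2
  have h25 : ¬ 25 ∣ n := by
    intro h
    rcases hn.1 with ⟨hs, -⟩ | ⟨m, rfl, hs, -⟩
    · exact absurd (Nat.isUnit_iff.1 (hs 5 (by exact h))) (by norm_num)
    · have h1 : 5 * 5 ∣ m := by omega
      exact absurd (Nat.isUnit_iff.1 (hs 5 h1)) (by norm_num)
  have e := six_cpV n b n
  have e2 : 6 * (cpV n b n : ℤ) = ∑ v ∈ vec (n : ℤ), ∑ w ∈ vec (n : ℤ),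
      if ip v w = b then (if (5 : ℤ) ∣ b then 1 else 0) else 0 := by
    rw [e]
    refine Finset.sum_congr rfl fun v hv => Finset.sum_congr rfl fun w hw => ?_
    by_cases h : ip v w = b
    · rw [if_pos h, if_pos h, ind_ram h5 h25 (mem_vec.1 hv), h]
    · rw [if_neg h, if_neg h]
  constructor
  · intro hb
    have : 6 * (cpV n b n : ℤ) = 0 := by
      rw [e2]
      simp [hb]
    have h2 : (cpV n b n : ℤ) = 0 := by omega
    exact_mod_cast h2
  · intro hb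
    rw [e2]
    unfold cp
    rw [card_eq_sum]
    simp [hb]

theorem pcv5 {n1 n2 : ℕ} {b : ℤ} {D : ℕ} (h2 : Sp5 n2) (h5 : 5 ∣ D)
    (hDD : (D : ℤ) = n1 * n2 - b ^ 2) :
    6 * (cpV n1 b n2 : ℤ) = (cp n1 b n2 : ℤ) + cp5 n1 b n2 := by
  have h7 : (5 : ℤ) ∣ b ^ 2 - n1 * n2 := by
    have : (5 : ℤ) ∣ (D : ℤ) := by exact_mod_cast h5
    rw [hDD] at this
    have := dvd_neg.2 this
    rwa [neg_sub] at this
  rw [six_cpV]
  unfold cp cp5
  rw [card_eq_sum, card_eq_sum, ← Finset.sum_add_distrib]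
  refine Finset.sum_congr rfl fun v hv => ?_
  rw [← Finset.sum_add_distrib]
  refine Finset.sum_congr rfl fun w hw => ?_
  by_cases h : ip v w = b
  · rw [if_pos h, ind_pair h2 (mem_vec.1 hv) (mem_vec.1 hw) (by rw [h]; exact h7), if_pos h, h]
    simp only [true_and]
  · rw [if_neg h, if_neg h, if_neg (fun h1 => h h1.1), add_zero]

/-- **PCV5** -/
theorem t_PCV5 : S_PCV5 := by
  intro n1 n2 b D hn h4 h2 hD h5 hDD
  obtain ⟨hN, h3, h1⟩ := hn
  have e := pcv5 (n1 := n1) (b := b) (h2 : Sp5 n2) h5 hDD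
  rcases hN with ⟨hs, hm⟩ | hE
  · have k := cp5_odd N878.PC21.t_PC (b := b) hs hm (h1 : Sp5 n1) (h2 : Sp5 n2) (by omega) hD h5 hDD
    have e2 : l5 n1 b D = D.factorization 5 * lr5 n1 D := by
      have h2n : ¬ 2 ∣ n1 := by omega
      unfold l5 lr5
      simp only [if_neg h2n]
      split_ifs
      · ring
      · ring
    rw [e2]
    linarith
  · have h41 : 4 ∣ n1 := by
      obtain ⟨m, rfl, -⟩ := hE
      exact dvd_mul_right 4 m
    have k := cp5_even N878.PC21.t_PCE (b := b) hE h3 (h1 : Sp5 n1) (h4 (by omega)) (h2 : Sp5 n2)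
      hD h5 hDD
    have e2 : l5 n1 b D = D.factorization 5 * lrE n1 b D := by
      have h2n : 2 ∣ n1 := by omega
      unfold l5 lrE
      simp only [if_pos h2n]
      split_ifs
      · ring
      · ring
    rw [e2]
    linarith

/-- **CP5** of `N969.RQ` -/
theorem CP5 : Pool.Agent.N969.RQ.S_CP5 := t_CP5 N878.PC21.t_PC

end Pool.Agent.N973.P15G
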