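import Pool.Agent.N973.P15G.Defs2

/-!
# P15G: the diagonal identity, `3` inert and `5` split
-/

set_option autoImplicit false

namespace Pool.Agent.N973.P15G

open Finset
open Pool.Agent.N969.P15 (V3 tw tb ep2 un WW WWe Fp)
open Pool.Agent.N969.P17G (chM)

theorem l5_odd {n : ℕ} (h : ¬ 2 ∣ n) (b b' : ℤ) (D : ℕ) : l5 n b D = l5 n b' D := by
  unfold l5
  simp only [if_neg h]

theorem pos_T {n k T : ℕ} (hn : n % 3 = 1) (hk : k = 1 ∨ k = 2) (h : 3 ∣ k * n - T) : 0 < T := by
  rcases Nat.eq_zero_or_pos T with h0 | h0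
  · exfalso
    subst h0
    rcases hk with rfl | rfl <;> omega
  · exact h0

theorem W4_one (hC : S_C2W4) (hB : S_BIL4) {n : ℕ} (hn : Nis n) :
    16 * W4 n n = ((V n).card : ℤ) ^ 2 - ce n ^ 2 := by
  rw [← hB n hn]
  congr 1
  unfold W4
  refine Finset.sum_congr rfl fun T hT => ?_
  simp only [Finset.mem_filter, Finset.mem_range] at hT
  have h0 := pos_T (k := 1) hn.2.1 (Or.inl rfl) (by rw [one_mul]; exact hT.2.2)
  have h := hC n hn 1 (Or.inl rfl) T h0 (by rw [one_mul]; exact hT.1) hT.2.1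
    (by rw [one_mul]; exact hT.2.2)
  rw [one_mul] at h
  rw [h, if_neg (by rintro ⟨h1, -⟩; omega), add_zero]

theorem W4_two (hC : S_C2W4) (hB : S_BIL4) (hB2 : S_BIL42) {n : ℕ} (hn : Nis n) :
    16 * W4 n (2 * n) = ((V (4 * n)).card : ℤ) * (V n).card -
      (if n % 15 = 1 then 1 else -1) * ce (4 * n) * ce n +
      e2 n * (((V n).card : ℤ) ^ 2 - ce n ^ 2) := by
  rw [← hB2 n hn, ← W4_one hC hB hn]
  have e : W4 n (2 * n) = ∑ T ∈ (range (2 * n)).filter (fun T => 5 ∣ T ∧ 3 ∣ 2 * n - T),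
      l5 n (2 * T - (2 * n : ℕ)) (4 * (2 * n - T) * T) + e2 n * W4 n n := by
    have h1 : W4 n (2 * n) = ∑ T ∈ (range (2 * n)).filter (fun T => 5 ∣ T ∧ 3 ∣ 2 * n - T),
        (l5 n (2 * T - (2 * n : ℕ)) (4 * (2 * n - T) * T) +
          if 2 ∣ T then (if ¬ 2 ∣ n then ep2 n * l5 n 0 ((2 * n - T) * T) else 0) else 0) := by
      unfold W4
      refine Finset.sum_congr rfl fun T hT => ?_
      simp only [Finset.mem_filter, Finset.mem_range] at hT
      have h0 := pos_T (k := 2) hn.2.1 (Or.inr rfl) hT.2.2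
      rw [hC n hn 2 (Or.inr rfl) T h0 hT.1 hT.2.1 hT.2.2]
      congr 1
      by_cases h3 : 2 ∣ T <;> by_cases h4 : 2 ∣ n <;> simp [h3, h4]
    rw [h1, Finset.sum_add_distrib]
    congr 1
    rw [← Finset.sum_filter, Finset.filter_filter]
    by_cases h2 : 2 ∣ n
    · simp [h2, e2]
    · simp only [if_pos h2]
      have he : e2 n = ep2 n := by unfold e2; rw [if_neg h2]
      rw [he, ← Finset.mul_sum]
      congr 1
      unfold W4
      refine Finset.sum_nbij' (fun T => T / 2) (fun T => 2 * T) ?_ ?_ ?_ ?_ ?_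
      · intro T hT
        simp only [Finset.mem_filter, Finset.mem_range] at hT ⊢
        omega
      · intro T hT
        simp only [Finset.mem_filter, Finset.mem_range] at hT ⊢
        omega
      · intro T hT
        simp only [Finset.mem_filter, Finset.mem_range] at hT
        show 2 * (T / 2) = T
        omega
      · intro T hT
        show 2 * T / 2 = T
        omega
      · intro T hT
        simp only [Finset.mem_filter, Finset.mem_range] at hT
        obtain ⟨t, rfl⟩ := hT.2.2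
        have e1 : 2 * t / 2 = t := by omega
        rw [e1]
        have ht : 3 ∣ n - t := by omega
        have h0 := pos_T (k := 1) hn.2.1 (Or.inl rfl) (by rw [one_mul]; exact ht)
        have h := hC n hn 1 (Or.inl rfl) t h0 (by omega) (by omega) (by rw [one_mul]; exact ht)
        rw [one_mul] at h
        rw [h, if_neg (by rintro ⟨h1, -⟩; omega), add_zero]
        have e3 : (2 * n - 2 * t) * (2 * t) = 4 * (n - t) * t := by
          rw [← Nat.mul_sub]
          ring
        rw [e3]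
        exact l5_odd h2 _ _ _
  rw [e]
  ring

/-- **DIAG4** -/
theorem t_DIAG4 (hA : S_C1A4) (hC : S_C2W4) (hB : S_BIL4) (hB2 : S_BIL42) (hH : S_HE4) :
    S_DIAG4 := by
  intro n hn
  have h15 : Nat.Coprime n 15 := by
    have h1 := hn.2.1
    have h2 := hn.2.2
    rw [show (15 : ℕ) = 3 * 5 by norm_num]
    refine Nat.Coprime.mul_right ?_ ?_
    · rw [Nat.coprime_comm]
      exact (Nat.Prime.coprime_iff_not_dvd Nat.prime_three).2 (by omega)
    · rw [Nat.coprime_comm]
      exact (Nat.Prime.coprime_iff_not_dvd Nat.prime_five).2 (by omega)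
  rw [hA n hn.1 h15]
  have h1 := W4_one hC hB hn
  have h2 := W4_two hC hB hB2 hn
  obtain ⟨h3, h4⟩ := hH n hn
  have h5 : 16 * W4 n (2 * n) = 3 * ((V n).card : ℤ) ^ 2 + ce n ^ 2 := by
    rw [h2, h3]
    linear_combination -ce n * h4
  linarith

end Pool.Agent.N973.P15G
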