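import Pool.Agent.N973.P15G.Par

/-!
# P15G: the parity of the Gross sum, `3` inert and `5` split
-/

set_option autoImplicit false

namespace Pool.Agent.N973.P15G

open Finset
open Pool.Agent.N969.P15 (V3 Ev un Qc Qe cc S_PAR S_PARE)
open Pool.Agent.N877.P21 (rr)
open Pool.Agent.N855.RQp (Val sum_val)

set_option maxRecDepth 100000 in
theorem ce_four : ce 4 = 2 := by
  decide +kernel

theorem Ng_four : Ng 4 := Or.inr ⟨1, rfl, squarefree_one, Or.inl rfl⟩

theorem par0 (hP : S_PAR) (hPE : S_PARE) {m : ℕ} (hm : Nsi m) :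
    ∃ y : ℤ, cc m = 2 ^ m.primeFactors.card * y ∧ (Odd y ↔ QQ m) := by
  obtain ⟨h | h, h3, h5⟩ := hm
  · obtain ⟨y, h1, h2⟩ := hP m ⟨h.1, by have := h.2; omega⟩
    refine ⟨y, h1, ?_⟩
    rw [h2]
    have := h.2
    unfold QQ
    constructor
    · intro h3; exact Or.inl ⟨h3, by omega⟩
    · rintro (h3 | h3)
      · exact h3.1
      · omega
  · obtain ⟨y, h1, h2⟩ := hPE m ⟨h, h3, h5⟩
    refine ⟨y, h1, ?_⟩
    rw [h2]
    obtain ⟨k, hk, -⟩ := h
    unfold QQ
    constructor
    · intro h3; exact Or.inr ⟨h3, by omega⟩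
    · rintro (h3 | h3)
      · omega
      · exact h3.1

theorem par_r4 (hR : N877.P21.S_R) (hRE : N877.P21.S_RE) {n : ℕ} (hn : Ng n) (h3 : n % 3 = 1)
    (h4 : 4 < n) :
    ∃ g : ℤ, rr n = 2 ^ (n.primeFactors.card + 1) * g ∧ (Odd g ↔ QQ n) := by
  rcases hn with h | h
  · obtain ⟨y, h1, h2⟩ := hR n h.1 h.2 h3
    refine ⟨y, h1, ?_⟩
    rw [h2]
    have := h.2
    unfold QQ
    constructor
    · intro h3; exact Or.inl ⟨h3, by omega⟩
    · rintro (h3 | h3)
      · exact h3.1
      · omega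
  · obtain ⟨y, h1, h2⟩ := hRE n h h3 h4
    refine ⟨y, h1, ?_⟩
    rw [h2]
    obtain ⟨k, hk, -⟩ := h
    unfold QQ
    constructor
    · intro h3; exact Or.inr ⟨h3, by omega⟩
    · rintro (h3 | h3)
      · omega
      · exact h3.1

theorem term_i4 (hK : S_K4) (hP : S_PAR) (hPE : S_PARE) {A m : ℕ} (hA : Aii A) (hm : Nsi m)
    (hc : Nat.Coprime A m) {y : ℤ} (hy : P A (15 * A) = (2 ^ (A.primeFactors.card + 1) * y) ^ 2)
    {x : ℤ} (hx : P A (A * m) = x ^ 2) :
    Val ((A * m).primeFactors.card + 1) x (Odd y ∧ QQ m) := by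
  obtain ⟨κ, k1, k2⟩ := hK.1 A hA
  have h3A : ¬ 3 ∣ A := by have := hA.2.1; omega
  have h5A : ¬ 5 ∣ A := by have := hA.2.2; omega
  have e1 := k1 15 N15_15 (cop15_A h3A h5A)
  have c15 : cc (15 : ℕ) = 6 := cc_fifteen
  rw [mul_comm A 15, hy, c15] at e1
  have e2 := k2 m hm hc
  obtain ⟨y', h1, h2⟩ := par0 hP hPE hm
  rw [hx, h1] at e2
  have hκ : -κ = (2 ^ A.primeFactors.card * y) ^ 2 := by
    have : 36 * (-κ) = 36 * (2 ^ A.primeFactors.card * y) ^ 2 := by
      linear_combination -e1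
    linarith
  rw [card_mul hc]
  refine val_sq (c := 3) (by decide) ?_ h2
  rw [pow_succ, pow_add]
  linear_combination e2 + 4 * (2 ^ m.primeFactors.card * y') ^ 2 * hκ

/-- the classes of the factors -/
theorem cls4 {A m : ℕ} (hn : Nis (A * m)) (hA : Ps A) (hm : Ng m) :
    jacobiSym A 15 = -1 ∨ (Aii A ∧ Nsi m) ∨ (Ass A ∧ Nis m) := by
  have h3 := hn.2.1
  have h5 := hn.2.2
  rw [Nat.mul_mod] at h3 h5
  have a3 : A % 3 < 3 := Nat.mod_lt _ (by norm_num)
  have m3 : m % 3 < 3 := Nat.mod_lt _ (by norm_num)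
  have a5 : A % 5 < 5 := Nat.mod_lt _ (by norm_num)
  have m5 : m % 5 < 5 := Nat.mod_lt _ (by norm_num)
  have hj : jacobiSym A 15 = jacobiSym ((A % 3 : ℕ) : ℤ) 3 * jacobiSym ((A % 5 : ℕ) : ℤ) 5 := by
    rw [show (15 : ℕ) = 3 * 5 by norm_num, jacobiSym.mul_right, jacobiSym.mod_left,
      jacobiSym.mod_left (A : ℤ) 5]
    push_cast
    rfl
  rw [hj]
  have key : ∀ a ∈ range 3, ∀ b ∈ range 3, (a * b) % 3 = 1 → (a = 1 ∧ b = 1) ∨ (a = 2 ∧ b = 2) := by
    decide
  have key5 : ∀ a ∈ range 5, ∀ b ∈ range 5, ((a * b) % 5 = 1 ∨ (a * b) % 5 = 4) →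
      ((a = 1 ∨ a = 4) ∧ (b = 1 ∨ b = 4)) ∨ ((a = 2 ∨ a = 3) ∧ (b = 2 ∨ b = 3)) := by
    decide
  have k3 := key (A % 3) (Finset.mem_range.2 a3) (m % 3) (Finset.mem_range.2 m3) h3
  have k5 := key5 (A % 5) (Finset.mem_range.2 a5) (m % 5) (Finset.mem_range.2 m5) h5
  rcases k3 with ⟨p1, p2⟩ | ⟨p1, p2⟩
  · rcases k5 with ⟨q1, q2⟩ | ⟨q1, q2⟩
    · exact Or.inr (Or.inr ⟨⟨hA, p1, q1⟩, hm, p2, q2⟩)
    · left
      rw [p1]
      rcases q1 with q1 | q1 <;> rw [q1] <;> norm_num
  · rcases k5 with ⟨q1, q2⟩ | ⟨q1, q2⟩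
    · left
      rw [p1]
      rcases q1 with q1 | q1 <;> rw [q1] <;> norm_num
    · exact Or.inr (Or.inl ⟨⟨hA, p1, q1⟩, hm, p2, q2⟩)

theorem sq_zero' {x : ℤ} (h : (0 : ℤ) = x ^ 2) : x = 0 :=
  pow_eq_zero_iff (two_ne_zero) |>.1 h.symm

/-- **PAR4** -/
theorem t_PAR4 (hO : S_ORT4) (hVR : S_VR) (hV : S_VAN4) (hE : S_EIS4) (hK : S_K4) (hP : S_PAR)
    (hPE : S_PARE) (hR : N877.P21.S_R) (hRE : N877.P21.S_RE) : S_PAR4 := by
  classical
  intro y z hy hz n
  induction n using Nat.strong_induction_on with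
  | _ n ih =>
  intro hn h4
  obtain ⟨x, w, hxw, hx1, hw1, hdvd⟩ := hO n hn h4
  have hn0 := Ng_pos hn.1
  set k := n.primeFactors.card with hk
  -- the terms
  have hterm : ∀ A ∈ (pA n).erase 1, Val (k + 1) (x A + w A)
      ((Aii A ∧ Nsi (n / A) ∧ Odd (y A) ∧ QQ (n / A)) ∨ (Ass A ∧ n / A = 4 ∧ Odd (z A))) := by
    intro A hA
    rw [Finset.mem_erase] at hA
    obtain ⟨hA1, hAp⟩ := hA
    obtain ⟨hx, hw⟩ := hxw A hAp
    have hAp' := hAp
    simp only [pA, Finset.mem_filter, Nat.mem_divisors] at hAp'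
    obtain ⟨⟨hAd, -⟩, hc, hPs, hNg⟩ := hAp'
    have hPs : Ps A := hPs.resolve_left hA1
    have hA0 := Ps_pos hPs
    have hmul : A * (n / A) = n := Nat.mul_div_cancel' hAd
    generalize hm : n / A = m at *
    have hcard : A.primeFactors.card + m.primeFactors.card = k := by
      rw [hk, ← hmul, card_mul hc]
    obtain ⟨v1, v2, v3⟩ := hV n A hn hAp hA1
    rcases cls4 (by rw [hmul]; exact hn) hPs hNg with h | ⟨h, hm'⟩ | ⟨h, hm'⟩
    · obtain ⟨u1, u2⟩ := v1 h
      rw [hx] at u1
      rw [hw] at u2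
      rw [sq_zero' u1.symm, sq_zero' u2.symm, add_zero]
      refine Val.zero _ ?_
      have hj : ¬ (Aii A ∨ Ass A) := by
        have e : jacobiSym A 15 = jacobiSym ((A % 3 : ℕ) : ℤ) 3 * jacobiSym ((A % 5 : ℕ) : ℤ) 5 := by
          rw [show (15 : ℕ) = 3 * 5 by norm_num, jacobiSym.mul_right, jacobiSym.mod_left,
            jacobiSym.mod_left (A : ℤ) 5]
          push_cast
          rfl
        rw [e] at h
        rintro (⟨-, p, q⟩ | ⟨-, p, q⟩)
        · rw [p] at h
          rcases q with q | q <;> rw [q] at h <;> norm_num at h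
        · rw [p] at h
          rcases q with q | q <;> rw [q] at h <;> norm_num at h
      tauto
    · have hw0 : w A = 0 := by
        have := v2 h.2.1
        rw [hw] at this
        exact sq_zero' this.symm
      rw [hw0, add_zero]
      have := term_i4 hK hP hPE h hm' hc (hy A h) (x := x A) (by rw [hmul]; exact hx)
      rw [hmul, ← hk] at this
      refine this.congr ⟨fun h1 => Or.inl ⟨h, hm', h1⟩, ?_⟩
      rintro (h1 | h1)
      · exact h1.2.2
      · exfalso
        have a1 := h.2.1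
        have a2 := h1.1.2.1
        omega
    · have hx0 : x A = 0 := by
        have h1 := v3 h.2.1
        have h2 : RR A n = 0 := by
          have := hE A m h hm' hc
          rwa [hmul] at this
        rw [h2, hx] at h1
        have : (0 : ℤ) = x A ^ 2 := by linarith
        exact sq_zero' this
      rw [hx0, zero_add]
      have hq := hK.2 A m h hm' hc
      rw [hmul, hw] at hq
      have hzA := hz A h
      have hw2 : Val (k + 1) (4 * N969.RQ.J 15 N969.RQ.o5 A 1 1 3 * ce m) (m = 4 ∧ Odd (z A)) := by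
        by_cases hm4 : m = 4
        · subst hm4
          have hc4 : ce ((4 : ℕ) : ℤ) = 2 := ce_four
          refine ⟨z A, ?_, ⟨fun h1 => ⟨rfl, h1⟩, fun h1 => h1.2⟩⟩
          have h4c : (4 : ℕ).primeFactors.card = 1 := by
            rw [show (4 : ℕ) = 2 ^ 2 by norm_num, Nat.primeFactors_prime_pow two_ne_zero
              Nat.prime_two, Finset.card_singleton]
          rw [h4c] at hcard
          rw [hc4, ← hcard, pow_succ, pow_succ]
          linear_combination 4 * hzA
        · have hm0 := Ng_pos hm'.1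
          have hm5 : 4 < m := by
            have q1 := hm'.2.1
            have q2 := hm'.2.2
            rcases Nat.lt_or_ge 4 m with h5 | h5
            · exact h5
            · exfalso
              have : m = 1 := by omega
              exact Ng_ne hm'.1 this
          have hAg : 1 < A := by omega
          have hmn : m < n := by
            calc m = 1 * m := (one_mul m).symm
              _ < A * m := Nat.mul_lt_mul_of_pos_right hAg hm0
              _ = n := hmul
          obtain ⟨c, hc1, -⟩ := ih m hmn hm' hm5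
          refine Val.of_dvd ?_ (fun h1 => hm4 h1.1)
          refine ⟨z A * c, ?_⟩
          rw [hc1, ← hcard]
          have e : (2 : ℤ) ^ (A.primeFactors.card + m.primeFactors.card + 1 + 1) =
              2 ^ A.primeFactors.card * 2 ^ m.primeFactors.card * 4 := by
            rw [pow_succ, pow_succ, pow_add]; ring
          rw [e, pow_succ]
          linear_combination 4 * 2 ^ m.primeFactors.card * c * hzA
      have hw3 : Val (k + 1) (w A) (m = 4 ∧ Odd (z A)) := by
        rcases sq_eq_sq_iff_eq_or_eq_neg.1 hq with h2 | h2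
        · rw [h2]; exact hw2
        · rw [h2]; exact hw2.neg
      refine hw3.congr ⟨fun h1 => Or.inr ⟨h, h1⟩, ?_⟩
      rintro (h1 | h1)
      · exfalso
        have a1 := h.2.1
        have a2 := h1.1.2.1
        omega
      · exact h1.2
  obtain ⟨s, hs1, hs2⟩ := sum_val hterm
  obtain ⟨g, hg1, hg2⟩ := par_r4 hR hRE hn.1 hn.2.1 h4
  have hV1 : Val (k + 1) (x 1) (QQ n) := by
    refine Val.div (m := 3) (by decide) ⟨g, ?_, hg2⟩
    rw [hx1, hVR n hn, hg1]
  obtain ⟨t, ht1, ht2⟩ := hV1
  have h1p : 1 ∈ pA n := by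
    simp only [pA, Finset.mem_filter, Nat.mem_divisors, Nat.div_one]
    exact ⟨⟨one_dvd n, hn0.ne'⟩, Nat.coprime_one_left _, Or.inl trivial, hn.1⟩
  rw [← Finset.add_sum_erase _ _ h1p, hs1, ht1, hw1] at hdvd
  obtain ⟨r, hr⟩ := hdvd
  refine ⟨2 * r - t - s, ?_, ?_⟩
  · have e : (2 : ℤ) ^ (k + 2) = 2 ^ (k + 1) * 2 := by rw [← pow_succ]
    rw [e] at hr
    linear_combination hr
  · -- the parity
    have hodd : Odd (2 * r - t - s) ↔ (¬ (Odd t ↔ Odd s)) := by
      rw [show 2 * r - t - s = (t + s) + 2 * (r - t - s) by ring, Int.odd_add]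
      have : Even (2 * (r - t - s)) := even_two_mul _
      rw [Int.odd_add]
      constructor
      · intro h h'
        have h2 := (h.2 this)
        rw [← Int.not_odd_iff_even] at h2
        tauto
      · intro h
        refine ⟨fun _ => this, fun _ => ?_⟩
        rw [← Int.not_odd_iff_even]
        tauto
    rw [hodd, ht2, hs2]
    have hcard2 : (((pA n).erase 1).filter fun A => (Aii A ∧ Nsi (n / A) ∧ Odd (y A) ∧ QQ (n / A)) ∨
        (Ass A ∧ n / A = 4 ∧ Odd (z A))).card =
        (n.divisors.filter fun A => Nat.Coprime A (n / A) ∧ Aii A ∧ Nsi (n / A) ∧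
        Odd (y A) ∧ QQ (n / A)).card +
        if n % 8 = 4 ∧ Ass (n / 4) ∧ Odd (z (n / 4)) then 1 else 0 := by
      have hu : (((pA n).erase 1).filter fun A => (Aii A ∧ Nsi (n / A) ∧ Odd (y A) ∧
          QQ (n / A)) ∨ (Ass A ∧ n / A = 4 ∧ Odd (z A))) =
          (n.divisors.filter fun A => Nat.Coprime A (n / A) ∧ Aii A ∧ Nsi (n / A) ∧
          Odd (y A) ∧ QQ (n / A)) ∪
          (if n % 8 = 4 ∧ Ass (n / 4) ∧ Odd (z (n / 4)) then {n / 4} else ∅) := by
        ext A
        simp only [pA, Finset.mem_filter, Finset.mem_erase, Finset.mem_union, Nat.mem_divisors]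
        constructor
        · rintro ⟨⟨h1, ⟨h2, h3⟩, h5, h6, h7⟩, h8 | ⟨h8, h9, h10⟩⟩
          · exact Or.inl ⟨⟨h2, h3⟩, h5, h8⟩
          · right
            have hmul : A * (n / A) = n := Nat.mul_div_cancel' h2
            rw [h9] at hmul h5
            have hA : A = n / 4 := by omega
            have hA2 : A % 2 = 1 := by
              by_contra h11
              have : 2 ∣ A := by omega
              have := Nat.dvd_gcd this (show 2 ∣ 4 by norm_num)
              rw [h5] at this
              omega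
            rw [← hA, if_pos ⟨by omega, h8, h10⟩]
            exact Finset.mem_singleton_self A
        · rintro (⟨⟨h2, h3⟩, h5, h8⟩ | h)
          · exact ⟨⟨Ps_ne h8.1.1, ⟨h2, h3⟩, h5, Or.inr h8.1.1, h8.2.1.1⟩, Or.inl h8⟩
          · split_ifs at h with h8
            · rw [Finset.mem_singleton] at h
              subst h
              have h9 : n / (n / 4) = 4 := by
                have : n = 4 * (n / 4) := by omega
                conv_lhs => rw [this]
                rw [show 4 * (n / 4) / 4 = n / 4 by omega]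
                exact Nat.mul_div_cancel 4 (by omega)
              rw [h9]
              refine ⟨⟨Ps_ne h8.2.1.1, ⟨Nat.div_dvd_of_dvd (by omega), hn0.ne'⟩, ?_,
                Or.inr h8.2.1.1, Ng_four⟩, Or.inr ⟨h8.2.1, rfl, h8.2.2⟩⟩
              have h10 : Nat.Coprime (n / 4) 2 := by
                rw [Nat.coprime_comm]
                exact (Nat.Prime.coprime_iff_not_dvd Nat.prime_two).2 (by omega)
              have := Nat.Coprime.pow_right 2 h10
              norm_num at this
              exact this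
            · exact absurd h (Finset.notMem_empty _)
      rw [hu, Finset.card_union_of_disjoint]
      · congr 1
        split_ifs
        · exact Finset.card_singleton _
        · rfl
      · rw [Finset.disjoint_left]
        intro A h1 h2
        split_ifs at h2 with h8
        · rw [Finset.mem_singleton] at h2
          subst h2
          have a1 := (Finset.mem_filter.1 h1).2.2.1.2.1
          have a2 := h8.2.1.2.1
          omega
        · exact absurd h2 (Finset.notMem_empty _)
    have hcc : Odd (((pA n).erase 1).filter fun A => (Aii A ∧ Nsi (n / A) ∧ Odd (y A) ∧ QQ (n / A)) ∨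
        (Ass A ∧ n / A = 4 ∧ Odd (z A))).card ↔ Odd ((n.divisors.filter fun A =>
        Nat.Coprime A (n / A) ∧ Aii A ∧ Nsi (n / A) ∧ Odd (y A) ∧ QQ (n / A)).card +
        if n % 8 = 4 ∧ Ass (n / 4) ∧ Odd (z (n / 4)) then 1 else 0) := by rw [hcard2]
    rw [hcc]
    rw [add_assoc]
    generalize ((n.divisors.filter fun A => Nat.Coprime A (n / A) ∧ Aii A ∧ Nsi (n / A) ∧
          Odd (y A) ∧ QQ (n / A)).card + if n % 8 = 4 ∧ Ass (n / 4) ∧ Odd (z (n / 4)) then 1 else 0) = q
    by_cases hQ : QQ n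
    · rw [if_pos hQ, add_comm 1 q, Nat.odd_add_one]
      tauto
    · rw [if_neg hQ, zero_add]
      tauto

end Pool.Agent.N973.P15G
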