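import Pool.Agent.N973.P15G.Fin0
import Pool.Agent.N973.P15G.Par4
import Pool.Agent.N973.P15G.Diag4
import Pool.Agent.N971.P15G.C1A4
import Pool.Agent.N816.PG21.Bil4
import Pool.Agent.N816.PG21.Bil4G
import Pool.Agent.N816.PG21.He4
import Pool.Agent.N871.P15G.C2
import Pool.Agent.N218.P15G.Eis4
import Pool.Agent.N218.P15G.Rqs
import Pool.Agent.N218.P15G.Lneg
import Pool.Agent.N971.B15.Fin
import Pool.Agent.N969.BJ15.Fin
import Pool.Agent.N855.RQ.Fin15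
import Pool.Agent.N855.RQ.Id15

/-!
# Project P15G: the class `(-;-1,1)`, and the constants for the classes `(+;1,1)`, `(+;0,1)`
-/

set_option autoImplicit false

open Finset

namespace Pool.Agent.N973.P15G.F

open Pool.Agent.N973.P15G
open Pool.Agent.N972.GC (CY CM)
open Pool.Agent.N974.GN (Fin15)
open Pool.Agent.N974.RQ (mA)
open Pool.Agent.Y687 (RankBSD)
open Pool.Agent.N969.P15 (un cc)
open Pool.Agent.N218.P15G.Lneg (mN)

/-- the first half of `K4` -/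
theorem K4a {A : ℕ} (hA : Aii A) : ∃ κ : ℤ, (∀ m : ℕ, N15 m → Nat.Coprime A m →
      9 * P A (A * m) = - κ * cc m ^ 2) ∧
    ∀ m : ℕ, Nsi m → Nat.Coprime A m → 9 * P A (A * m) = - (4 * κ * cc m ^ 2) := by
  obtain ⟨κ, k1, k2⟩ := u_KAPii A hA
  refine ⟨κ, k2, ?_⟩
  intro m hm hc
  have hn := Nis_ii hA hm hc
  have hmem := mem_pA hA.1 hm.1 hc
  have e1 := Pool.Agent.N816.PG15.t_BIL4G (A * m) A hn hmem
  have hA1 : A ≠ 1 := by
    rintro rfl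
    have := hA.2.1
    omega
  rw [(Pool.Agent.N871.P15G.t_VAN4 (A * m) A hn hmem hA1).2.1 hA.2.1,
    sum_l5 Pool.Agent.N871.G15.t_C2M (Or.inl ⟨hA, hm⟩) hc hn] at e1
  have e3 := kap_sum Pool.Agent.N816.PG15.t_C1M hA.1 hm.1 hc (c15_n hn) k1
  have e4 := diag0 Pool.Agent.N975.T1.s_DIAG (Pool.Agent.N975.All.s_DIAGE u_PCE) hm
  linear_combination -9 * e1 - 72 * e3 - 4 * κ * e4

theorem Nsi_l {l : ℕ} (h : Pool.Agent.N969.P15.Cls0 l) : Nsi l := by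
  refine ⟨Ng_l h, ?_, ?_⟩
  · have := h.2; omega
  · have := h.2; omega

/-- **the constants of the class `Aii`** -/
theorem u_KY15 : Pool.Agent.N855.RQp.S_KY15 := by
  intro A hA
  obtain ⟨y, h1, -, -⟩ := exists_y
  obtain ⟨κ, k1, k2⟩ := K4a hA
  refine ⟨κ, y A, ?_, ?_⟩
  · intro l hl hc hlA
    have := k2 l (Nsi_l hc) (cop_l hl hlA)
    linarith
  · have hc : Nat.Coprime A 15 := cop15_A (by have := hA.2.1; omega) (by have := hA.2.2; omega)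
    have h2 := k1 15 N15_15 hc
    have e15 : cc ((15 : ℕ) : ℤ) = 6 := cc_fifteen
    rw [mul_comm A 15, h1 A hA, e15] at h2
    have h3 : ((2 : ℤ) ^ (A.primeFactors.card + 1) * y A) ^ 2 =
        4 * (2 ^ A.primeFactors.card * y A) ^ 2 := by rw [pow_succ]; ring
    rw [h3] at h2
    linarith

/-- **the rank form of the conjecture for the classes `(+;1,1)`, `(+;0,1)`** -/
theorem rank_R15 {A : ℕ} (hA : Pool.Agent.N969.RQ.R15 A ∨ Pool.Agent.N969.RQ.R15r A)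
    (hY : CY 5 A) (hfin : Fin15 (mA A : ℤ)) :
    RankBSD (-12987 * (mA A : ℤ) ^ 2) (-263466 * (mA A : ℤ) ^ 3) :=
  Pool.Agent.N855.RQp.rank_R15 Pool.Agent.N969.BJ15.t_BILJ15c CP5 Pool.Agent.N971.B15.t_BILJ15n
    u_KY15 Pool.Agent.N855.RQp.t_ID15 hA hY hfin

theorem u_RQs : S_RQs := Pool.Agent.N218.P15G.s_RQs Pool.Agent.N969.BJ15.t_BILJ15c

theorem u_KAPss : S_KAPss := t_KAPss Pool.Agent.N975.Ph.t_SYMss Pool.Agent.N816.PG15.t_C1M
  Pool.Agent.N971.P15G.t_C2MS Pool.Agent.N974.RQ.t_C1D Pool.Agent.N975.T1.s_DIAG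
  Pool.Agent.N871.P15.s_PAR u_RQs

theorem u_EIS4 : S_EIS4 := Pool.Agent.N218.P15G.s_EIS4 Pool.Agent.N975.Ph.t_LOW0
  Pool.Agent.N816.PG15.t_C1L4 Pool.Agent.N871.G15.t_C2L4 Pool.Agent.N971.P15G.t_CNF4

theorem u_DIAG4 : S_DIAG4 := t_DIAG4 Pool.Agent.N971.P15G.t_C1A4
  Pool.Agent.N871.G15.t_C2W4 Pool.Agent.N816.PG15.t_BIL4 Pool.Agent.N816.PG15.t_BIL42
  Pool.Agent.N816.He4.t_HE4

theorem u_K4 : S_K4 := t_K4 u_KAPii u_KAPss Pool.Agent.N816.PG15.t_C1M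
  Pool.Agent.N871.G15.t_C2M Pool.Agent.N816.PG15.t_BIL4G Pool.Agent.N871.P15G.t_VAN4 u_EIS4
  Pool.Agent.N975.T1.s_DIAG (Pool.Agent.N975.All.s_DIAGE u_PCE) u_DIAG4

theorem u_PAR4 : S_PAR4 := t_PAR4 Pool.Agent.N975.Ort.t_ORT4
  Pool.Agent.N871.P15G.t_VR Pool.Agent.N871.P15G.t_VAN4 u_EIS4 u_K4
  Pool.Agent.N871.P15.s_PAR Pool.Agent.N975.All.s_PARE Pool.Agent.N693.P21.R.t_R
  Pool.Agent.N693.P21.t_RE

theorem R15_of {A : ℕ} (h : Ass A) : Pool.Agent.N969.RQ.R15 A :=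
  ⟨Fd_of h.1, h.2.1, Pool.Agent.N218.P15G.jac5p h.2.2⟩

open Classical in
/-- the normalized crossing numbers -/
theorem exists_z : ∃ z : ℕ → ℤ, ∀ A : ℕ, Ass A →
    2 * Pool.Agent.N969.RQ.J 15 Pool.Agent.N969.RQ.o5 A 1 1 3 = 2 ^ A.primeFactors.card * z A ∧
    (Odd (z A) ↔ CY 5 A) := by
  have h : ∀ A : ℕ, ∃ z : ℤ, Ass A →
      2 * Pool.Agent.N969.RQ.J 15 Pool.Agent.N969.RQ.o5 A 1 1 3 = 2 ^ A.primeFactors.card * z ∧
      (Odd z ↔ CY 5 A) := by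
    intro A
    by_cases hA : Ass A
    · obtain ⟨z, hz, hz2⟩ := Pool.Agent.N855.RQp.y15 Pool.Agent.N969.BJ15.t_BILJ15c CP5
        Pool.Agent.N971.B15.t_BILJ15n u_KY15 Pool.Agent.N855.RQp.t_ID15 (R15_of hA)
      refine ⟨z, fun _ => ⟨?_, hz2⟩⟩
      have h1 : 1 ≤ A.primeFactors.card := by
        rw [Nat.one_le_iff_ne_zero, ne_eq, card_eq_zero, Nat.primeFactors_eq_empty]
        have := (Fd_of hA.1).1
        omega
      obtain ⟨k, hk⟩ : ∃ k, A.primeFactors.card = k + 1 := ⟨A.primeFactors.card - 1, by omega⟩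
      rw [hk, Nat.add_sub_cancel] at hz
      rw [hk, hz, pow_succ]
      ring
    · exact ⟨0, fun h => absurd h hA⟩
  choose z hz using h
  exact ⟨z, hz⟩

open Classical in
/-- **the parity of the Gross sum of the class `(-;-1,1)`** -/
theorem ce_par {n : ℕ} (hn : Nis n) (h4 : 4 < n) : ∃ c : ℤ,
    ce n = 2 ^ (n.primeFactors.card + 1) * c ∧ (Odd c ↔ CM (-3) 5 n) := by
  obtain ⟨y, y1, -, y3⟩ := exists_y
  obtain ⟨z, hz⟩ := exists_z
  obtain ⟨c, hc, hc2⟩ := u_PAR4 y z y1 (fun A hA => (hz A hA).1) n hn h4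
  refine ⟨c, hc, ?_⟩
  rw [hc2, Pool.Agent.N972.GC.z4 hn h4]
  have e1 : (if QQ n then 1 else 0) = (if Pool.Agent.N972.GC.QQ n then 1 else 0) :=
    if_congr (Pool.Agent.N972.GC.QQ_iff n).symm rfl rfl
  have e2 : (n.divisors.filter fun A => Nat.Coprime A (n / A) ∧ Aii A ∧ Nsi (n / A) ∧
        Odd (y A) ∧ QQ (n / A)) = ((Pool.Agent.N969.RQ.ud n).filter fun A =>
        (Aii A ∧ Nsi (n / A)) ∧ CY (-3) A ∧ Pool.Agent.N972.GC.QQ (n / A)) := by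
    unfold Pool.Agent.N969.RQ.ud
    rw [filter_filter]
    refine filter_congr fun A _ => ?_
    constructor
    · rintro ⟨h1, h2, h3, h4, h5⟩
      exact ⟨h1, ⟨h2, h3⟩, (y3 A (Or.inl h2)).1 h4, (Pool.Agent.N972.GC.QQ_iff _).2 h5⟩
    · rintro ⟨h1, ⟨h2, h3⟩, h4, h5⟩
      exact ⟨h1, h2, h3, (y3 A (Or.inl h2)).2 h4, (Pool.Agent.N972.GC.QQ_iff _).1 h5⟩
  have e3 : (if n % 8 = 4 ∧ Ass (n / 4) ∧ Odd (z (n / 4)) then 1 else 0) =
      (if n % 8 = 4 ∧ Ass (n / 4) ∧ CY 5 (n / 4) then 1 else 0) := by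
    refine if_congr ?_ rfl rfl
    constructor
    · rintro ⟨h1, h2, h3⟩
      exact ⟨h1, h2, (hz _ h2).2.1 h3⟩
    · rintro ⟨h1, h2, h3⟩
      exact ⟨h1, h2, (hz _ h2).2.2 h3⟩
  rw [e1, e2, e3]

/-- **the rank form of the conjecture for the class `(-;-1,1)`** -/
theorem rank_Nis {n : ℕ} (hn : Nis n) (hY : CM (-3) 5 n)
    (hfin : Fin15 (-(mN n : ℤ))) :
    RankBSD (-12987 * (-(mN n : ℤ)) ^ 2) (-263466 * (-(mN n : ℤ)) ^ 3) := by
  have hce : ce n ≠ 0 := by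
    by_cases h4 : 4 < n
    · obtain ⟨c, hc, hc2⟩ := ce_par hn h4
      have := odd_ne (hc2.2 hY)
      rw [hc]
      positivity
    · have h5 : n = 4 := by
        obtain ⟨h1, h2, h3⟩ := hn
        have := Ng_pos h1
        interval_cases n <;> simp_all
        rcases h1 with ⟨-, h1⟩ | ⟨m, h1, -⟩ <;> omega
      subst h5
      have : ce ((4 : ℕ) : ℤ) = 2 := ce_four
      rw [this]
      norm_num
  refine Pool.Agent.N218.P15G.Lneg.bsd_cop hn.1 (c15_n hn) ?_ hfin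
  intro h0
  have h1 := u_DIAG4 n hn
  rw [h0, mul_zero] at h1
  exact hce (by simpa using h1.symm)

end Pool.Agent.N973.P15G.F
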