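import Pool.Agent.N973.P15G.Kap
import Mathlib.NumberTheory.LSeries.PrimesInAP

/-!
# P15G: the constants of the symbols and the values of the signed numbers of pairs
-/

set_option autoImplicit false

namespace Pool.Agent.N973.P15G

open Finset
open Pool.Agent.N969.P15 (V3 Ev tw tb un c2 chE Fp S_DIAG S_DIAGE S_PAR Cls0 Cls0e Qc cc)
open Pool.Agent.N877.P21 (ip vec rr cp loc locE loc3 loc3E)
open Pool.Agent.N218.P21 (mem_vec cs)
open Pool.Agent.N969.P17G (sgn sgnE sgp sg2 t2 gen gnE chP chM bdE)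

theorem Fd_of {A : ℕ} (h : Ps A) : N969.RQ.Fd A := by
  rcases h with ⟨h1, h2, h3⟩ | ⟨M, rfl, h1, h2⟩
  · exact ⟨h3, Or.inl ⟨h1, h2⟩⟩
  · exact ⟨by omega, Or.inr ⟨M, rfl, h1, h2⟩⟩

theorem exists_l (A : ℕ) (hA : 0 < A) : ∃ l : ℕ, Nat.Prime l ∧ Cls0 l ∧ ¬ l ∣ A := by
  have hu : IsUnit ((23 : ℕ) : ZMod 60) := (ZMod.isUnit_iff_coprime 23 60).2 (by norm_num)
  obtain ⟨l, hl, hp, hm⟩ := Nat.forall_exists_prime_gt_and_eq_mod hu A
  refine ⟨l, hp, ⟨hp.squarefree, Or.inl ?_⟩, fun h => ?_⟩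
  · have := (ZMod.natCast_eq_natCast_iff' l 23 60).1 (by exact_mod_cast hm)
    exact this
  · have := Nat.le_of_dvd hA h
    omega

theorem Qc_prime {l : ℕ} (hl : Nat.Prime l) : Qc l := by
  intro b c h _ _
  rcases (Nat.dvd_prime hl).1 (Dvd.intro c h) with h1 | h1
  · exact Or.inl h1
  · right
    subst h1
    have := hl.pos
    have h2 : b * c = b * 1 := by rw [h, mul_one]
    exact Nat.eq_of_mul_eq_mul_left this h2

theorem cc_ne (hP : S_PAR) {l : ℕ} (hl : Nat.Prime l) (h : Cls0 l) : cc l ≠ 0 := by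
  obtain ⟨y, h1, h2⟩ := hP l h
  have h3 := h2.2 (Qc_prime hl)
  rw [h1]
  apply mul_ne_zero (by positivity)
  rintro rfl
  simp at h3

theorem Ng_l {l : ℕ} (h : Cls0 l) : Ng l := Or.inl ⟨h.1, by have := h.2; omega⟩

theorem cop_l {A l : ℕ} (hl : Nat.Prime l) (h : ¬ l ∣ A) : Nat.Coprime A l := by
  rw [Nat.coprime_comm]
  exact (Nat.Prime.coprime_iff_not_dvd hl).2 h

theorem cop15_l {l : ℕ} (h : Cls0 l) : Nat.Coprime l 15 := by
  have h2 := h.2
  rw [show (15 : ℕ) = 3 * 5 by norm_num]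
  refine Nat.Coprime.mul_right ?_ ?_
  · rw [Nat.coprime_comm]
    exact (Nat.Prime.coprime_iff_not_dvd Nat.prime_three).2 (by omega)
  · rw [Nat.coprime_comm]
    exact (Nat.Prime.coprime_iff_not_dvd Nat.prime_five).2 (by omega)

theorem cop15_A {A : ℕ} (h3 : ¬ 3 ∣ A) (h5 : ¬ 5 ∣ A) : Nat.Coprime A 15 := by
  rw [show (15 : ℕ) = 3 * 5 by norm_num]
  refine Nat.Coprime.mul_right ?_ ?_
  · rw [Nat.coprime_comm]
    exact (Nat.Prime.coprime_iff_not_dvd Nat.prime_three).2 h3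
  · rw [Nat.coprime_comm]
    exact (Nat.Prime.coprime_iff_not_dvd Nat.prime_five).2 h5

theorem diag0 (h1 : S_DIAG) (h2 : S_DIAGE) {m : ℕ} (hm : Nsi m) :
    18 * ∑ u ∈ un m, chM m u * Fp u m = cc m ^ 2 := by
  obtain ⟨h | h, h3, h5⟩ := hm
  · rw [← h1 m ⟨h.1, by have := h.2; omega⟩]
    congr 1
    exact Finset.sum_congr rfl fun u _ => by rw [chM_odd h.1 h.2]
  · rw [← h2 m ⟨h, h3, h5⟩]
    congr 1
    exact Finset.sum_congr rfl fun u _ => by rw [chM_even h]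

theorem diagl (h1 : S_DIAG) {l : ℕ} (hl : Cls0 l) :
    18 * ∑ u ∈ un l, chM l u * Fp u l = cc l ^ 2 := by
  rw [← h1 l hl]
  congr 1
  exact Finset.sum_congr rfl fun u _ => by rw [chM_odd hl.1 (by have := hl.2; omega)]

/-- the sum of the divisor sums -/
def SW (A m : ℕ) : ℤ := ∑ T ∈ (range (A * m)).filter (fun T => 3 ∣ T ∧ 5 ∣ A * m - T),
  W2 A m (A * m - T) T

theorem kap_sum {A m : ℕ} {κ : ℤ} (hC1 : S_C1M) (hA : Ps A) (hm : Ng m) (hc : Nat.Coprime A m)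
    (h15 : Nat.Coprime (A * m) 15)
    (hκ : ∀ x M : ℤ, 0 < M → IsCoprime x M → IsCoprime M 15 → Fx w2 A x M = κ * Fp x M) :
    2 * SW A m = κ * ∑ u ∈ un m, chM m u * Fp u m := by
  unfold SW
  rw [← hC1 A m hA hm hc h15, Finset.mul_sum]
  refine Finset.sum_congr rfl fun u hu => ?_
  have h1 : IsCoprime (m : ℤ) 15 := by
    have := Nat.isCoprime_iff_coprime.2 (Nat.Coprime.coprime_mul_left h15)
    exact_mod_cast this
  rw [hκ u m (by exact_mod_cast Ng_pos hm) (mem_un hu) h1]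
  ring

/-- **NVii** -/
theorem t_NVii (hK : S_KAPii) (hC1 : S_C1M) (hC2 : S_C2MD) (hC1D : N969.RQ.S_C1D) (hD : S_DIAG)
    (hP : S_PAR) : S_NVii := by
  intro A hA hne
  obtain ⟨κ, k1, k2⟩ := hK A hA
  have hPs := hA.1
  have hA0 := Ps_pos hPs
  have h3A : ¬ 3 ∣ A := by have := hA.2.1; omega
  have h5A : ¬ 5 ∣ A := by have := hA.2.2; omega
  have hκ : κ ≠ 0 := by
    rintro rfl
    apply hne
    have h15 : N15 15 := ⟨Or.inl ⟨by
      rw [show (15 : ℕ) = 3 * 5 by norm_num, Nat.squarefree_mul (by norm_num)]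
      exact ⟨Nat.prime_three.squarefree, Nat.prime_five.squarefree⟩, rfl⟩, dvd_refl 15⟩
    have := k2 15 h15 (cop15_A h3A h5A)
    rw [mul_comm A 15] at this
    linarith
  obtain ⟨l, hl, hl0, hlA⟩ := exists_l A hA0
  have hl2 := hl0.2
  refine ⟨l, hl, hl0, hlA, ?_⟩
  have hcA := cop_l hl hlA
  have h15 : Nat.Coprime (A * l) 15 := Nat.Coprime.mul_left (cop15_A h3A h5A) (cop15_l hl0)
  have e1 := hC1D 5 3 A l Nat.prime_five Nat.prime_three (by norm_num) (by norm_num) (by norm_num)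
    (Fd_of hPs) hl (by omega) (by omega) (by omega) hlA h3A h5A
  have e2 : ∑ T ∈ (range (A * l)).filter (fun T => 3 ∣ T ∧ 5 ∣ A * l - T),
      N969.RQ.WD 5 3 A l (A * l - T) T = SW A l := by
    unfold SW
    refine Finset.sum_congr rfl fun T hT => ?_
    simp only [Finset.mem_filter, Finset.mem_range] at hT
    refine hC2 A l hA hl hl0 hlA T ?_ hT.1 hT.2.1 hT.2.2
    rcases Nat.eq_zero_or_pos T with h0 | h0
    · exfalso
      subst h0
      have h5 : 5 ∣ A * l := by have := hT.2.2; rwa [Nat.sub_zero] at this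
      have := Nat.Coprime.eq_one_of_dvd (Nat.Coprime.coprime_dvd_left h5 h15) (by norm_num)
      omega
    · exact h0
  have e3 := kap_sum hC1 hPs (Ng_l hl0) hcA h15 k1
  have e4 := diagl hD hl0
  rw [e1, e2, e3]
  intro h0
  have h1 := mul_eq_zero.1 h0
  rcases h1 with h1 | h1
  · exact hκ h1
  · rw [h1, mul_zero] at e4
    have := pow_eq_zero_iff (two_ne_zero) |>.1 e4.symm
    exact cc_ne hP hl hl0 this

/-- **KAPss** -/
theorem t_KAPss (hS : S_SYMss) (hC1 : S_C1M) (hC2 : S_C2MS) (hC1D : N969.RQ.S_C1D) (hD : S_DIAG)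
    (hP : S_PAR) (hR : S_RQs) : S_KAPss := by
  intro A hA
  obtain ⟨κ, k1⟩ := hS A hA
  have hPs := hA.1
  have hA0 := Ps_pos hPs
  have h3A : ¬ 3 ∣ A := by have := hA.2.1; omega
  have h5A : ¬ 5 ∣ A := by have := hA.2.2; omega
  obtain ⟨l, hl, hl0, hlA, hr⟩ := hR A hA
  have hl2 := hl0.2
  have hcA := cop_l hl hlA
  have h15 : Nat.Coprime (A * l) 15 := Nat.Coprime.mul_left (cop15_A h3A h5A) (cop15_l hl0)
  have e1 := hC1D 3 5 A l Nat.prime_three Nat.prime_five (by norm_num) (by norm_num) (by norm_num)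
    (Fd_of hPs) hl (by omega) (by omega) (by omega) hlA h5A h3A
  have hn5 : ¬ 5 ∣ A * l := by
    intro h5
    have := Nat.Coprime.eq_one_of_dvd (Nat.Coprime.coprime_dvd_left h5 h15) (by norm_num)
    omega
  have hn3 : ¬ 3 ∣ A * l := by
    intro h5
    have := Nat.Coprime.eq_one_of_dvd (Nat.Coprime.coprime_dvd_left h5 h15) (by norm_num)
    omega
  have e2 : ∑ T ∈ (range (A * l)).filter (fun T => 5 ∣ T ∧ 3 ∣ A * l - T),
      N969.RQ.WD 3 5 A l (A * l - T) T = - SW A l := by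
    unfold SW
    rw [← Finset.sum_neg_distrib]
    refine Finset.sum_nbij' (fun T => A * l - T) (fun T => A * l - T) ?_ ?_ ?_ ?_ ?_
    · intro T hT
      simp only [Finset.mem_filter, Finset.mem_range] at hT ⊢
      have h0 : T ≠ 0 := by
        rintro rfl
        exact hn3 (by simpa using hT.2.2)
      rw [Nat.sub_sub_self hT.1.le]
      exact ⟨by omega, hT.2.2, hT.2.1⟩
    · intro T hT
      simp only [Finset.mem_filter, Finset.mem_range] at hT ⊢
      have h0 : T ≠ 0 := by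
        rintro rfl
        exact hn5 (by simpa using hT.2.2)
      rw [Nat.sub_sub_self hT.1.le]
      exact ⟨by omega, hT.2.2, hT.2.1⟩
    · intro T hT
      simp only [Finset.mem_filter, Finset.mem_range] at hT
      exact Nat.sub_sub_self hT.1.le
    · intro T hT
      simp only [Finset.mem_filter, Finset.mem_range] at hT
      exact Nat.sub_sub_self hT.1.le
    · intro T hT
      simp only [Finset.mem_filter, Finset.mem_range] at hT
      have h0 : T ≠ 0 := by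
        rintro rfl
        exact hn3 (by simpa using hT.2.2)
      have h := hC2 A l hA hl hl0 hlA (A * l - T) (by omega) (by omega) hT.2.2
        (by rw [Nat.sub_sub_self hT.1.le]; exact hT.2.1)
      rw [Nat.sub_sub_self hT.1.le] at h ⊢
      exact h
  have e3 := kap_sum hC1 hPs (Ng_l hl0) hcA h15 k1
  have e4 := diagl hD hl0
  have e5 := cc_ne hP hl hl0
  rw [e1, e2] at hr
  have hκ : κ = 4 * N969.RQ.J 15 N969.RQ.o5 A 1 1 3 ^ 2 := by
    have h1 : (κ - 4 * N969.RQ.J 15 N969.RQ.o5 A 1 1 3 ^ 2) * cc l ^ 2 = 0 := by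
      linear_combination 18 * (-hr / 9) * 0 - 2 * hr - 18 * e3 - κ * e4
    rcases mul_eq_zero.1 h1 with h | h
    · linarith
    · exact absurd (pow_eq_zero_iff (two_ne_zero) |>.1 h) e5
  rw [← hκ]
  exact k1

theorem mem_pA {A m : ℕ} (hA : Ps A) (hm : Ng m) (hc : Nat.Coprime A m) : A ∈ pA (A * m) := by
  have hA0 := Ps_pos hA
  simp only [pA, Finset.mem_filter, Nat.mem_divisors, div_self_mul hA0]
  exact ⟨⟨dvd_mul_right A m, (Ng_pos (Ng_mul hA hm hc)).ne'⟩, hc, Or.inr hA, hm⟩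

theorem Nis_ii {A m : ℕ} (hA : Aii A) (hm : Nsi m) (hc : Nat.Coprime A m) : Nis (A * m) := by
  refine ⟨Ng_mul hA.1 hm.1 hc, ?_, ?_⟩
  · rw [Nat.mul_mod, hA.2.1, hm.2.1]
  · rcases hA.2.2 with h | h <;> rcases hm.2.2 with h' | h' <;> rw [Nat.mul_mod, h, h'] <;> decide

theorem Nis_ss {A m : ℕ} (hA : Ass A) (hm : Nis m) (hc : Nat.Coprime A m) : Nis (A * m) := by
  refine ⟨Ng_mul hA.1 hm.1 hc, ?_, ?_⟩
  · rw [Nat.mul_mod, hA.2.1, hm.2.1]
  · rcases hA.2.2 with h | h <;> rcases hm.2.2 with h' | h' <;> rw [Nat.mul_mod, h, h'] <;> decide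

theorem c15_n {n : ℕ} (hn : Nis n) : Nat.Coprime n 15 :=
  cop15_A (by have := hn.2.1; omega) (by have := hn.2.2; omega)

theorem sum_l5 {A m : ℕ} (hC2 : S_C2M) (h : (Aii A ∧ Nsi m) ∨ (Ass A ∧ Nis m))
    (hc : Nat.Coprime A m) (hn : Nis (A * m)) :
    ∑ T ∈ (range (A * m)).filter (fun T => 3 ∣ T ∧ 5 ∣ A * m - T),
      sg A (A * m) T * l5 (A * m) (2 * T - (A * m : ℕ)) (4 * (A * m - T) * T) = - SW A m := by
  unfold SW
  rw [← Finset.sum_neg_distrib]
  refine Finset.sum_congr rfl fun T hT => ?_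
  simp only [Finset.mem_filter, Finset.mem_range] at hT
  rw [hC2 A m h hc T ?_ hT.1 hT.2.1 hT.2.2, neg_neg]
  rcases Nat.eq_zero_or_pos T with h0 | h0
  · exfalso
    subst h0
    have h5 : 5 ∣ A * m := by have := hT.2.2; rwa [Nat.sub_zero] at this
    have := hn.2.2
    omega
  · exact h0

/-- **K4** -/
theorem t_K4 (hK : S_KAPii) (hKs : S_KAPss) (hC1 : S_C1M) (hC2 : S_C2M) (hB : S_BIL4G)
    (hV : S_VAN4) (hE : S_EIS4) (hD : S_DIAG) (hDE : S_DIAGE) (hD4 : S_DIAG4) : S_K4 := by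
  constructor
  · intro A hA
    obtain ⟨κ, k1, k2⟩ := hK A hA
    refine ⟨κ, k2, ?_⟩
    intro m hm hc
    have hn := Nis_ii hA hm hc
    have hmem := mem_pA hA.1 hm.1 hc
    have e1 := hB (A * m) A hn hmem
    have hA1 : A ≠ 1 := by
      rintro rfl
      have := hA.2.1
      omega
    rw [(hV (A * m) A hn hmem hA1).2.1 hA.2.1, sum_l5 hC2 (Or.inl ⟨hA, hm⟩) hc hn] at e1
    have e3 := kap_sum hC1 hA.1 hm.1 hc (c15_n hn) k1
    have e4 := diag0 hD hDE hm
    linear_combination -9 * e1 - 72 * e3 - 4 * κ * e4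
  · intro A m hA hm hc
    have hn := Nis_ss hA hm hc
    have hmem := mem_pA hA.1 hm.1 hc
    have e1 := hB (A * m) A hn hmem
    have hA1 : A ≠ 1 := by
      rintro rfl
      rcases hA.1 with ⟨-, -, h⟩ | ⟨M, h, -⟩ <;> omega
    have hP : P A (A * m) = 0 := by
      have h1 := (hV (A * m) A hn hmem hA1).2.2 hA.2.1
      rw [hE A m hA hm hc] at h1
      linarith
    rw [hP, sum_l5 hC2 (Or.inr ⟨hA, hm⟩) hc hn] at e1
    have e3 := kap_sum hC1 hA.1 hm.1 hc (c15_n hn) (hKs A hA)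
    have e4 := hD4 m hm
    linear_combination e1 + 8 * e3 + 16 * N969.RQ.J 15 N969.RQ.o5 A 1 1 3 ^ 2 * e4

end Pool.Agent.N973.P15G
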