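import Pool.Agent.N974.RQ.Dual
import Pool.Agent.N973.P15G.Kap2

/-!
# P15G: from the dual sum to the rank form of the conjecture, `5 ∣ A`
-/

set_option autoImplicit false

namespace Pool.Agent.N973.P15G

open Finset
open Pool.Agent.N969.P15 (un)
open Pool.Agent.N969.P17G (chP)
open Pool.Agent.N974.GN
open Pool.Agent.N975.Sym (ev act act_inv)
open Pool.Agent.N974.RQ (mA sum_odd sum_even ev_of odd_of)
open Pool.Agent.Y687 (RankBSD)

noncomputable section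

/-- the forms of discriminant `9` -/
def T9 (q : ℤ × ℤ × ℤ) : Prop :=
  q.2.1 ^ 2 - 4 * q.1 * q.2.2 = 9 ∧ (9 : ℤ) ∣ q.1 ∧ ¬ (5 : ℤ) ∣ q.1

open Classical in
/-- the weight -/
def k9 (q : ℤ × ℤ × ℤ) : ℤ := if T9 q then jacobiSym q.2.2 3 else 0

theorem k9_pos {q : ℤ × ℤ × ℤ} (h : T9 q) : k9 q = jacobiSym q.2.2 3 := by
  unfold k9
  rw [if_pos h]

theorem k9_neg {q : ℤ × ℤ × ℤ} (h : ¬ T9 q) : k9 q = 0 := by
  unfold k9
  rw [if_neg h]

theorem k9_ne {q : ℤ × ℤ × ℤ} (h : k9 q ≠ 0) : T9 q := by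
  by_contra h1
  exact h (k9_neg h1)

theorem T9_three {q : ℤ × ℤ × ℤ} (h : T9 q) : (3 : ℤ) ∣ q.2.1 := by
  obtain ⟨h1, ⟨k, hk⟩, -⟩ := h
  have h2 : (3 : ℤ) ∣ q.2.1 ^ 2 := by
    refine ⟨3 + 12 * k * q.2.2, ?_⟩
    rw [hk] at h1
    linarith
  exact Int.prime_three.dvd_of_dvd_pow h2

theorem T9_act {a b c d : ℤ} (h : a * d - b * (15 * c) = 1) {f : ℤ × ℤ × ℤ} (hf : T9 f) :
    T9 (act a b (15 * c) d f) := by
  obtain ⟨j, hj⟩ := T9_three hf
  obtain ⟨h1, ⟨k, hk⟩, h5⟩ := hf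
  unfold act T9
  simp only
  refine ⟨?_, ?_, ?_⟩
  · linear_combination (a * d - b * (15 * c)) ^ 2 * h1 + 9 * (a * d - b * (15 * c) + 1) * h
  · exact ⟨k * a ^ 2 + 5 * j * a * c + 25 * f.2.2 * c ^ 2, by rw [hk, hj]; ring⟩
  · intro h6
    apply h5
    have h7 : (5 : ℤ) ∣ f.1 * a ^ 2 := by
      have e : f.1 * a ^ 2 = (f.1 * a ^ 2 + f.2.1 * a * (15 * c) + f.2.2 * (15 * c) ^ 2) -
          5 * (3 * f.2.1 * a * c + 45 * f.2.2 * c ^ 2) := by ring
      rw [e]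
      exact h6.sub (dvd_mul_right _ _)
    have hp : Prime (5 : ℤ) := by
      have := Nat.prime_iff_prime_int.1 (by norm_num : Nat.Prime 5)
      exact_mod_cast this
    rcases hp.dvd_or_dvd h7 with h8 | h8
    · exact h8
    · exfalso
      obtain ⟨i, hi⟩ := hp.dvd_of_dvd_pow h8
      have : (5 : ℤ) ∣ 1 := ⟨i * d - 3 * b * c, by rw [← h, hi]; ring⟩
      norm_num at this

theorem T9_act_iff {a b c d : ℤ} (h : a * d - b * (15 * c) = 1) {f : ℤ × ℤ × ℤ} :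
    T9 (act a b (15 * c) d f) ↔ T9 f := by
  constructor
  · intro h1
    have h2 := T9_act (a := d) (b := -b) (c := -c) (d := a) (by linear_combination h) h1
    have e : (15 : ℤ) * -c = -(15 * c) := by ring
    rw [e, act_inv h] at h2
    exact h2
  · exact T9_act h

theorem k9_inv {a b c d : ℤ} (h : a * d - b * (15 * c) = 1) (f : ℤ × ℤ × ℤ) :
    k9 (act a b (15 * c) d f) = k9 f := by
  by_cases hf : T9 f
  · rw [k9_pos hf, k9_pos (T9_act h hf)]
    obtain ⟨j, hj⟩ := T9_three hf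
    obtain ⟨h1, ⟨k, hk⟩, h5⟩ := hf
    unfold act
    simp only
    have e : f.1 * b ^ 2 + f.2.1 * b * d + f.2.2 * d ^ 2 =
        f.2.2 * d ^ 2 + 3 * (3 * k * b ^ 2 + j * b * d) := by rw [hk, hj]; ring
    have e2 : (f.1 * b ^ 2 + f.2.1 * b * d + f.2.2 * d ^ 2) % (3 : ℕ) =
        (f.2.2 * d ^ 2) % (3 : ℕ) := by
      rw [e]
      push_cast
      omega
    rw [jacobiSym.mod_left, e2, ← jacobiSym.mod_left, jacobiSym.mul_left]
    have h3 : jacobiSym (d ^ 2) 3 = 1 := by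
      apply jacobiSym.sq_one'
      rw [← Int.isCoprime_iff_gcd_eq_one]
      exact ⟨a, -(5 * b * c), by push_cast; linear_combination h⟩
    rw [h3, mul_one]
  · rw [k9_neg hf, k9_neg (fun h1 => hf ((T9_act_iff h).1 h1))]

theorem wt_k9 : Wt 15 9 k9 where
  ne := by norm_num
  disc := fun f hf => (k9_ne hf).1
  inv := fun h f => k9_inv h f
  ninf := by
    intro f h0
    refine k9_neg fun hf => hf.2.2 ?_
    rw [h0]
    exact dvd_zero _

theorem jac3_neg (x : ℤ) : jacobiSym (-x) 3 = - jacobiSym x 3 := by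
  rw [← neg_one_mul, jacobiSym.mul_left, show jacobiSym (-1) 3 = -1 by norm_num]
  ring

theorem par_k9 : Par k9 (-1) := by
  intro a b c
  have hiff : T9 (-a, b, -c) ↔ T9 (a, b, c) := by
    unfold T9
    simp only [dvd_neg]
    have : b ^ 2 - 4 * -a * -c = b ^ 2 - 4 * a * c := by ring
    rw [this]
  by_cases hf : T9 (a, b, c)
  · rw [k9_pos hf, k9_pos (hiff.2 hf)]
    simp only
    rw [jac3_neg]
    ring
  · rw [k9_neg hf, k9_neg (fun h1 => hf (hiff.1 h1)), mul_zero]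

theorem nz_k9 : NZ k9 1 5 := by
  intro f h0
  refine k9_neg fun hf => hf.2.2 ?_
  refine ⟨-(f.2.1 + f.2.2 * 5), ?_⟩
  unfold ev at h0
  linear_combination h0

theorem X_k9 (x M : ℤ) : X k9 x M = 4 * Fd x M := by
  classical
  have e : (∑ᶠ f : ℤ × ℤ × ℤ, if 0 < f.1 ∧ ev f x M < 0 then k9 f - k9 (-f) else 0) =
      2 * Fd x M := by
    unfold Fd
    rw [mul_finsum]
    apply finsum_congr
    intro f
    have hev : f.1 * x ^ 2 + f.2.1 * x * M + f.2.2 * M ^ 2 = ev f x M := rfl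
    rw [hev]
    have hk : k9 (-f) = - k9 f := by
      have hiff : T9 (-f) ↔ T9 f := by
        unfold T9
        simp only [Prod.fst_neg, Prod.snd_neg, dvd_neg]
        have : (-f.2.1) ^ 2 - 4 * -f.1 * -f.2.2 = f.2.1 ^ 2 - 4 * f.1 * f.2.2 := by ring
        rw [this]
      by_cases hf : T9 f
      · rw [k9_pos hf, k9_pos (hiff.2 hf)]
        simp only [Prod.snd_neg]
        rw [jac3_neg]
      · rw [k9_neg hf, k9_neg (fun h1 => hf (hiff.1 h1)), neg_zero]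
    by_cases hc : 0 < f.1 ∧ ev f x M < 0
    · rw [if_pos hc, hk]
      by_cases h1 : T9 f
      · rw [k9_pos h1, if_pos ⟨h1.1, h1.2.1, h1.2.2, hc⟩]
        ring
      · rw [k9_neg h1, if_neg (fun h => h1 ⟨h.1, h.2.1, h.2.2.1⟩)]
        ring
    · rw [if_neg hc, if_neg (fun h => hc h.2.2.2), mul_zero]
  rw [X_pos wt_k9 x M, e]
  ring

/-- **the class `Aio`: from the dual sum to the rank form of the conjecture** -/
theorem bsd_io {A : ℕ} (hA : Aio A) (hne : ∑ u ∈ un A, chP A u * Fd u A ≠ 0)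
    (hfin : Fin15 (mA A : ℤ)) :
    RankBSD (-12987 * (mA A : ℤ) ^ 2) (-263466 * (mA A : ℤ) ^ 3) := by
  have hF := Fd_of hA.1
  have h3 : ¬ 3 ∣ A := by have := hA.2.1; omega
  have hg : Nat.gcd 5 15 = Nat.gcd A 15 := gcd_r (p := 5) (q := 3) (N := 15) rfl Nat.prime_three
    hA.2.2 h3
  have hX : ∀ χ : ℕ → ℤ, ∑ u ∈ un A, χ u * Fd u A ≠ 0 → ∑ u ∈ un A, χ u * X k9 u A ≠ 0 := by
    intro χ h h1
    apply h
    have : ∑ u ∈ un A, χ u * X k9 u A = 4 * ∑ u ∈ un A, χ u * Fd u A := by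
      rw [Finset.mul_sum]
      refine Finset.sum_congr rfl fun u _ => ?_
      rw [X_k9]
      ring
    rw [this] at h1
    omega
  by_cases h2 : 2 ∣ A
  · have e : mA A = A / 4 := by unfold mA; rw [if_pos h2]
    rw [e] at hfin ⊢
    exact bsd15_E (ev_of hF h2) wt_k9 par_k9 (m₀ := 5) (x₀ := 1) (by norm_num) isCoprime_one_left
      hg nz_k9 (sum_even hF h2 (F := fun u => X k9 u A) (hX _ hne)) hfin
  · have e : mA A = A := by unfold mA; rw [if_neg h2]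
    rw [e] at hfin ⊢
    obtain ⟨h4, h5⟩ := odd_of hF h2
    exact bsd15_O h4 h5 hF.1 wt_k9 par_k9 (m₀ := 5) (x₀ := 1) (by norm_num) isCoprime_one_left
      hg nz_k9 (sum_odd hF h2 (F := fun u => X k9 u A) (hX _ hne)) hfin

end

end Pool.Agent.N973.P15G
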