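import Pool.Agent.N969.P15.Defs2

/-!
# P15: the Gross sums of the norms `3` and `15`
-/

set_option autoImplicit false

namespace Pool.Agent.N973.P15G

open Finset
open Pool.Agent.N969.P15

theorem mem_vecP {n : ℤ} {v : V3} (h : v ∈ vec n) : v 0 ^ 2 ≤ n ∧ 3 * v 1 ^ 2 ≤ n ∧
    3 * v 2 ^ 2 ≤ n := by
  have h1 := (Finset.mem_filter.1 h).2
  have e : ip v v = (v 0 - v 1) ^ 2 + (v 0 - v 2) ^ 2 + v 0 ^ 2 + 3 * v 1 ^ 2 + 3 * v 2 ^ 2 +
      3 * (v 1 - v 2) ^ 2 := by
    unfold ip; ring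
  rw [e] at h1
  refine ⟨?_, ?_, ?_⟩ <;> nlinarith [sq_nonneg (v 0 - v 1), sq_nonneg (v 0 - v 2), sq_nonneg (v 0),
    sq_nonneg (v 1), sq_nonneg (v 2), sq_nonneg (v 1 - v 2)]

theorem vec15 : vec 15 = (Fintype.piFinset fun _ : Fin 3 => Icc (-3 : ℤ) 3).filter
    fun v => ip v v = 15 := by
  ext v
  constructor
  · intro h
    obtain ⟨h1, h2, h3⟩ := mem_vecP h
    rw [Finset.mem_filter, Fintype.mem_piFinset]
    refine ⟨fun i => ?_, (Finset.mem_filter.1 h).2⟩
    rw [Finset.mem_Icc]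
    fin_cases i
    · change -3 ≤ v 0 ∧ v 0 ≤ 3
      constructor <;> nlinarith
    · change -3 ≤ v 1 ∧ v 1 ≤ 3
      constructor <;> nlinarith
    · change -3 ≤ v 2 ∧ v 2 ≤ 3
      constructor <;> nlinarith
  · intro h
    rw [Finset.mem_filter, Fintype.mem_piFinset] at h
    unfold vec
    rw [Finset.mem_filter, Fintype.mem_piFinset]
    refine ⟨fun i => ?_, h.2⟩
    have := h.1 i
    rw [Finset.mem_Icc] at this ⊢
    omega

set_option maxRecDepth 100000 in
theorem cc_three : cc 3 = -6 := by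
  have h1 : (vec 3).card = 2 := by decide +kernel
  have h2 : ((vec 3).filter fun v => (3 : ℤ) ∣ v 1 + v 2).card = 2 := by decide +kernel
  unfold cc rr rr0
  rw [h1, h2]
  norm_num

set_option maxRecDepth 100000 in
theorem cc_fifteen : cc 15 = 6 := by
  have h1 : ((Fintype.piFinset fun _ : Fin 3 => Icc (-3 : ℤ) 3).filter
    fun v => ip v v = 15).card = 6 := by decide +kernel
  have h2 : (((Fintype.piFinset fun _ : Fin 3 => Icc (-3 : ℤ) 3).filter
    fun v => ip v v = 15).filter fun v => (3 : ℤ) ∣ v 1 + v 2).card = 0 := by decide +kernel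
  unfold cc rr rr0
  rw [vec15, h1, h2]
  norm_num

end Pool.Agent.N973.P15G
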