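import Pool.Agent.N973.P15G.Par
import Pool.Agent.N973.P15G.FdW
import Pool.Agent.N973.P15G.Kap2
import Pool.Agent.N973.P15G.Small
import Pool.Agent.N975.Ph.L15
import Pool.Agent.N975.Ph.Ort15
import Pool.Agent.N975.AllPC
import Pool.Agent.N575.P15.PCE
import Pool.Agent.N971.P15G.C1
import Pool.Agent.N971.P15G.Cnf
import Pool.Agent.N971.P15G.C2m
import Pool.Agent.N816.PG21.C15
import Pool.Agent.N871.P15G.C2b
import Pool.Agent.N871.P15G.Van2
import Pool.Agent.N218.P15G.Eis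
import Pool.Agent.N974.RQ.C1D
import Pool.Agent.N974.RQ.Dual
import Pool.Agent.N693.P21.R3b
import Pool.Agent.N693.P21.K4
import Pool.Agent.N972.GC.Lv15b

/-!
# Project P15G: the classes `(+;-1,-1)` and `(+;-1,0)`, everything unconditional
-/

set_option autoImplicit false

open Finset

namespace Pool.Agent.N973.P15G.F

open Pool.Agent.N973.P15G
open Pool.Agent.N972.GC (CY)
open Pool.Agent.N974.GN (Fin15)
open Pool.Agent.N974.RQ (mA)
open Pool.Agent.Y687 (RankBSD)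
open Pool.Agent.N969.P15 (un)
open Pool.Agent.N969.P17G (chP)

theorem u_PCE : Pool.Agent.N969.P15.S_PCE := Pool.Agent.N575.P15.PCE.t_PCE

theorem u_PC5E : Pool.Agent.N973.P15.S_PC5E := Pool.Agent.N575.P15.PCE.t_PC5E

theorem u_EIS : S_EIS := Pool.Agent.N218.P15G.s_EIS Pool.Agent.N975.Ph.t_LOW

theorem u_VAN : S_VAN := Pool.Agent.N871.P15G.t_VAN u_EIS

theorem u_KAPii : S_KAPii := t_KAPii Pool.Agent.N975.Ph.t_SYMii Pool.Agent.N971.P15G.t_C1
  Pool.Agent.N871.G15.t_C2ii Pool.Agent.N871.P15G.t_VANR Pool.Agent.N975.All.s_DIAG15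
  (Pool.Agent.N975.All.s_DIAG15E u_PC5E)

theorem u_KAPio : S_KAPio := t_KAPio Pool.Agent.N975.Ph.t_SYMio Pool.Agent.N971.P15G.t_C1
  Pool.Agent.N871.G15.t_C2io Pool.Agent.N971.P15G.t_CNF Pool.Agent.N975.All.s_DIAG3
  (Pool.Agent.N975.All.s_DIAG3E u_PCE)

theorem u_PARn : S_PARn := t_PARn Pool.Agent.N975.Ort.t_ORT u_KAPii u_KAPio u_VAN
  Pool.Agent.N871.P15G.t_VANX Pool.Agent.N871.P15G.t_VANR u_EIS Pool.Agent.N218.P15.s_PARA3
  Pool.Agent.N218.P15.s_PARA3E Pool.Agent.N218.P15.s_PARA5 Pool.Agent.N218.P15.s_PARA5E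
  Pool.Agent.N693.P21.R3.t_R3 Pool.Agent.N693.P21.K.t_R3E

theorem u_DUAL : S_DUAL := t_DUAL Pool.Agent.N971.P15G.t_C1D Pool.Agent.N871.G15.t_C2D
  Pool.Agent.N871.P15G.t_VANR

theorem u_NVii : S_NVii := t_NVii u_KAPii Pool.Agent.N816.PG15.t_C1M Pool.Agent.N971.P15G.t_C2MD
  Pool.Agent.N974.RQ.t_C1D Pool.Agent.N975.T1.s_DIAG Pool.Agent.N871.P15.s_PAR

open Classical in
/-- **the normalized square roots and their parity** -/
theorem exists_y : ∃ y : ℕ → ℤ,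
    (∀ A : ℕ, Aii A → P A (15 * A) = (2 ^ (A.primeFactors.card + 1) * y A) ^ 2) ∧
    (∀ A : ℕ, Aio A → P A (3 * A) = (2 ^ A.primeFactors.card * y A) ^ 2) ∧
    ∀ A : ℕ, (Aii A ∨ Aio A) → (Odd (y A) ↔ CY (-3) A) := by
  obtain ⟨y, h1, h2, h3⟩ := u_PARn
  refine ⟨y, h1, h2, ?_⟩
  apply Pool.Agent.N972.GC.par15
  intro n hn
  rw [Pool.Agent.N972.GC.QQ_iff]
  simp only [Pool.Agent.N972.GC.QQ_iff]
  exact h3 n hn

theorem odd_ne {y : ℤ} (h : Odd y) : y ≠ 0 := by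
  rintro rfl
  exact absurd h (by decide)

theorem aux53 {l : ℕ} (hl : l.Prime) (h : Pool.Agent.N969.P15.Cls0 l) :
    Pool.Agent.N974.GN.Aux 5 3 l := by
  have h3 := h
  unfold Pool.Agent.N969.P15.Cls0 at h3
  refine ⟨hl.squarefree, ?_, by norm_num, by norm_num, by norm_num, by norm_num, by norm_num,
    ?_, ?_⟩ <;> omega

/-- **the rank form of the conjecture for the class `(+;-1,-1)`** -/
theorem rank_Aii {A : ℕ} (hA : Aii A) (hY : CY (-3) A) (hfin : Fin15 (mA A : ℤ)) :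
    RankBSD (-12987 * (mA A : ℤ) ^ 2) (-263466 * (mA A : ℤ) ^ 3) := by
  obtain ⟨y, h1, -, h3⟩ := exists_y
  have hy := odd_ne ((h3 A (Or.inl hA)).2 hY)
  have hP : P A (15 * A) ≠ 0 := by
    rw [h1 A hA]
    positivity
  obtain ⟨l, hl, hc, -, hs⟩ := u_NVii A hA hP
  exact Pool.Agent.N974.RQ.bsd15 (by norm_num) (aux53 hl hc) hl (Fd_of hA.1)
    (by have := hA.2.2; omega) (by have := hA.2.1; omega) hs hfin

/-- **the rank form of the conjecture for the class `(+;-1,0)`** -/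
theorem rank_Aio {A : ℕ} (hA : Aio A) (hY : CY (-3) A) (hfin : Fin15 (mA A : ℤ)) :
    RankBSD (-12987 * (mA A : ℤ) ^ 2) (-263466 * (mA A : ℤ) ^ 3) := by
  obtain ⟨y, -, h2, h3⟩ := exists_y
  have hy := odd_ne ((h3 A (Or.inr hA)).2 hY)
  refine bsd_io hA ?_ hfin
  intro h0
  have h4 := u_DUAL A hA
  rw [h0, mul_zero, h2 A hA] at h4
  have h5 : (2 ^ A.primeFactors.card * y A) ^ 2 ≠ 0 := by positivity
  exact h5 h4.symm

end Pool.Agent.N973.P15G.F
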