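import Pool.Agent.N973.P15G.Kap2
import Pool.Agent.N973.P15G.Small
import Pool.Agent.N855.RQ.Pc

/-!
# P15G: integrality and parity of the normalized square roots
-/

set_option autoImplicit false

namespace Pool.Agent.N973.P15G

open Finset
open Pool.Agent.N969.P15 (V3 Ev un Qc Qe cc)
open Pool.Agent.N877.P21 (rr)
open Pool.Agent.N973.P15 (S_PARA3 S_PARA3E S_PARA5 S_PARA5E Cl3 Cl3e Cl15 Cl15e)
open Pool.Agent.N855.RQp (Val sum_val)

/-- the normalized square root -/
def Yv (A : ℕ) (y : ℤ) : Prop :=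
  (Aii A → P A (15 * A) = (2 ^ (A.primeFactors.card + 1) * y) ^ 2) ∧
  (Aio A → P A (3 * A) = (2 ^ A.primeFactors.card * y) ^ 2)

/-- the pairs which contribute -/
def good (n A : ℕ) : Prop := (Aii A ∧ N15 (n / A)) ∨ (Aio A ∧ N3 (n / A))

theorem Ps_ne {A : ℕ} (h : Ps A) : A ≠ 1 := by
  rintro rfl
  rcases h with ⟨-, -, h⟩ | ⟨M, h, -⟩ <;> omega

theorem Ng_ne {A : ℕ} (h : Ng A) : A ≠ 1 := by
  rintro rfl
  rcases h with ⟨-, h⟩ | ⟨M, h, -⟩ <;> omega

theorem ii_io {A : ℕ} (h : Aii A) : ¬ Aio A := by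
  rintro ⟨-, -, h5⟩
  have := h.2.2
  omega

theorem good_Ps {n A : ℕ} (h : good n A) : Ps A := by
  rcases h with h | h
  · exact h.1.1
  · exact h.1.1

theorem good_mod {n A : ℕ} (h : good n A) : A % 3 = 2 := by
  rcases h with h | h
  · exact h.1.2.1
  · exact h.1.2.1

theorem card_mul {a b : ℕ} (h : Nat.Coprime a b) :
    (a * b).primeFactors.card = a.primeFactors.card + b.primeFactors.card := by
  rw [h.primeFactors_mul, Finset.card_union_of_disjoint h.disjoint_primeFactors]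

theorem card_three : (3 : ℕ).primeFactors.card = 1 := by
  rw [Nat.prime_three.primeFactors, Finset.card_singleton]

theorem card_fifteen : (15 : ℕ).primeFactors.card = 2 := by
  rw [show (15 : ℕ) = 3 * 5 by norm_num, card_mul (by norm_num), card_three,
    Nat.prime_five.primeFactors, Finset.card_singleton]

/-- from the squares to the values -/
theorem val_sq {k : ℕ} {c x y y' : ℤ} {e : Prop} (hc : Odd c)
    (h : (c * x) ^ 2 = (2 ^ k * (y * y')) ^ 2) (he : Odd y' ↔ e) : Val k x (Odd y ∧ e) := by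
  have h1 : Val k (2 ^ k * (y * y')) (Odd y ∧ e) :=
    ⟨y * y', rfl, by rw [Int.odd_mul, he]⟩
  refine Val.div hc ?_
  rcases sq_eq_sq_iff_eq_or_eq_neg.1 h with h2 | h2
  · rw [h2]; exact h1
  · rw [h2]; exact h1.neg

theorem par5 (h5 : S_PARA5) (h5e : S_PARA5E) {m : ℕ} (hm : N15 m) :
    ∃ y : ℤ, cc m = 2 ^ (m.primeFactors.card - 1) * y ∧ (Odd y ↔ QQ m) := by
  obtain ⟨h | h, h15⟩ := hm
  · obtain ⟨y, h1, h2⟩ := h5 m (Or.inl ⟨h.1, h.2, by omega, by omega⟩)
    refine ⟨y, h1, ?_⟩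
    rw [h2]
    have := h.2
    unfold QQ
    constructor
    · intro h3; exact Or.inl ⟨h3, by omega⟩
    · rintro (h3 | h3)
      · exact h3.1
      · omega
  · obtain ⟨y, h1, h2⟩ := h5e m (Or.inl ⟨h, by omega, by omega⟩)
    refine ⟨y, h1, ?_⟩
    rw [h2]
    obtain ⟨k, hk, -⟩ := h
    unfold QQ
    constructor
    · intro h3; exact Or.inr ⟨h3, by omega⟩
    · rintro (h3 | h3)
      · omega
      · exact h3.1

theorem par3 (h3 : S_PARA3) (h3e : S_PARA3E) {m : ℕ} (hm : N3 m) :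
    ∃ y : ℤ, cc m = 2 ^ m.primeFactors.card * y ∧ (Odd y ↔ QQ m) := by
  obtain ⟨h | h, hd, h5⟩ := hm
  · rcases Nat.lt_or_ge 3 m with hlt | hge
    · obtain ⟨y, h1, h2⟩ := h3 m ⟨h.1, h.2, hd, h5⟩ hlt
      refine ⟨y, h1, ?_⟩
      rw [h2]
      have := h.2
      unfold QQ
      constructor
      · intro h3; exact Or.inl ⟨h3, by omega⟩
      · rintro (h3 | h3)
        · exact h3.1
        · omega
    · have hm3 : m = 3 := by
        have := h.2
        omega
      subst hm3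
      refine ⟨-3, ?_, ?_⟩
      · rw [card_three]
        have := cc_three
        push_cast
        rw [this]
      · constructor
        · intro _
          exact Or.inl ⟨Qc_prime Nat.prime_three, by norm_num⟩
        · intro _
          decide
  · obtain ⟨y, h1, h2⟩ := h3e m ⟨h, hd, h5⟩
    refine ⟨y, h1, ?_⟩
    rw [h2]
    obtain ⟨k, hk, -⟩ := h
    unfold QQ
    constructor
    · intro h3; exact Or.inr ⟨h3, by omega⟩
    · rintro (h3 | h3)
      · omega
      · exact h3.1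

theorem par_rr (hR : N877.P21.S_R3) (hRE : N877.P21.S_R3E) {n : ℕ} (hn : Ng n) (h3 : 3 ∣ n) :
    ∃ g : ℤ, rr n = 2 ^ n.primeFactors.card * g ∧ (Odd g ↔ QQ n) := by
  rcases hn with h | h
  · obtain ⟨y, h1, h2⟩ := hR n h.1 h.2 h3
    refine ⟨y, h1, ?_⟩
    rw [h2]
    have := h.2
    unfold QQ
    constructor
    · intro h3; exact Or.inl ⟨h3, by omega⟩
    · rintro (h3 | h3)
      · exact h3.1
      · omega
  · obtain ⟨y, h1, h2⟩ := hRE n h h3
    refine ⟨y, h1, ?_⟩
    rw [h2]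
    obtain ⟨k, hk, -⟩ := h
    unfold QQ
    constructor
    · intro h3; exact Or.inr ⟨h3, by omega⟩
    · rintro (h3 | h3)
      · omega
      · exact h3.1

theorem N15_15 : N15 15 := ⟨Or.inl ⟨by
  rw [show (15 : ℕ) = 3 * 5 by norm_num, Nat.squarefree_mul (by norm_num)]
  exact ⟨Nat.prime_three.squarefree, Nat.prime_five.squarefree⟩, rfl⟩, dvd_refl 15⟩

theorem N3_3 : N3 3 := ⟨Or.inl ⟨Nat.prime_three.squarefree, rfl⟩, dvd_refl 3, Or.inr rfl⟩

theorem term_ii (hK : S_KAPii) (h5 : S_PARA5) (h5e : S_PARA5E) {A m : ℕ} (hA : Aii A) (hm : N15 m)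
    (hc : Nat.Coprime A m) {y : ℤ} (hy : P A (15 * A) = (2 ^ (A.primeFactors.card + 1) * y) ^ 2)
    {x : ℤ} (hx : P A (A * m) = x ^ 2) :
    Val ((A * m).primeFactors.card - 1) x (Odd y ∧ QQ m) := by
  obtain ⟨κ, -, k2⟩ := hK A hA
  have h3A : ¬ 3 ∣ A := by have := hA.2.1; omega
  have h5A : ¬ 5 ∣ A := by have := hA.2.2; omega
  have e1 := k2 15 N15_15 (cop15_A h3A h5A)
  have c15 : cc (15 : ℕ) = 6 := cc_fifteen
  rw [mul_comm A 15, hy, c15] at e1
  have e2 := k2 m hm hc
  obtain ⟨y', h1, h2⟩ := par5 h5 h5e hm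
  rw [hx, h1] at e2
  have hκ : -κ = (2 ^ A.primeFactors.card * y) ^ 2 := by
    have : 36 * (-κ) = 36 * (2 ^ A.primeFactors.card * y) ^ 2 := by
      linear_combination -e1
    linarith
  have hpos : 0 < m.primeFactors.card := by
    rw [Finset.card_pos]
    exact ⟨3, Nat.mem_primeFactors.2 ⟨Nat.prime_three, dvd_trans (by norm_num) hm.2,
      (Ng_pos hm.1).ne'⟩⟩
  rw [card_mul hc]
  refine val_sq (c := 3) (by decide) ?_ h2
  have e3 : A.primeFactors.card + m.primeFactors.card - 1 =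
      A.primeFactors.card + (m.primeFactors.card - 1) := by omega
  rw [e3, pow_add]
  linear_combination e2 + (2 ^ (m.primeFactors.card - 1) * y') ^ 2 * hκ

theorem term_io (hK : S_KAPio) (h3 : S_PARA3) (h3e : S_PARA3E) {A m : ℕ} (hA : Aio A) (hm : N3 m)
    (hc : Nat.Coprime A m) {y : ℤ} (hy : P A (3 * A) = (2 ^ A.primeFactors.card * y) ^ 2)
    {x : ℤ} (hx : P A (A * m) = x ^ 2) :
    Val ((A * m).primeFactors.card - 1) x (Odd y ∧ QQ m) := by
  obtain ⟨κ, k2⟩ := hK A hA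
  have h3A : ¬ 3 ∣ A := by have := hA.2.1; omega
  have hc3 : Nat.Coprime A 3 := by
    rw [Nat.coprime_comm]
    exact (Nat.Prime.coprime_iff_not_dvd Nat.prime_three).2 h3A
  have e1 := k2 3 N3_3 hc3
  have c3 : cc (3 : ℕ) = -6 := cc_three
  rw [mul_comm A 3, hy, c3] at e1
  have e2 := k2 m hm hc
  obtain ⟨y', h1, h2⟩ := par3 h3 h3e hm
  rw [hx, h1] at e2
  have hκ : 2 * (-κ) = (2 ^ A.primeFactors.card * y) ^ 2 := by linarith
  have hpos : 0 < m.primeFactors.card := by
    rw [Finset.card_pos]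
    exact ⟨3, Nat.mem_primeFactors.2 ⟨Nat.prime_three, hm.2.1, (Ng_pos hm.1).ne'⟩⟩
  rw [card_mul hc]
  refine val_sq (c := 3) (by decide) ?_ h2
  have e3 : A.primeFactors.card + m.primeFactors.card - 1 =
      A.primeFactors.card + (m.primeFactors.card - 1) := by omega
  obtain ⟨w, hw⟩ : ∃ w, m.primeFactors.card = w + 1 := ⟨m.primeFactors.card - 1, by omega⟩
  rw [e3, pow_add]
  rw [hw] at e2 ⊢
  rw [Nat.add_sub_cancel]
  rw [pow_succ] at e2
  have : 4 * (3 * x) ^ 2 = 4 * (2 ^ A.primeFactors.card * 2 ^ w * (y * y')) ^ 2 := by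
    linear_combination 2 * e2 + (2 ^ w * 2 * y') ^ 2 * hκ
  linarith

/-- the terms which vanish -/
theorem term_zero (hV : S_VAN) (hX : S_VANX) (hR : S_VANR) (hE : S_EIS) {n A : ℕ} (hn : N15 n)
    (hU : Ud n A) (h3 : ¬ 3 ∣ A) (h1 : A ≠ 1) (hg : ¬ good n A) : P A n = 0 := by
  by_cases hP : Ps A
  swap
  · exact hX n A hn hU h3 h1 (Or.inl hP)
  by_cases hN : Ng (n / A)
  swap
  · exact hX n A hn hU h3 h1 (Or.inr hN)
  have hA0 := Ps_pos hP
  have hn3 : 3 ∣ n := dvd_trans (by norm_num) hn.2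
  have hn5 : 5 ∣ n := dvd_trans (by norm_num) hn.2
  have hmul : A * (n / A) = n := Nat.mul_div_cancel' hU.1
  have h3m : 3 ∣ n / A := by
    rw [← hmul] at hn3
    exact (Nat.prime_three.dvd_mul.1 hn3).resolve_left h3
  rcases (show A % 3 = 1 ∨ A % 3 = 2 by omega) with h | h
  · have := (hR n A hn hU h3 hN).2 h
    rw [hE n A hn hU hP hN h] at this
    linarith
  · by_cases h5 : 5 ∣ A
    · have h5m : ¬ 5 ∣ n / A := by
        intro h5m
        have := Nat.dvd_gcd h5 h5m
        rw [hU.2] at this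
        omega
      by_cases h6 : (n / A) % 5 = 1 ∨ (n / A) % 5 = 4
      · exact hV n A hn hU h3 (Or.inr (Or.inr ⟨h5, h6⟩)) h1
      · exfalso
        exact hg (Or.inr ⟨⟨hP, h, h5⟩, hN, h3m, by omega⟩)
    · have h5m : 5 ∣ n / A := by
        rw [← hmul] at hn5
        exact (Nat.prime_five.dvd_mul.1 hn5).resolve_left h5
      by_cases h6 : A % 5 = 2 ∨ A % 5 = 3
      · exfalso
        exact hg (Or.inl ⟨⟨hP, h, h6⟩, hN, by omega⟩)
      · refine hV n A hn hU h3 (Or.inr (Or.inl ⟨h5, ?_⟩)) h1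
        rw [show (15 : ℕ) = 3 * 5 by norm_num, jacobiSym.mul_right, jacobiSym.mod_left,
          jacobiSym.mod_left (A : ℤ) 5]
        have e1 : (A : ℤ) % (3 : ℕ) = 2 := by push_cast; omega
        rw [e1]
        rcases (show A % 5 = 1 ∨ A % 5 = 4 by omega) with h7 | h7
        · have e2 : (A : ℤ) % (5 : ℕ) = 1 := by push_cast; omega
          rw [e2]
          norm_num
        · have e2 : (A : ℤ) % (5 : ℕ) = 4 := by push_cast; omega
          rw [e2]
          norm_num

/-- the index set -/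
def In (n : ℕ) : Finset ℕ := (n / 3).divisors.filter (fun A => Nat.Coprime A (n / A))

theorem nine {n : ℕ} (hn : Ng n) : ¬ 9 ∣ n := by
  intro h
  rcases hn with ⟨hs, -⟩ | ⟨m, rfl, hs, -⟩
  · exact absurd (Nat.isUnit_iff.1 (hs 3 (by exact h))) (by norm_num)
  · have h1 : 3 * 3 ∣ m := by omega
    exact absurd (Nat.isUnit_iff.1 (hs 3 h1)) (by norm_num)

theorem In_iff {n A : ℕ} (hn : N15 n) : A ∈ In n ↔ Ud n A ∧ ¬ 3 ∣ A := by
  have h3 : 3 ∣ n := dvd_trans (by norm_num) hn.2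
  have h9 := nine hn.1
  have h0 := Ng_pos hn.1
  obtain ⟨k, rfl⟩ := h3
  have e : 3 * k / 3 = k := by omega
  unfold In Ud
  rw [Finset.mem_filter, Nat.mem_divisors, e]
  constructor
  · rintro ⟨⟨h1, -⟩, h2⟩
    refine ⟨⟨dvd_mul_of_dvd_right h1 3, h2⟩, ?_⟩
    intro h
    have := dvd_trans h h1
    omega
  · rintro ⟨⟨h1, h2⟩, h4⟩
    have : Nat.Coprime A 3 := by
      rw [Nat.coprime_comm]
      exact (Nat.Prime.coprime_iff_not_dvd Nat.prime_three).2 h4
    exact ⟨⟨this.dvd_of_dvd_mul_left h1, by omega⟩, h2⟩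

theorem ud3 {n : ℕ} (hn : N15 n) : Ud n (n / 3) ∧ ¬ 3 ∣ n / 3 ∧
    (n / 3).primeFactors.card + 1 = n.primeFactors.card := by
  have h3 : 3 ∣ n := dvd_trans (by norm_num) hn.2
  have h9 := nine hn.1
  have h0 := Ng_pos hn.1
  obtain ⟨k, rfl⟩ := h3
  have e : 3 * k / 3 = k := by omega
  have hk : ¬ 3 ∣ k := by omega
  have e2 : 3 * k / k = 3 := Nat.mul_div_cancel 3 (by omega)
  have hc : Nat.Coprime 3 k := (Nat.Prime.coprime_iff_not_dvd Nat.prime_three).2 hk
  rw [e]
  refine ⟨⟨dvd_mul_left k 3, by rw [e2]; exact hc.symm⟩, hk, ?_⟩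
  rw [card_mul hc, card_three]
  omega

/-- the value of each term -/
theorem term_val (hKi : S_KAPii) (hKo : S_KAPio) (hV : S_VAN) (hX : S_VANX) (hR : S_VANR)
    (hE : S_EIS) (h3 : S_PARA3) (h3e : S_PARA3E) (h5 : S_PARA5) (h5e : S_PARA5E)
    {n A : ℕ} (hn : N15 n) (hU : Ud n A) (h3A : ¬ 3 ∣ A) (h1 : A ≠ 1) {y x : ℤ}
    (hy : good n A → Yv A y) (hx : P A n = x ^ 2) :
    Val (n.primeFactors.card - 1) x (good n A ∧ Odd y ∧ QQ (n / A)) := by
  by_cases hg : good n A
  · have hy' := hy hg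
    have hmul : A * (n / A) = n := Nat.mul_div_cancel' hU.1
    have hg0 := hg
    rcases hg with hg' | hg'
    · have := term_ii hKi h5 h5e hg'.1 hg'.2 hU.2 (hy'.1 hg'.1) (x := x) (by rw [hmul]; exact hx)
      rw [hmul] at this
      exact this.congr ⟨fun h => ⟨hg0, h⟩, fun h => h.2⟩
    · have := term_io hKo h3 h3e hg'.1 hg'.2 hU.2 (hy'.2 hg'.1) (x := x) (by rw [hmul]; exact hx)
      rw [hmul] at this
      exact this.congr ⟨fun h => ⟨hg0, h⟩, fun h => h.2⟩
  · have h0 := term_zero hV hX hR hE hn hU h3A h1 hg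
    rw [h0] at hx
    have : x = 0 := by
      have := hx.symm
      exact pow_eq_zero_iff (two_ne_zero) |>.1 this
    rw [this]
    exact Val.zero _ (fun h => hg h.1)

theorem val_one (hR3 : N877.P21.S_R3) (hR3E : N877.P21.S_R3E) {n : ℕ} (hn : N15 n) {x : ℤ}
    (hx : 6 * x = rr n) : Val (n.primeFactors.card - 1) x (QQ n) := by
  obtain ⟨g, h1, h2⟩ := par_rr hR3 hR3E hn.1 (dvd_trans (by norm_num) hn.2)
  have hpos : 0 < n.primeFactors.card := by
    rw [Finset.card_pos]
    exact ⟨3, Nat.mem_primeFactors.2 ⟨Nat.prime_three, dvd_trans (by norm_num) hn.2,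
      (Ng_pos hn.1).ne'⟩⟩
  obtain ⟨w, hw⟩ : ∃ w, n.primeFactors.card = w + 1 := ⟨n.primeFactors.card - 1, by omega⟩
  rw [hw] at h1 ⊢
  rw [Nat.add_sub_cancel]
  refine Val.div (m := 3) (by decide) ⟨g, ?_, h2⟩
  rw [h1, pow_succ] at hx
  linarith

/-- integrality -/
theorem hasY (hO : S_ORT) (hKi : S_KAPii) (hKo : S_KAPio) (hV : S_VAN) (hX : S_VANX)
    (hR : S_VANR) (hE : S_EIS) (h3 : S_PARA3) (h3e : S_PARA3E) (h5 : S_PARA5) (h5e : S_PARA5E)
    (hR3 : N877.P21.S_R3) (hR3E : N877.P21.S_R3E) :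
    ∀ n A : ℕ, ((Aii A ∧ 15 * A = n) ∨ (Aio A ∧ 3 * A = n)) → ∃ y : ℤ, Yv A y := by
  intro n
  induction n using Nat.strong_induction_on with
  | _ n ih =>
  intro A hA
  -- the data of the top term
  have hAP : Ps A := by rcases hA with h | h <;> exact h.1.1
  have hA0 := Ps_pos hAP
  have hA3 : A % 3 = 2 := by rcases hA with h | h <;> exact h.1.2.1
  have h3A : ¬ 3 ∣ A := by omega
  have hcA3 : Nat.Coprime A 3 := by
    rw [Nat.coprime_comm]
    exact (Nat.Prime.coprime_iff_not_dvd Nat.prime_three).2 h3A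
  have hnA : ∃ m : ℕ, n = A * m ∧ Nat.Coprime A m ∧ Ng m ∧ 15 ∣ n := by
    rcases hA with ⟨h, rfl⟩ | ⟨h, rfl⟩
    · have h5A : ¬ 5 ∣ A := by have := h.2.2; omega
      exact ⟨15, mul_comm _ _, cop15_A h3A h5A, N15_15.1, dvd_mul_right 15 A⟩
    · have h5A : 5 ∣ A := h.2.2
      exact ⟨3, mul_comm _ _, hcA3, N3_3.1, by omega⟩
  obtain ⟨m, hnm, hcm, hNm, h15⟩ := hnA
  have hn : N15 n := ⟨by rw [hnm]; exact Ng_mul hAP hNm hcm, h15⟩
  have hUA : Ud n A := by rw [hnm]; exact Ud_mul hA0 hcm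
  obtain ⟨hU3, h33, hcard⟩ := ud3 hn
  obtain ⟨x, hx, -, hx6, hdvd⟩ := hO n (n / 3) hn hU3 h33
  rw [hcard] at hdvd
  have hAI : A ∈ In n := (In_iff hn).2 ⟨hUA, h3A⟩
  have hpos : 0 < n.primeFactors.card := by omega
  -- the other terms
  have hoth : ∀ B ∈ (In n).erase A, (2 : ℤ) ^ (n.primeFactors.card - 1) ∣ x B := by
    intro B hB
    rw [Finset.mem_erase] at hB
    obtain ⟨hUB, h3B⟩ := (In_iff hn).1 hB.2
    have hBD : B ∣ n / 3 := Nat.dvd_of_mem_divisors (Finset.mem_filter.1 hB.2).1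
    by_cases h1 : B = 1
    · subst h1
      exact (val_one hR3 hR3E hn hx6).dvd
    · by_cases hg : good n B
      · have hB0 := Ps_pos (good_Ps hg)
        have hmul : B * (n / B) = n := Nat.mul_div_cancel' hUB.1
        have hBy : ∃ y : ℤ, Yv B y := by
          rcases hg with hg' | hg'
          · refine ih (15 * B) ?_ B (Or.inl ⟨hg'.1, rfl⟩)
            have h15m := hg'.2.2
            have hm0 := Ng_pos hg'.2.1
            have hm15 : n / B ≠ 15 := by
              intro h15'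
              rw [h15'] at hmul
              rcases hA with ⟨h, h'⟩ | ⟨h, h'⟩
              · apply hB.1
                omega
              · have h5A := h.2.2
                have : A = 5 * B := by omega
                have hB3 := hg'.1.2.1
                omega
            have h30 : 15 < n / B := by
              obtain ⟨k, hk⟩ := h15m
              omega
            calc 15 * B = B * 15 := mul_comm _ _
              _ < B * (n / B) := Nat.mul_lt_mul_of_pos_left h30 hB0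
              _ = n := hmul
          · refine ih (3 * B) ?_ B (Or.inr ⟨hg'.1, rfl⟩)
            have h3m := hg'.2.2.1
            have hm0 := Ng_pos hg'.2.1
            have hm3 : n / B ≠ 3 := by
              intro h15'
              rw [h15'] at hmul
              rcases hA with ⟨h, h'⟩ | ⟨h, h'⟩
              · have : B = 5 * A := by omega
                have hB3 := hg'.1.2.1
                omega
              · apply hB.1
                omega
            have h30 : 3 < n / B := by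
              obtain ⟨k, hk⟩ := h3m
              omega
            calc 3 * B = B * 3 := mul_comm _ _
              _ < B * (n / B) := Nat.mul_lt_mul_of_pos_left h30 hB0
              _ = n := hmul
        obtain ⟨y, hy⟩ := hBy
        exact (term_val hKi hKo hV hX hR hE h3 h3e h5 h5e hn hUB h3B h1 (y := y) (fun _ => hy)
          (hx B hUB hBD)).dvd
      · exact (term_val hKi hKo hV hX hR hE h3 h3e h5 h5e hn hUB h3B h1 (y := 0)
          (fun h => absurd h hg) (hx B hUB hBD)).dvd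
  have hsum : (2 : ℤ) ^ (n.primeFactors.card - 1) ∣ ∑ B ∈ In n, x B :=
    dvd_trans (pow_dvd_pow 2 (Nat.sub_le _ _)) hdvd
  have hxA : (2 : ℤ) ^ (n.primeFactors.card - 1) ∣ x A := by
    rw [← Finset.add_sum_erase _ _ hAI] at hsum
    exact (Int.dvd_add_left (Finset.dvd_sum hoth)).1 hsum
  have hPA := hx A hUA (Nat.dvd_of_mem_divisors (Finset.mem_filter.1 hAI).1)
  obtain ⟨y, hy⟩ := hxA
  refine ⟨y, ?_, ?_⟩
  · intro hi
    have hn15 : 15 * A = n := by
      rcases hA with h | h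
      · exact h.2
      · exact absurd h.1 (ii_io hi)
    have h5A : ¬ 5 ∣ A := by have := hi.2.2; omega
    rw [hn15, hPA, hy]
    have : n.primeFactors.card - 1 = A.primeFactors.card + 1 := by
      rw [← hn15, mul_comm, card_mul (cop15_A h3A h5A), card_fifteen]
      omega
    rw [this]
  · intro ho
    have hn3 : 3 * A = n := by
      rcases hA with h | h
      · exact absurd ho (ii_io h.1)
      · exact h.2
    rw [hn3, hPA, hy]
    have : n.primeFactors.card - 1 = A.primeFactors.card := by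
      rw [← hn3, mul_comm, card_mul hcA3, card_three]
      omega
    rw [this]

/-- **PARn** -/
theorem t_PARn (hO : S_ORT) (hKi : S_KAPii) (hKo : S_KAPio) (hV : S_VAN) (hX : S_VANX)
    (hR : S_VANR) (hE : S_EIS) (h3 : S_PARA3) (h3e : S_PARA3E) (h5 : S_PARA5) (h5e : S_PARA5E)
    (hR3 : N877.P21.S_R3) (hR3E : N877.P21.S_R3E) : S_PARn := by
  classical
  have hY : ∀ A : ℕ, ∃ y : ℤ, Yv A y := by
    intro A
    by_cases hi : Aii A
    · exact hasY hO hKi hKo hV hX hR hE h3 h3e h5 h5e hR3 hR3E (15 * A) A (Or.inl ⟨hi, rfl⟩)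
    · by_cases ho : Aio A
      · exact hasY hO hKi hKo hV hX hR hE h3 h3e h5 h5e hR3 hR3E (3 * A) A (Or.inr ⟨ho, rfl⟩)
      · exact ⟨0, fun h => absurd h hi, fun h => absurd h ho⟩
  choose y hy using hY
  refine ⟨y, fun A hA => (hy A).1 hA, fun A hA => (hy A).2 hA, ?_⟩
  intro n hn
  obtain ⟨hU3, h33, hcard⟩ := ud3 hn
  obtain ⟨x, hx, -, hx6, hdvd⟩ := hO n (n / 3) hn hU3 h33
  rw [hcard] at hdvd
  have hpos : 0 < n.primeFactors.card := by omega
  have h0 := Ng_pos hn.1
  have hval : ∀ B ∈ In n, Val (n.primeFactors.card - 1) (x B)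
      ((B = 1 ∧ QQ n) ∨ (B ≠ 1 ∧ good n B ∧ Odd (y B) ∧ QQ (n / B))) := by
    intro B hB
    obtain ⟨hUB, h3B⟩ := (In_iff hn).1 hB
    have hBD : B ∣ n / 3 := Nat.dvd_of_mem_divisors (Finset.mem_filter.1 hB).1
    by_cases h1 : B = 1
    · subst h1
      exact (val_one hR3 hR3E hn hx6).congr ⟨fun h => Or.inl ⟨rfl, h⟩, fun h =>
        h.elim (fun h => h.2) (fun h => absurd rfl h.1)⟩
    · refine (term_val hKi hKo hV hX hR hE h3 h3e h5 h5e hn hUB h3B h1 (y := y B)
        (fun _ => hy B) (hx B hUB hBD)).congr ⟨fun h => Or.inr ⟨h1, h⟩, fun h => by tauto⟩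
  obtain ⟨z, hz1, hz2⟩ := sum_val hval
  have hz : Even z := by
    have h1 : (2 : ℤ) ^ n.primeFactors.card ∣ 2 ^ (n.primeFactors.card - 1) * z := by
      rw [← hz1]
      exact hdvd
    have h2 : (2 : ℤ) ^ n.primeFactors.card = 2 ^ (n.primeFactors.card - 1) * 2 := by
      rw [← pow_succ]
      congr 1
      omega
    rw [h2] at h1
    exact even_iff_two_dvd.2 (Int.dvd_of_mul_dvd_mul_left (by positivity) h1)
  have hodd := hz2.not.1 (by rw [Int.not_odd_iff_even]; exact hz)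
  have h1In : 1 ∈ In n := (In_iff hn).2 ⟨⟨one_dvd n, Nat.coprime_one_left _⟩, by omega⟩
  -- the index sets
  have hset : (In n).filter (fun B => (B = 1 ∧ QQ n) ∨
      (B ≠ 1 ∧ good n B ∧ Odd (y B) ∧ QQ (n / B))) =
      (if QQ n then {1} else ∅) ∪ (n.divisors.filter fun A => Nat.Coprime A (n / A) ∧
      good n A ∧ Odd (y A) ∧ QQ (n / A)) := by
    ext B
    rw [Finset.mem_filter, Finset.mem_union, Finset.mem_filter, Nat.mem_divisors, In_iff hn]
    constructor
    · rintro ⟨⟨hU, h3B⟩, ⟨rfl, hQ⟩ | ⟨h1, hg, ho, hQ⟩⟩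
      · left; rw [if_pos hQ]; exact Finset.mem_singleton_self 1
      · right; exact ⟨⟨hU.1, by omega⟩, hU.2, hg, ho, hQ⟩
    · rintro (h | ⟨⟨h1, h2⟩, h3', hg, ho, hQ⟩)
      · split_ifs at h with hQ
        · rw [Finset.mem_singleton] at h
          subst h
          exact ⟨⟨⟨one_dvd n, Nat.coprime_one_left _⟩, by omega⟩, Or.inl ⟨rfl, hQ⟩⟩
        · exact absurd h (Finset.notMem_empty B)
      · have := good_mod hg
        exact ⟨⟨⟨h1, h3'⟩, by omega⟩, Or.inr ⟨Ps_ne (good_Ps hg), hg, ho, hQ⟩⟩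
  have hdis : Disjoint (if QQ n then ({1} : Finset ℕ) else ∅)
      (n.divisors.filter fun A => Nat.Coprime A (n / A) ∧ good n A ∧ Odd (y A) ∧ QQ (n / A)) := by
    rw [Finset.disjoint_left]
    intro B h1 h2
    split_ifs at h1
    · rw [Finset.mem_singleton] at h1
      subst h1
      exact Ps_ne (good_Ps (Finset.mem_filter.1 h2).2.2.1) rfl
    · exact absurd h1 (Finset.notMem_empty B)
  have hfin : QQ n ↔ Odd (n.divisors.filter fun A => Nat.Coprime A (n / A) ∧
      good n A ∧ Odd (y A) ∧ QQ (n / A)).card := by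
    rw [hset, Finset.card_union_of_disjoint hdis] at hodd
    by_cases hQ : QQ n
    · rw [if_pos hQ, Finset.card_singleton] at hodd
      constructor
      · intro _
        rw [Nat.not_odd_iff_even, Nat.even_add] at hodd
        rw [← Nat.not_even_iff_odd]
        intro h
        exact absurd (hodd.2 h) (by decide)
      · intro _; exact hQ
    · rw [if_neg hQ, Finset.card_empty, zero_add] at hodd
      exact ⟨fun h => absurd h hQ, fun h => absurd h hodd⟩
  unfold QQ good at hfin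
  convert hfin

end Pool.Agent.N973.P15G
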